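import Pool.Agent.Work.MP_298761_T8.Interface

set_option autoImplicit false

/-! DIA: a symplectic basis of joint eigenvectors (helper64). -/

namespace Pool.Agent.Work.T8.DIA

open Matrix Pool.Agent.Work.T3

section general

variable {κ : Type} [Fintype κ]

lemma hdot (S N N' : Matrix κ κ ℂ) (h : Nᴴ * S = S * N') (u v : κ → ℂ) :
    star (N *ᵥ u) ⬝ᵥ (S *ᵥ v) = star u ⬝ᵥ (S *ᵥ (N' *ᵥ v)) := by
  rw [star_mulVec, ← dotProduct_mulVec, mulVec_mulVec, h, ← mulVec_mulVec]

lemma ker_sq (S N N' : Matrix κ κ ℂ) (hS : ∀ x : κ → ℂ, star x ⬝ᵥ (S *ᵥ x) = 0 → x = 0)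
    (h : Nᴴ * S = S * N') (hc : N * N' = N' * N) (x : κ → ℂ) (hx : N *ᵥ (N *ᵥ x) = 0) :
    N *ᵥ x = 0 := by
  have h1 : N' *ᵥ (N *ᵥ x) = 0 := by
    apply hS
    rw [← hdot S N N' h (N' *ᵥ (N *ᵥ x)) (N *ᵥ x)]
    have h2 : N *ᵥ (N' *ᵥ (N *ᵥ x)) = 0 := by
      rw [mulVec_mulVec, hc, ← mulVec_mulVec, hx, mulVec_zero]
    rw [h2, star_zero, zero_dotProduct]
  apply hS
  rw [hdot S N N' h x (N *ᵥ x), h1, mulVec_zero, dotProduct_zero]

omit [Fintype κ] in
lemma ker_pow (f : Module.End ℂ (κ → ℂ)) (h : ∀ x, f (f x) = 0 → f x = 0) (k : ℕ) :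
    ∀ x, (f ^ k) x = 0 → f x = 0 := by
  induction k with
  | zero =>
    intro x hx
    have h1 : x = 0 := by simpa using hx
    rw [h1, map_zero]
  | succ k ih =>
    intro x hx
    rw [pow_succ, Module.End.mul_apply] at hx
    exact h x (ih _ hx)

end general

section adj

variable {g : ℕ}

lemma J_adj {R : Type} [CommRing R] (e : Mat1 g R) :
    Matrix.J (Fin g) R * adjJ e = eᵀ * Matrix.J (Fin g) R := by
  rw [adjJ, Matrix.mul_neg, ← Matrix.mul_assoc, ← Matrix.mul_assoc, J_squared]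
  simp

lemma map_J {R R' : Type} [CommRing R] [CommRing R'] (f : R →+* R') :
    (Matrix.J (Fin g) R).map f = Matrix.J (Fin g) R' := by
  ext a b
  rcases a with a | a <;> rcases b with b | b <;>
    simp [Matrix.J, Matrix.one_apply, apply_ite f]

lemma map_adj {R R' : Type} [CommRing R] [CommRing R'] (f : R →+* R') (e : Mat1 g R) :
    (adjJ e).map f = adjJ (e.map f) := by
  have h1 : ∀ M : Mat1 g R, M.map f = f.mapMatrix M := fun _ => rfl
  rw [adjJ, adjJ, h1, map_neg, map_mul, map_mul, ← h1, ← h1, map_J, ← Matrix.transpose_map]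

lemma mC_adj (e : Mat1 g ℚ) : mC (adjJ e) = adjJ (mC e) := map_adj (Rat.castHom ℂ) e

lemma mR_adj (e : Mat1 g ℚ) : mR (adjJ e) = adjJ (mR e) := map_adj (Rat.castHom ℝ) e

lemma mC_mul (a b : Mat1 g ℚ) : mC (a * b) = mC a * mC b := by
  have h1 : ∀ M : Mat1 g ℚ, mC M = (Rat.castHom ℂ).mapMatrix M := fun _ => rfl
  rw [h1, h1, h1, map_mul]

lemma mC_mR (e : Mat1 g ℚ) : mC e = (mR e).map Complex.ofRealHom := by
  ext a b
  simp [mC, mR]

lemma mC_H (e : Mat1 g ℚ) : (mC e)ᴴ = ((mR e)ᵀ).map Complex.ofRealHom := by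
  ext a b
  simp [mC, mR, conjTranspose_apply]

/-- the positive Hermitian form -/
lemma exists_S (E : Subalgebra ℚ (Mat1 g ℚ)) (hE : Admissible E) :
    ∃ S : Mat1 g ℂ, (∀ x : Fin g ⊕ Fin g → ℂ, star x ⬝ᵥ (S *ᵥ x) = 0 → x = 0) ∧
      ∀ e ∈ E, (mC e)ᴴ * S = S * mC (adjJ e) := by
  obtain ⟨C, -, -, hpos, hcomm⟩ := hE.pos
  set G : Mat1 g ℝ := Matrix.J (Fin g) ℝ * C with hG
  have hpos' : ∀ x : Fin g ⊕ Fin g → ℝ, x ≠ 0 → 0 < x ⬝ᵥ (G *ᵥ x) := by
    intro x hx
    have h := hpos x hx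
    rw [mulVec_mulVec] at h
    exact h
  have hnn : ∀ x : Fin g ⊕ Fin g → ℝ, 0 ≤ x ⬝ᵥ (G *ᵥ x) := by
    intro x
    by_cases hx : x = 0
    · rw [hx, zero_dotProduct]
    · exact (hpos' x hx).le
  refine ⟨G.map Complex.ofRealHom, ?_, ?_⟩
  · intro x hx
    set a : Fin g ⊕ Fin g → ℝ := fun i => (x i).re with ha
    set b : Fin g ⊕ Fin g → ℝ := fun i => (x i).im with hb
    have h1 : (star x ⬝ᵥ ((G.map Complex.ofRealHom) *ᵥ x)).re = a ⬝ᵥ (G *ᵥ a) + b ⬝ᵥ (G *ᵥ b) := by
      simp only [dotProduct, mulVec, Finset.mul_sum, Complex.re_sum]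
      rw [← Finset.sum_add_distrib]
      refine Finset.sum_congr rfl fun i _ => ?_
      rw [← Finset.sum_add_distrib]
      refine Finset.sum_congr rfl fun j _ => ?_
      simp [ha, hb, Matrix.map_apply]
    rw [hx, Complex.zero_re] at h1
    have h2 := hnn a
    have h3 := hnn b
    have h4 : a = 0 := by
      by_contra h
      have := hpos' a h
      linarith
    have h5 : b = 0 := by
      by_contra h
      have := hpos' b h
      linarith
    ext i
    apply Complex.ext
    · exact congrFun h4 i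
    · exact congrFun h5 i
  · intro e he
    have h1 : (mR e)ᵀ * G = G * mR (adjJ e) := by
      have h2 := hcomm (adjJ e) (hE.adj e he)
      have h3 := J_adj (mR e)
      rw [hG, ← Matrix.mul_assoc, ← h3, Matrix.mul_assoc, ← mR_adj, h2, Matrix.mul_assoc]
    rw [mC_H, mC_mR (adjJ e)]
    have h4 : ∀ M : Mat1 g ℝ, M.map Complex.ofRealHom = Complex.ofRealHom.mapMatrix M :=
      fun _ => rfl
    rw [h4, h4, h4, ← map_mul, ← map_mul, h1]

/-- the symplectic form as a linear map in the second argument -/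
noncomputable def om (x : Fin g ⊕ Fin g → ℂ) : (Fin g ⊕ Fin g → ℂ) →ₗ[ℂ] ℂ where
  toFun y := x ⬝ᵥ (Matrix.J (Fin g) ℂ *ᵥ y)
  map_add' y z := by rw [mulVec_add, dotProduct_add]
  map_smul' c y := by rw [mulVec_smul, dotProduct_smul, RingHom.id_apply]

lemma om_apply (x y : Fin g ⊕ Fin g → ℂ) : om x y = x ⬝ᵥ (Matrix.J (Fin g) ℂ *ᵥ y) := rfl

lemma om_skew (x y : Fin g ⊕ Fin g → ℂ) : om x y = - om y x := by
  rw [om_apply, om_apply, dotProduct_mulVec, dotProduct_comm]
  have h1 : x ᵥ* Matrix.J (Fin g) ℂ = -(Matrix.J (Fin g) ℂ *ᵥ x) := by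
    rw [← mulVec_transpose, J_transpose, neg_mulVec]
  rw [h1, dotProduct_neg]

lemma om_self (x : Fin g ⊕ Fin g → ℂ) : om x x = 0 := by
  have h := om_skew x x
  have h2 : (2 : ℂ) * om x x = 0 := by linear_combination h
  simpa using h2

lemma om_smul_left (c : ℂ) (x y : Fin g ⊕ Fin g → ℂ) : om (c • x) y = c * om x y := by
  rw [om_apply, om_apply, smul_dotProduct, smul_eq_mul]

lemma om_nondeg (x : Fin g ⊕ Fin g → ℂ) (h : ∀ y, om x y = 0) : x = 0 := by
  ext a
  have h1 := h (Matrix.J (Fin g) ℂ *ᵥ (Pi.single a 1))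
  rw [om_apply, mulVec_mulVec, J_squared, neg_mulVec, one_mulVec, dotProduct_neg, neg_eq_zero,
    dotProduct_single, mul_one] at h1
  exact h1

lemma om_adj (e : Mat1 g ℚ) (x y : Fin g ⊕ Fin g → ℂ) :
    om (mC e *ᵥ x) y = om x (mC (adjJ e) *ᵥ y) := by
  rw [om_apply, om_apply, mulVec_mulVec, mC_adj, J_adj, ← mulVec_mulVec, dotProduct_mulVec x,
    vecMul_transpose]

/-- joint eigenvectors -/
def JE (E : Subalgebra ℚ (Mat1 g ℚ)) (x : Fin g ⊕ Fin g → ℂ) : Prop :=
  ∀ e ∈ E, ∃ c : ℂ, mC e *ᵥ x = c • x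

lemma JE_smul {E : Subalgebra ℚ (Mat1 g ℚ)} {x : Fin g ⊕ Fin g → ℂ} (hx : JE E x) (a : ℂ) :
    JE E (a • x) := by
  intro e he
  obtain ⟨c, hc⟩ := hx e he
  exact ⟨c, by rw [mulVec_smul, hc, smul_comm]⟩

lemma span_JE (E : Subalgebra ℚ (Mat1 g ℚ)) (hE : Admissible E) :
    Submodule.span ℂ {x : Fin g ⊕ Fin g → ℂ | JE E x} = ⊤ := by
  obtain ⟨S, hS, hadj⟩ := exists_S E hE
  have key : ∀ e : E, ∀ (μ : ℂ) (x : Fin g ⊕ Fin g → ℂ),
      x ∈ Module.End.maxGenEigenspace (mC e.1).mulVecLin μ → mC e.1 *ᵥ x = μ • x := by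
    intro e μ x hx
    rw [Module.End.mem_maxGenEigenspace] at hx
    obtain ⟨k, hk⟩ := hx
    have h0 : ∀ y : Fin g ⊕ Fin g → ℂ,
        ((mC e.1).mulVecLin - μ • (1 : Module.End ℂ (Fin g ⊕ Fin g → ℂ))) y =
          (mC e.1 - μ • (1 : Mat1 g ℂ)) *ᵥ y := by
      intro y
      rw [LinearMap.sub_apply, LinearMap.smul_apply, Module.End.one_apply, mulVecLin_apply,
        sub_mulVec, smul_mulVec, one_mulVec]
    have h1 : (mC e.1 - μ • (1 : Mat1 g ℂ))ᴴ * S =
        S * (mC (adjJ e.1) - (starRingEnd ℂ μ) • (1 : Mat1 g ℂ)) := by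
      rw [conjTranspose_sub, conjTranspose_smul, conjTranspose_one, Matrix.sub_mul, hadj e.1 e.2,
        Matrix.mul_sub]
      simp
    have h2 : (mC e.1 - μ • (1 : Mat1 g ℂ)) * (mC (adjJ e.1) - (starRingEnd ℂ μ) • (1 : Mat1 g ℂ))
        = (mC (adjJ e.1) - (starRingEnd ℂ μ) • (1 : Mat1 g ℂ)) *
          (mC e.1 - μ • (1 : Mat1 g ℂ)) := by
      have h3 : mC e.1 * mC (adjJ e.1) = mC (adjJ e.1) * mC e.1 := by
        rw [← mC_mul, hE.comm e.1 e.2 (adjJ e.1) (hE.adj e.1 e.2), mC_mul]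
      have h4 : Commute (mC e.1) (mC (adjJ e.1)) := h3
      have h5 : Commute (mC e.1 - μ • (1 : Mat1 g ℂ))
          (mC (adjJ e.1) - (starRingEnd ℂ μ) • (1 : Mat1 g ℂ)) := by
        refine Commute.sub_left (Commute.sub_right h4 ?_) (Commute.sub_right ?_ ?_)
        · exact (Commute.one_right _).smul_right _
        · exact (Commute.one_left _).smul_left _
        · exact ((Commute.one_left _).smul_left _).smul_right _
      exact h5
    have h6 := ker_pow _ (fun y hy => by
      rw [h0, h0] at hy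
      rw [h0]
      exact ker_sq S _ _ hS h1 h2 y hy) k x hk
    rw [h0, sub_mulVec, smul_mulVec, one_mulVec, sub_eq_zero] at h6
    exact h6
  have htop := Module.End.iSup_iInf_maxGenEigenspace_eq_top_of_iSup_maxGenEigenspace_eq_top_of_commute
    (fun e : E => (mC e.1).mulVecLin) (by
      intro e f _
      change (mC e.1).mulVecLin * (mC f.1).mulVecLin = (mC f.1).mulVecLin * (mC e.1).mulVecLin
      rw [Module.End.mul_eq_comp, Module.End.mul_eq_comp, ← mulVecLin_mul, ← mulVecLin_mul,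
        ← mC_mul, ← mC_mul, hE.comm e.1 e.2 f.1 f.2])
    (fun e => Module.End.iSup_maxGenEigenspace_eq_top _)
  rw [eq_top_iff, ← htop]
  refine iSup_le fun χ => ?_
  intro x hx
  apply Submodule.subset_span
  intro e he
  rw [Submodule.mem_iInf] at hx
  exact ⟨χ ⟨e, he⟩, key ⟨e, he⟩ _ x (hx ⟨e, he⟩)⟩

lemma rel (E : Subalgebra ℚ (Mat1 g ℚ)) (hE : Admissible E) {x y : Fin g ⊕ Fin g → ℂ}
    (hx : JE E x) (hxy : om x y ≠ 0) {e : Mat1 g ℚ} (he : e ∈ E) {c d : ℂ}
    (h1 : mC e *ᵥ x = c • x) (h2 : mC e *ᵥ y = d • y) : d = (starRingEnd ℂ) c := by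
  obtain ⟨S, hS, hadj⟩ := exists_S E hE
  obtain ⟨c', hc'⟩ := hx (adjJ e) (hE.adj e he)
  have hx0 : x ≠ 0 := by
    rintro rfl
    apply hxy
    rw [om_apply, zero_dotProduct]
  have h3 := hdot S (mC e) (mC (adjJ e)) (hadj e he) x x
  rw [h1, hc', star_smul, smul_dotProduct, mulVec_smul, dotProduct_smul, smul_eq_mul,
    smul_eq_mul] at h3
  have h4 : star x ⬝ᵥ (S *ᵥ x) ≠ 0 := fun h => hx0 (hS x h)
  have h5 : (starRingEnd ℂ) c = c' := mul_right_cancel₀ h4 h3
  have h6 : om x (mC e *ᵥ y) = c' * om x y := by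
    rw [om_skew, om_adj, hc', map_smul, smul_eq_mul, om_skew y x]
    ring
  rw [h2, map_smul, smul_eq_mul] at h6
  rw [h5]
  exact mul_right_cancel₀ hxy h6

/-- projection to the orthogonal complement -/
noncomputable def pr (k : ℕ) (v u : ℕ → Fin g ⊕ Fin g → ℂ) (x : Fin g ⊕ Fin g → ℂ) :
    Fin g ⊕ Fin g → ℂ :=
  x + ∑ i ∈ Finset.range k, om (u i) x • v i - ∑ i ∈ Finset.range k, om (v i) x • u i

/-- partial symplectic bases of joint eigenvectors -/
structure Part (E : Subalgebra ℚ (Mat1 g ℚ)) (k : ℕ) (v u : ℕ → Fin g ⊕ Fin g → ℂ) : Prop where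
  jv : ∀ i < k, JE E (v i)
  ju : ∀ i < k, JE E (u i)
  vu : ∀ i < k, ∀ j < k, om (v i) (u j) = if i = j then 1 else 0
  vv : ∀ i < k, ∀ j < k, om (v i) (v j) = 0
  uu : ∀ i < k, ∀ j < k, om (u i) (u j) = 0

lemma pr_v {E : Subalgebra ℚ (Mat1 g ℚ)} {k : ℕ} {v u : ℕ → Fin g ⊕ Fin g → ℂ}
    (h : Part E k v u) (x : Fin g ⊕ Fin g → ℂ) (j : ℕ) (hj : j < k) : om (v j) (pr k v u x) = 0 := by
  rw [pr, map_sub, map_add, map_sum, map_sum]
  have h1 : ∑ i ∈ Finset.range k, om (v j) (om (u i) x • v i) = 0 := by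
    apply Finset.sum_eq_zero
    intro i hi
    rw [map_smul, h.vv j hj i (Finset.mem_range.1 hi), smul_zero]
  have h2 : ∑ i ∈ Finset.range k, om (v j) (om (v i) x • u i) = om (v j) x := by
    rw [Finset.sum_eq_single j]
    · rw [map_smul, h.vu j hj j hj, if_pos rfl, smul_eq_mul, mul_one]
    · intro i hi hij
      rw [map_smul, h.vu j hj i (Finset.mem_range.1 hi), if_neg (Ne.symm hij), smul_zero]
    · intro hj'
      exact absurd (Finset.mem_range.2 hj) hj'
  rw [h1, h2]
  ring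

lemma pr_u {E : Subalgebra ℚ (Mat1 g ℚ)} {k : ℕ} {v u : ℕ → Fin g ⊕ Fin g → ℂ}
    (h : Part E k v u) (x : Fin g ⊕ Fin g → ℂ) (j : ℕ) (hj : j < k) : om (u j) (pr k v u x) = 0 := by
  rw [pr, map_sub, map_add, map_sum, map_sum]
  have h1 : ∑ i ∈ Finset.range k, om (u j) (om (v i) x • u i) = 0 := by
    apply Finset.sum_eq_zero
    intro i hi
    rw [map_smul, h.uu j hj i (Finset.mem_range.1 hi), smul_zero]
  have h2 : ∑ i ∈ Finset.range k, om (u j) (om (u i) x • v i) = - om (u j) x := by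
    rw [Finset.sum_eq_single j]
    · rw [map_smul, om_skew (u j) (v j), h.vu j hj j hj, if_pos rfl, smul_eq_mul]
      ring
    · intro i hi hij
      rw [map_smul, om_skew (u j) (v i), h.vu i (Finset.mem_range.1 hi) j hj, if_neg hij, neg_zero,
        smul_zero]
    · intro hj'
      exact absurd (Finset.mem_range.2 hj) hj'
  rw [h1, h2]
  ring

lemma pr_JE {E : Subalgebra ℚ (Mat1 g ℚ)} (hE : Admissible E) {k : ℕ}
    {v u : ℕ → Fin g ⊕ Fin g → ℂ} (h : Part E k v u) (x : Fin g ⊕ Fin g → ℂ) (hx : JE E x) :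
    JE E (pr k v u x) := by
  intro e he
  obtain ⟨c, hc⟩ := hx e he
  refine ⟨c, ?_⟩
  have hvu : ∀ i < k, ∀ a b : ℂ, mC e *ᵥ v i = a • v i → mC e *ᵥ u i = b • u i →
      b = (starRingEnd ℂ) a := by
    intro i hi a b ha hb
    refine rel E hE (h.jv i hi) ?_ he ha hb
    rw [h.vu i hi i hi, if_pos rfl]
    exact one_ne_zero
  have h1 : ∀ i ∈ Finset.range k, mC e *ᵥ (om (u i) x • v i) = c • (om (u i) x • v i) := by
    intro i hi
    have hi' := Finset.mem_range.1 hi
    by_cases h0 : om (u i) x = 0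
    · rw [h0, zero_smul, mulVec_zero, smul_zero]
    obtain ⟨a, ha⟩ := h.jv i hi' e he
    obtain ⟨b, hb⟩ := h.ju i hi' e he
    have h2 := hvu i hi' a b ha hb
    have h3 := rel E hE (h.ju i hi') h0 he hb hc
    have h4 : c = a := by rw [h3, h2, Complex.conj_conj]
    rw [mulVec_smul, ha, h4, smul_comm]
  have h2 : ∀ i ∈ Finset.range k, mC e *ᵥ (om (v i) x • u i) = c • (om (v i) x • u i) := by
    intro i hi
    have hi' := Finset.mem_range.1 hi
    by_cases h0 : om (v i) x = 0
    · rw [h0, zero_smul, mulVec_zero, smul_zero]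
    obtain ⟨a, ha⟩ := h.jv i hi' e he
    obtain ⟨b, hb⟩ := h.ju i hi' e he
    have h2 := hvu i hi' a b ha hb
    have h3 := rel E hE (h.jv i hi') h0 he ha hc
    have h4 : c = b := by rw [h3, h2]
    rw [mulVec_smul, hb, h4, smul_comm]
  have h5 : mC e *ᵥ (pr k v u x) = (mC e).mulVecLin (pr k v u x) := rfl
  rw [h5, pr, map_sub, map_add, map_sum, map_sum]
  simp only [mulVecLin_apply]
  rw [Finset.sum_congr rfl h1, Finset.sum_congr rfl h2, hc, smul_sub, smul_add, Finset.smul_sum,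
    Finset.smul_sum]

lemma chain (E : Subalgebra ℚ (Mat1 g ℚ)) (hE : Admissible E) (k : ℕ) :
    k ≤ g → ∃ v u : ℕ → Fin g ⊕ Fin g → ℂ, Part E k v u := by
  induction k with
  | zero =>
    intro _
    exact ⟨fun _ => 0, fun _ => 0, fun i hi => absurd hi (Nat.not_lt_zero i),
      fun i hi => absurd hi (Nat.not_lt_zero i), fun i hi => absurd hi (Nat.not_lt_zero i),
      fun i hi => absurd hi (Nat.not_lt_zero i), fun i hi => absurd hi (Nat.not_lt_zero i)⟩
  | succ k ih =>
    intro hk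
    obtain ⟨v, u, h⟩ := ih (by omega)
    have hspan := span_JE E hE
    -- a joint eigenvector with nonzero projection
    have h1 : ∃ x, JE E x ∧ pr k v u x ≠ 0 := by
      by_contra hcon
      push Not at hcon
      classical
      set T : Finset (Fin g ⊕ Fin g → ℂ) := (Finset.range k).image v ∪ (Finset.range k).image u
        with hT
      have hle : (⊤ : Submodule ℂ (Fin g ⊕ Fin g → ℂ)) ≤ Submodule.span ℂ (T : Set _) := by
        rw [← hspan, Submodule.span_le]
        intro x hx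
        have h2 := hcon x hx
        have h3 : x = ∑ i ∈ Finset.range k, om (v i) x • u i -
            ∑ i ∈ Finset.range k, om (u i) x • v i := by
          rw [pr] at h2
          rw [eq_sub_iff_add_eq]
          exact sub_eq_zero.1 h2
        rw [SetLike.mem_coe, h3]
        refine Submodule.sub_mem _ (Submodule.sum_mem _ fun i hi => ?_)
          (Submodule.sum_mem _ fun i hi => ?_)
        · refine Submodule.smul_mem _ _ (Submodule.subset_span ?_)
          rw [hT, Finset.coe_union]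
          exact Or.inr (Finset.mem_coe.2 (Finset.mem_image_of_mem u hi))
        · refine Submodule.smul_mem _ _ (Submodule.subset_span ?_)
          rw [hT, Finset.coe_union]
          exact Or.inl (Finset.mem_coe.2 (Finset.mem_image_of_mem v hi))
      have h4 : Module.finrank ℂ (Submodule.span ℂ (T : Set (Fin g ⊕ Fin g → ℂ))) = g + g := by
        rw [eq_top_iff.2 hle, finrank_top, Module.finrank_fintype_fun_eq_card]
        simp
      have h5 : (T : Set (Fin g ⊕ Fin g → ℂ)).finrank ℂ ≤ T.card := finrank_span_finset_le_card T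
      have h6 : T.card ≤ k + k := by
        refine le_trans (Finset.card_union_le _ _) ?_
        refine Nat.add_le_add ?_ ?_
        · exact le_trans Finset.card_image_le (by simp)
        · exact le_trans Finset.card_image_le (by simp)
      have h7 : (T : Set (Fin g ⊕ Fin g → ℂ)).finrank ℂ = g + g := h4
      omega
    obtain ⟨x, hx, hx0⟩ := h1
    set w := pr k v u x with hw
    have hwJ : JE E w := pr_JE hE h x hx
    have h2 : ∃ y, JE E y ∧ om w y ≠ 0 := by
      by_contra hcon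
      push Not at hcon
      apply hx0
      apply om_nondeg
      intro y
      have hy : y ∈ Submodule.span ℂ {x : Fin g ⊕ Fin g → ℂ | JE E x} := by
        rw [hspan]; trivial
      induction hy using Submodule.span_induction with
      | mem z hz => exact hcon z hz
      | zero => exact map_zero _
      | add a b _ _ ha hb => rw [map_add, ha, hb, add_zero]
      | smul c a _ ha => rw [map_smul, ha, smul_zero]
    obtain ⟨y, hy, hy0⟩ := h2
    have hwv : ∀ j < k, om (v j) w = 0 := fun j hj => pr_v h x j hj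
    have hwu : ∀ j < k, om (u j) w = 0 := fun j hj => pr_u h x j hj
    have h3 : om w (pr k v u y) = om w y := by
      rw [pr, map_sub, map_add, map_sum, map_sum]
      have h4 : ∑ i ∈ Finset.range k, om w (om (u i) y • v i) = 0 := by
        apply Finset.sum_eq_zero
        intro i hi
        rw [map_smul, om_skew w (v i), hwv i (Finset.mem_range.1 hi), neg_zero, smul_zero]
      have h5 : ∑ i ∈ Finset.range k, om w (om (v i) y • u i) = 0 := by
        apply Finset.sum_eq_zero
        intro i hi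
        rw [map_smul, om_skew w (u i), hwu i (Finset.mem_range.1 hi), neg_zero, smul_zero]
      rw [h4, h5]
      ring
    set z := (om w y)⁻¹ • pr k v u y with hz
    have hzJ : JE E z := JE_smul (pr_JE hE h y hy) _
    have hwz : om w z = 1 := by
      rw [hz, map_smul, h3, smul_eq_mul, inv_mul_cancel₀ hy0]
    have hzv : ∀ j < k, om (v j) z = 0 := by
      intro j hj
      rw [hz, map_smul, pr_v h y j hj, smul_zero]
    have hzu : ∀ j < k, om (u j) z = 0 := by
      intro j hj
      rw [hz, map_smul, pr_u h y j hj, smul_zero]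
    refine ⟨fun i => if i = k then w else v i, fun i => if i = k then z else u i,
      ?_, ?_, ?_, ?_, ?_⟩
    · intro i hi
      by_cases hik : i = k
      · simpa [hik] using hwJ
      · simpa [hik] using h.jv i (by omega)
    · intro i hi
      by_cases hik : i = k
      · simpa [hik] using hzJ
      · simpa [hik] using h.ju i (by omega)
    · intro i hi j hj
      by_cases hik : i = k <;> by_cases hjk : j = k
      · simp [hik, hjk, hwz]
      · have h6 : om w (u j) = 0 := by rw [om_skew, hwu j (by omega), neg_zero]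
        have h7 : k ≠ j := fun h => hjk h.symm
        simp [hik, hjk, h6, h7]
      · simp [hik, hjk, hzv i (by omega)]
      · simp [hik, hjk, h.vu i (by omega) j (by omega)]
    · intro i hi j hj
      by_cases hik : i = k <;> by_cases hjk : j = k
      · simp [hik, hjk, om_self]
      · have h6 : om w (v j) = 0 := by rw [om_skew, hwv j (by omega), neg_zero]
        simp [hik, hjk, h6]
      · simp [hik, hjk, hwv i (by omega)]
      · simp [hik, hjk, h.vv i (by omega) j (by omega)]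
    · intro i hi j hj
      by_cases hik : i = k <;> by_cases hjk : j = k
      · simp [hik, hjk, om_self]
      · have h6 : om z (u j) = 0 := by rw [om_skew, hzu j (by omega), neg_zero]
        simp [hik, hjk, h6]
      · simp [hik, hjk, hzu i (by omega)]
      · simp [hik, hjk, h.uu i (by omega) j (by omega)]

end adj

end Pool.Agent.Work.T8.DIA

namespace Pool.Agent.Work.T8

open Matrix Pool.Agent.Work.T3

/-- DIA: a symplectic basis of joint eigenvectors -/
theorem stmt_DIA : Stmt_DIA := by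
  intro g E hE
  obtain ⟨v, u, h⟩ := DIA.chain E hE g le_rfl
  set col : Fin g ⊕ Fin g → Fin g ⊕ Fin g → ℂ := Sum.elim (fun i => u i) (fun i => v i) with hcol
  set P : Mat1 g ℂ := Matrix.of (fun a b => col b a) with hP
  have hJE : ∀ b, DIA.JE E (col b) := by
    intro b
    rcases b with i | i
    · exact h.ju i i.2
    · exact h.jv i i.2
  have hom : ∀ b b', DIA.om (col b) (col b') = Matrix.J (Fin g) ℂ b b' := by
    intro b b'
    rcases b with i | i <;> rcases b' with j | j
    · simp [hcol, h.uu i i.2 j j.2, Matrix.J]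
    · have h1 := h.vu j j.2 i i.2
      rw [hcol, Sum.elim_inl, Sum.elim_inr, DIA.om_skew, h1]
      by_cases hij : i = j
      · simp [hij, Matrix.J]
      · have h2 : (j : ℕ) ≠ i := fun h => hij (Fin.ext h.symm)
        simp [h2, hij, Matrix.J]
    · have h1 := h.vu i i.2 j j.2
      rw [hcol, Sum.elim_inl, Sum.elim_inr, h1]
      by_cases hij : i = j
      · simp [hij, Matrix.J]
      · have h2 : (i : ℕ) ≠ j := fun h => hij (Fin.ext h)
        simp [h2, hij, Matrix.J]
    · simp [hcol, h.vv i i.2 j j.2, Matrix.J]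
  have hPJ : Pᵀ * Matrix.J (Fin g) ℂ * P = Matrix.J (Fin g) ℂ := by
    ext b b'
    rw [← hom b b', Matrix.mul_assoc, Matrix.mul_apply, DIA.om_apply]
    simp only [dotProduct, mulVec, Matrix.mul_apply, hP, Matrix.transpose_apply, Matrix.of_apply]
  set Q : Mat1 g ℂ := -(Matrix.J (Fin g) ℂ * Pᵀ * Matrix.J (Fin g) ℂ) with hQ
  have hQP : Q * P = 1 := by
    rw [hQ, Matrix.neg_mul, Matrix.mul_assoc, Matrix.mul_assoc, ← Matrix.mul_assoc Pᵀ, hPJ,
      J_squared, neg_neg]
  refine ⟨P, Q, mul_eq_one_comm.1 hQP, hQP, hPJ, ?_⟩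
  intro e he
  choose d hd using fun b => hJE b e he
  refine ⟨d, ?_, ?_⟩
  · have h1 : mC e * P = P * Matrix.diagonal d := by
      ext a b
      rw [Matrix.mul_diagonal, Matrix.mul_apply]
      have h2 := congrFun (hd b) a
      simp only [mulVec, dotProduct, Pi.smul_apply, smul_eq_mul] at h2
      simp only [hP, Matrix.of_apply]
      rw [h2, mul_comm]
    rw [Matrix.mul_assoc, h1, ← Matrix.mul_assoc, hQP, Matrix.one_mul]
  · intro a
    have hne : DIA.om (col a) (col (th a)) ≠ 0 := by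
      rw [hom]
      rcases a with i | i <;> simp [th, Matrix.J]
    exact DIA.rel E hE (hJE a) hne he (hd a) (hd (th a))

end Pool.Agent.Work.T8
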