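import Pool.Agent.Work.MP_298761_T8.Interface
import Pool.Agent.Work.MP_298761_T3.POS

/-! T8: block FF1P (helper62): the traceless invariants vanish. Adapted from
`MP_298761_T3/FF1.lean` (helper92). -/

namespace Pool.Agent.Work.T8

open Matrix Pool.Agent.Work.T3

namespace FF1P

section
variable {g : ℕ}

theorem sg_sq (a : Fin g ⊕ Fin g) : sg ℝ a * sg ℝ a = 1 := by
  rcases a with a | a <;> simp [sg]

theorem sg_th (a : Fin g ⊕ Fin g) : sg ℝ (th a) = - sg ℝ a := by
  rcases a with a | a <;> simp [sg, th]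

theorem th_th (a : Fin g ⊕ Fin g) : th (th a) = a := by
  rcases a with a | a <;> simp [th]

end

section
variable {A F : Type} [Fintype A] [Fintype F] [DecidableEq A] [DecidableEq F] {g n : ℕ}

omit [Fintype A] [Fintype F] in
theorem emb_rv (a b : Fin g ⊕ Fin g) :
    (emb (A ⊕ F) (rv ℝ a b) : Matrix (Idx (A ⊕ F) g) (Idx (A ⊕ F) g) ℝ) =
      Matrix.single (Sum.inr a) (Sum.inr b) (1 : ℝ) - (sg ℝ a * sg ℝ b) •
        Matrix.single (Sum.inr (th b)) (Sum.inr (th a)) (1 : ℝ) := by
  unfold emb rv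
  ext x y
  rcases x with x | x <;> rcases y with y | y <;> simp [Matrix.single_apply]

theorem h1_sp (r : Fin g ⊕ Fin g → Fin g ⊕ Fin g → Prop) (φ : Tens ℝ (Idx (A ⊕ F) g) n)
    (hSp : ∀ a b : Fin g ⊕ Fin g, r a b → der (emb (A ⊕ F) (rv ℝ a b)) φ = 0)
    (a b : Fin g ⊕ Fin g) (hab : r a b) :
    der (Matrix.single (Sum.inr a) (Sum.inr b) (1 : ℝ)) φ = (sg ℝ a * sg ℝ b) •
      der (Matrix.single (Sum.inr (th b)) (Sum.inr (th a)) (1 : ℝ)) φ := by
  have h := hSp a b hab
  rw [emb_rv, der_sub_left, der_smul_left, sub_eq_zero] at h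
  exact h

theorem symp_zero (hPOS : Stmt_POS) (hPOS2 : Stmt_POS2)
    (r : Fin g ⊕ Fin g → Fin g ⊕ Fin g → Prop) (hr : Equivalence r)
    (hrt : ∀ a b, r a b → r (th a) (th b))
    (φ : Tens ℝ (Idx (A ⊕ F) g) n)
    (hSp : ∀ a b : Fin g ⊕ Fin g, r a b → der (emb (A ⊕ F) (rv ℝ a b)) φ = 0)
    (hJ : ∀ c : Fin g ⊕ Fin g, ∀ p q : Fin n, p ≠ q → ∀ i : Fin n → Idx (A ⊕ F) g,
      ∑ a : Fin g ⊕ Fin g, cl ℝ r c a * (sg ℝ a *
        φ (Function.update (Function.update i p (Sum.inr a)) q (Sum.inr (th a)))) = 0)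
    (i : Fin n → Idx (A ⊕ F) g) (p : Fin n) (y : Fin g ⊕ Fin g) (hy : i p = Sum.inr y) :
    φ i = 0 := by
  classical
  have hinj : Function.Injective (Sum.inr : Fin g ⊕ Fin g → Idx (A ⊕ F) g) := Sum.inr_injective
  obtain ⟨D, hD⟩ : ∃ D : Finset (Idx (A ⊕ F) g),
    D = (Finset.univ.filter (fun x => r x y)).image Sum.inr := ⟨_, rfl⟩
  have hmem : ∀ x : Fin g ⊕ Fin g, r x y → (Sum.inr x : Idx (A ⊕ F) g) ∈ D := by
    intro x hx; rw [hD]
    exact Finset.mem_image_of_mem _ (Finset.mem_filter.2 ⟨Finset.mem_univ _, hx⟩)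
  have hmem' : ∀ a ∈ D, ∃ x : Fin g ⊕ Fin g, a = Sum.inr x ∧ r x y := by
    intro a ha
    rw [hD, Finset.mem_image] at ha
    obtain ⟨x, hx1, hx⟩ := ha
    exact ⟨x, hx.symm, (Finset.mem_filter.1 hx1).2⟩
  have hyD : i p ∈ D := by rw [hy]; exact hmem y (hr.refl y)
  have htt : ∀ a : Idx (A ⊕ F) g, Sum.map id th (Sum.map id th a) = a := by
    intro a
    rcases a with a | a
    · rfl
    · simp [th_th]
  have hss : ∀ a : Idx (A ⊕ F) g, (Sum.elim (fun _ => (1 : ℝ)) (sg ℝ) a) *
      (Sum.elim (fun _ => (1 : ℝ)) (sg ℝ) a) = 1 := by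
    intro a
    rcases a with a | a
    · simp
    · exact sg_sq a
  have hder : ∀ a ∈ D, ∀ b ∈ D, der (Matrix.single a b (1 : ℝ)) φ =
      (Sum.elim (fun _ => (1 : ℝ)) (sg ℝ) a * Sum.elim (fun _ => (1 : ℝ)) (sg ℝ) b) •
        der (Matrix.single (Sum.map id th b) (Sum.map id th a) (1 : ℝ)) φ := by
    intro a ha b hb
    obtain ⟨x, rfl, hx⟩ := hmem' a ha
    obtain ⟨z, rfl, hz⟩ := hmem' b hb
    exact h1_sp r φ hSp x z (hr.trans hx (hr.symm hz))
  have hzz : ∀ p q : Fin n, p ≠ q → ∀ i : Fin n → Idx (A ⊕ F) g,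
      ∑ a ∈ D, Sum.elim (fun _ => (1 : ℝ)) (sg ℝ) a *
        φ (Function.update (Function.update i p a) q (Sum.map id th a)) = 0 := by
    intro p q hpq i
    rw [hD, Finset.sum_image (fun _ _ _ _ h => hinj h), ← hJ y p q hpq i, Finset.sum_filter]
    apply Finset.sum_congr rfl
    intro c _
    by_cases hc : r c y
    · simp [cl, hc]
    · simp [cl, hc]
  by_cases hyt : r y (th y)
  · have key := hPOS (Idx (A ⊕ F) g) n φ D (Sum.map id th) (Sum.elim (fun _ => 1) (sg ℝ)) (-1)
      (by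
        intro a ha
        obtain ⟨x, rfl, hx⟩ := hmem' a ha
        exact hmem _ (hr.trans (hrt _ _ hx) (hr.symm hyt)))
      htt hss
      (by
        intro a ha
        obtain ⟨x, rfl, _⟩ := hmem' a ha
        show sg ℝ (th x) * sg ℝ x = -1
        rw [sg_th]
        linear_combination (-1 : ℝ) * sg_sq x)
      hder hzz
    have hnn : 0 ≤ ∑ a ∈ D, ∑ b ∈ D, ∑ i : Fin n → Idx (A ⊕ F) g,
        (der (Matrix.single a b (1 : ℝ)) φ i) ^ 2 :=
      Finset.sum_nonneg fun _ _ => Finset.sum_nonneg fun _ _ => Finset.sum_nonneg fun _ _ =>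
        sq_nonneg _
    have hle : ((Finset.univ.filter (fun p => i p ∈ D)).card : ℝ) * (φ i) ^ 2 ≤
        ∑ i : Fin n → Idx (A ⊕ F) g, ((Finset.univ.filter (fun p => i p ∈ D)).card : ℝ) *
          (φ i) ^ 2 :=
      Finset.single_le_sum (f := fun i : Fin n → Idx (A ⊕ F) g =>
        ((Finset.univ.filter (fun p => i p ∈ D)).card : ℝ) * (φ i) ^ 2)
        (fun j _ => by positivity) (Finset.mem_univ i)
    have hc : 1 ≤ (Finset.univ.filter (fun p => i p ∈ D)).card := by
      rw [Nat.one_le_iff_ne_zero, ← Nat.pos_iff_ne_zero, Finset.card_pos]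
      exact ⟨p, by simp [hyD]⟩
    have hc' : (1 : ℝ) ≤ (Finset.univ.filter (fun p => i p ∈ D)).card := by exact_mod_cast hc
    have h0 : (φ i) ^ 2 ≤ 0 := by
      have h2 : 0 ≤ (φ i) ^ 2 := sq_nonneg _
      nlinarith
    exact pow_eq_zero_iff (two_ne_zero) |>.1 (le_antisymm h0 (sq_nonneg _))
  · have key := hPOS2 (Idx (A ⊕ F) g) n φ D (Sum.map id th) (Sum.elim (fun _ => 1) (sg ℝ))
      (by
        intro a ha hna
        obtain ⟨x, rfl, hx⟩ := hmem' a ha
        obtain ⟨z, hz, hz2⟩ := hmem' _ hna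
        have hz3 : th x = z := by simpa using hz
        subst hz3
        exact hyt (hr.symm (hr.trans (hrt _ _ (hr.symm hx)) hz2)))
      htt hss hder hzz
    have h2 := (Finset.sum_eq_zero_iff_of_nonneg (fun a _ => Finset.sum_nonneg fun b _ =>
      Finset.sum_nonneg fun i _ => sq_nonneg _)).1 key (i p) hyD
    have h3 := (Finset.sum_eq_zero_iff_of_nonneg (fun b _ =>
      Finset.sum_nonneg fun i _ => sq_nonneg _)).1 h2 (i p) hyD
    have h4 := (Finset.sum_eq_zero_iff_of_nonneg (fun i _ => sq_nonneg _)).1 h3 i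
      (Finset.mem_univ _)
    have h5 : der (Matrix.single (i p) (i p) (1 : ℝ)) φ i = 0 := pow_eq_zero_iff two_ne_zero |>.1 h4
    have h6 : der (Matrix.single (i p) (i p) (1 : ℝ)) φ i =
        ((Finset.univ.filter (fun q => i q = i p)).card : ℝ) * φ i := by
      rw [der_single, Finset.card_filter, Nat.cast_sum, Finset.sum_mul]
      apply Finset.sum_congr rfl
      intro q _
      by_cases h : i q = i p
      · rw [if_pos h, if_pos h, ← h, Function.update_eq_self]; simp
      · rw [if_neg h, if_neg h]; simp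
    rw [h6] at h5
    rcases mul_eq_zero.1 h5 with h7 | h7
    · exfalso
      have h8 : (Finset.univ.filter (fun q => i q = i p)).card = 0 := by exact_mod_cast h7
      rw [Finset.card_eq_zero] at h8
      have : p ∈ Finset.univ.filter (fun q => i q = i p) := by simp
      rw [h8] at this
      simp at this
    · exact h7

end

end FF1P

theorem stmt_FF1P (hPOS2 : Stmt_POS2) : Stmt_FF1P := by
  have hPOS : Stmt_POS := Pool.Agent.Work.T3.stmt_POS
  intro A F _ _ _ _ g n r hr hrt φ hInv hn hF hA hJ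
  obtain ⟨hO, hSp, hR⟩ := hInv
  obtain ⟨ev, hev⟩ : ∃ ev : A → Idx (A ⊕ F) g, ev = fun a => Sum.inl (Sum.inl a) := ⟨_, rfl⟩
  have hinj : Function.Injective ev := by
    intro a b h
    rw [hev] at h
    simpa using h
  obtain ⟨D, hD⟩ : ∃ D : Finset (Idx (A ⊕ F) g), D = Finset.univ.image ev := ⟨_, rfl⟩
  have hmem : ∀ x : A, ev x ∈ D := by
    intro x; rw [hD]; exact Finset.mem_image_of_mem _ (Finset.mem_univ _)
  have hmem' : ∀ a ∈ D, ∃ x : A, a = ev x := by
    intro a ha
    rw [hD, Finset.mem_image] at ha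
    obtain ⟨x, _, hx⟩ := ha
    exact ⟨x, hx.symm⟩
  have key := hPOS (Idx (A ⊕ F) g) n φ D id (fun _ => 1) 1 (fun a ha => ha) (fun _ => rfl)
    (fun _ => one_mul 1) (fun _ _ => one_mul 1)
    (by
      intro a ha b hb
      obtain ⟨x, rfl⟩ := hmem' a ha
      obtain ⟨y, rfl⟩ := hmem' b hb
      have h := hO x y
      rw [der_sub_left, sub_eq_zero] at h
      rw [hev, one_mul, one_smul]
      exact h)
    (by
      intro p q hpq i
      rw [hD, Finset.sum_image (fun _ _ _ _ h => hinj h), ← hA p q hpq i]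
      apply Finset.sum_congr rfl
      intro c _
      rw [one_mul, hev]
      rfl)
  -- the diagonal terms
  have hdiag : ∀ a ∈ D, ∀ i : Fin n → Idx (A ⊕ F) g, der (Matrix.single a a (1 : ℝ)) φ i =
      ((Finset.univ.filter (fun p => i p = a)).card : ℝ) * φ i := by
    intro a _ i
    rw [der_single, Finset.card_filter, Nat.cast_sum, Finset.sum_mul]
    apply Finset.sum_congr rfl
    intro p _
    by_cases h : i p = a
    · rw [if_pos h, if_pos h, ← h, Function.update_eq_self]; simp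
    · rw [if_neg h, if_neg h]; simp
  have hcard : ∀ i : Fin n → Idx (A ⊕ F) g,
      ((Finset.univ.filter (fun p => i p ∈ D)).card : ℝ) =
      ∑ a ∈ D, ((Finset.univ.filter (fun p => i p = a)).card : ℝ) := by
    intro i
    rw [← Nat.cast_sum]
    congr 1
    rw [Finset.card_eq_sum_card_fiberwise (f := i) (t := D) (fun p hp => by
      simpa using hp)]
    apply Finset.sum_congr rfl
    intro a ha
    congr 1
    ext p
    simp only [Finset.mem_filter, Finset.mem_univ, true_and]
    constructor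
    · rintro ⟨_, h⟩; exact h
    · intro h; exact ⟨h ▸ ha, h⟩
  -- sum of all nonnegative terms is zero
  have hsum : ∑ a ∈ D, ∑ b ∈ D, ∑ i : Fin n → Idx (A ⊕ F) g,
      ((der (Matrix.single a b (1 : ℝ)) φ i) ^ 2 - if a = b then
        ((Finset.univ.filter (fun p => i p = a)).card : ℝ) * (φ i) ^ 2 else 0) = 0 := by
    have e1 : ∑ a ∈ D, ∑ b ∈ D, ∑ i : Fin n → Idx (A ⊕ F) g,
        ((der (Matrix.single a b (1 : ℝ)) φ i) ^ 2 - if a = b then
          ((Finset.univ.filter (fun p => i p = a)).card : ℝ) * (φ i) ^ 2 else 0) =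
        ∑ a ∈ D, ∑ b ∈ D, ∑ i : Fin n → Idx (A ⊕ F) g,
          (der (Matrix.single a b (1 : ℝ)) φ i) ^ 2 -
        ∑ a ∈ D, ∑ b ∈ D, ∑ i : Fin n → Idx (A ⊕ F) g, (if a = b then
          ((Finset.univ.filter (fun p => i p = a)).card : ℝ) * (φ i) ^ 2 else 0) := by
      simp only [Finset.sum_sub_distrib]
    have e2 : ∑ a ∈ D, ∑ b ∈ D, ∑ i : Fin n → Idx (A ⊕ F) g, (if a = b then
          ((Finset.univ.filter (fun p => i p = a)).card : ℝ) * (φ i) ^ 2 else 0) =
        ∑ i : Fin n → Idx (A ⊕ F) g, ((Finset.univ.filter (fun p => i p ∈ D)).card : ℝ) *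
        (φ i) ^ 2 := by
      have : ∀ a ∈ D, ∑ b ∈ D, ∑ i : Fin n → Idx (A ⊕ F) g, (if a = b then
          ((Finset.univ.filter (fun p => i p = a)).card : ℝ) * (φ i) ^ 2 else 0) =
          ∑ i : Fin n → Idx (A ⊕ F) g,
            ((Finset.univ.filter (fun p => i p = a)).card : ℝ) * (φ i) ^ 2 := by
        intro a ha
        rw [Finset.sum_eq_single_of_mem a ha]
        · simp
        · intro b _ hb
          apply Finset.sum_eq_zero
          intro i _
          rw [if_neg (Ne.symm hb)]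
      rw [Finset.sum_congr rfl this, Finset.sum_comm]
      apply Finset.sum_congr rfl
      intro i _
      rw [hcard i, Finset.sum_mul]
    rw [e1, e2, key, one_mul, sub_self]
  have hnn : ∀ a ∈ D, ∀ b ∈ D, ∀ i : Fin n → Idx (A ⊕ F) g,
      0 ≤ (der (Matrix.single a b (1 : ℝ)) φ i) ^ 2 - if a = b then
        ((Finset.univ.filter (fun p => i p = a)).card : ℝ) * (φ i) ^ 2 else 0 := by
    intro a ha b _ i
    by_cases h : a = b
    · subst h
      rw [if_pos rfl, hdiag a ha i]
      have h2 : (((Finset.univ.filter (fun p => i p = a)).card : ℝ) * φ i) ^ 2 -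
          ((Finset.univ.filter (fun p => i p = a)).card : ℝ) * (φ i) ^ 2 =
          (((Finset.univ.filter (fun p => i p = a)).card : ℝ) *
            (((Finset.univ.filter (fun p => i p = a)).card : ℝ) - 1)) * (φ i) ^ 2 := by ring
      rw [h2]
      apply mul_nonneg _ (sq_nonneg _)
      rcases Nat.eq_zero_or_pos (Finset.univ.filter (fun p => i p = a)).card with h3 | h3
      · rw [h3]; simp
      · have h4 : (1 : ℝ) ≤ ((Finset.univ.filter (fun p => i p = a)).card : ℝ) := by
          exact_mod_cast h3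
        exact mul_nonneg (by linarith) (by linarith)
    · rw [if_neg h, sub_zero]
      exact sq_nonneg _
  have hz : ∀ a ∈ D, ∀ b ∈ D, ∀ i : Fin n → Idx (A ⊕ F) g,
      (der (Matrix.single a b (1 : ℝ)) φ i) ^ 2 - (if a = b then
        ((Finset.univ.filter (fun p => i p = a)).card : ℝ) * (φ i) ^ 2 else 0) = 0 := by
    intro a ha b hb i
    have h1 := (Finset.sum_eq_zero_iff_of_nonneg (fun a ha => Finset.sum_nonneg fun b hb =>
      Finset.sum_nonneg fun i _ => hnn a ha b hb i)).1 hsum a ha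
    have h2 := (Finset.sum_eq_zero_iff_of_nonneg (fun b hb =>
      Finset.sum_nonneg fun i _ => hnn a ha b hb i)).1 h1 b hb
    exact (Finset.sum_eq_zero_iff_of_nonneg (fun i _ => hnn a ha b hb i)).1 h2 i
      (Finset.mem_univ _)
  funext i
  by_contra hne
  have hne' : φ i ≠ 0 := hne
  -- all indices are in `A`
  have hall : ∀ p : Fin n, ∃ a : A, i p = ev a := by
    intro p
    rw [hev]
    rcases h : i p with x | x
    · rcases x with a | f
      · exact ⟨a, rfl⟩
      · exact absurd (hF i ⟨p, f, h⟩) hne'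
    · exact absurd (FF1P.symp_zero hPOS hPOS2 r hr hrt φ hSp hJ i p x h) hne'
  obtain ⟨a, ha⟩ := hall ⟨0, hn⟩
  obtain ⟨a0, ha0⟩ := hR ⟨a⟩
  -- the multiplicity of `a0` is zero
  have hm0 : (Finset.univ.filter (fun p => i p = ev a0)).card = 0 := by
    have h1 := congrFun ha0 i
    rw [act_diagonal] at h1
    have h2 : (∏ p, (if i p = Sum.inl (Sum.inl a0) then (-1 : ℝ) else 1)) =
        (-1) ^ (Finset.univ.filter (fun p => i p = ev a0)).card := by
      rw [Finset.prod_ite, Finset.prod_const, Finset.prod_const_one, mul_one, hev]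
    rw [h2] at h1
    have h3 : ((-1 : ℝ)) ^ (Finset.univ.filter (fun p => i p = ev a0)).card = 1 :=
      mul_right_cancel₀ hne' (by rw [h1, one_mul])
    have h4 := hz (ev a0) (hmem a0) (ev a0) (hmem a0) i
    rw [if_pos rfl, hdiag _ (hmem a0)] at h4
    have h5 : (((Finset.univ.filter (fun p => i p = ev a0)).card : ℝ) *
        (((Finset.univ.filter (fun p => i p = ev a0)).card : ℝ) - 1)) * (φ i) ^ 2 = 0 := by
      rw [← h4]; ring
    rcases mul_eq_zero.1 h5 with h6 | h6
    · rcases mul_eq_zero.1 h6 with h7 | h7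
      · exact_mod_cast h7
      · have h8 : (Finset.univ.filter (fun p => i p = ev a0)).card = 1 := by
          have : ((Finset.univ.filter (fun p => i p = ev a0)).card : ℝ) = 1 := by linarith
          exact_mod_cast this
        rw [h8] at h3
        norm_num at h3
    · exact absurd (pow_eq_zero_iff two_ne_zero |>.1 h6) hne'
  have hna : ∀ p, i p ≠ ev a0 := by
    intro p hp
    have : p ∈ Finset.univ.filter (fun p => i p = ev a0) := by simp [hp]
    rw [Finset.card_eq_zero.1 hm0] at this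
    simp at this
  have hab : ev a0 ≠ ev a := fun h => hna ⟨0, hn⟩ (ha.trans h.symm)
  have h9 := hz (ev a0) (hmem a0) (ev a) (hmem a) (Function.update i ⟨0, hn⟩ (ev a0))
  rw [if_neg hab, sub_zero, der_single, Finset.sum_eq_single ⟨0, hn⟩] at h9
  · rw [Function.update_self, if_pos rfl, Function.update_idem, ← ha,
      Function.update_eq_self] at h9
    exact hne' (pow_eq_zero_iff two_ne_zero |>.1 h9)
  · intro p _ hp
    rw [Function.update_of_ne hp, if_neg (hna p)]
  · intro h; exact absurd (Finset.mem_univ _) h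

end Pool.Agent.Work.T8
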