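import Pool.Agent.Work.MP_298761_T8.Interface
import Pool.Agent.Work.MP_298761_T3.CTR
import Pool.Agent.Work.MP_298761_T3.FF1
import Pool.Agent.Work.MP_298761_T3.FF2

/-! T8, block FF2P (helper74): invariants orthogonal to all decomposable tensors vanish. -/

namespace Pool.Agent.Work.T8

open Matrix Pool.Agent.Work.T3

namespace FF2P

section
variable {A F : Type} [Fintype A] [Fintype F] [DecidableEq A] [DecidableEq F] {g : ℕ}

theorem rv_sp (a b : Fin g ⊕ Fin g) :
    (rv ℝ a b)ᵀ * Matrix.J (Fin g) ℝ + Matrix.J (Fin g) ℝ * rv ℝ a b = 0 := by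
  have h := T3.FF1.inSp a b
  have e : T3.FF1.sg a * T3.FF1.sg b = sg ℝ a * sg ℝ b := by
    rcases a with a | a <;> rcases b with b | b <;> simp [T3.FF1.sg, sg]
  rw [e] at h
  exact h

theorem J_eq (a b : Fin g ⊕ Fin g) :
    Matrix.J (Fin g) ℝ a b = if b = th a then sg ℝ a else 0 := by
  rcases a with a | a <;> rcases b with b | b <;>
    simp [Matrix.J, sg, th, Matrix.one_apply, eq_comm]
  split_ifs <;> simp

theorem single_diag (a b : Fin g ⊕ Fin g) (d : Fin g ⊕ Fin g → ℝ) :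
    Matrix.single a b (1 : ℝ) * Matrix.diagonal d = d b • Matrix.single a b (1 : ℝ) := by
  ext x y
  rw [Matrix.mul_diagonal, Matrix.smul_apply, Matrix.single_apply, smul_eq_mul]
  by_cases h : a = x ∧ b = y
  · rw [if_pos h, h.2]; ring
  · rw [if_neg h]; ring

theorem diag_single (a b : Fin g ⊕ Fin g) (d : Fin g ⊕ Fin g → ℝ) :
    Matrix.diagonal d * Matrix.single a b (1 : ℝ) = d a • Matrix.single a b (1 : ℝ) := by
  ext x y
  rw [Matrix.diagonal_mul, Matrix.smul_apply, Matrix.single_apply, smul_eq_mul]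
  by_cases h : a = x ∧ b = y
  · rw [if_pos h, h.1]
  · rw [if_neg h]; ring

theorem cl_congr {r : Fin g ⊕ Fin g → Fin g ⊕ Fin g → Prop} (hr : Equivalence r)
    {a b : Fin g ⊕ Fin g} (hab : r a b) (c : Fin g ⊕ Fin g) : cl ℝ r c a = cl ℝ r c b := by
  have e : r a c ↔ r b c := ⟨fun h => hr.trans (hr.symm hab) h, fun h => hr.trans hab h⟩
  unfold cl
  by_cases h : r a c
  · rw [if_pos h, if_pos (e.1 h)]
  · rw [if_neg h, if_neg (fun h' => h (e.2 h'))]

theorem comm_cl {r : Fin g ⊕ Fin g → Fin g ⊕ Fin g → Prop} (hr : Equivalence r)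
    (hth : ∀ a b, r a b → r (th a) (th b)) {a b : Fin g ⊕ Fin g} (hab : r a b)
    (c : Fin g ⊕ Fin g) :
    (rv ℝ a b)ᵀ * Matrix.diagonal (cl ℝ r c) = Matrix.diagonal (cl ℝ r c) * (rv ℝ a b)ᵀ := by
  unfold rv
  rw [Matrix.transpose_sub, Matrix.transpose_smul, Matrix.transpose_single,
    Matrix.transpose_single, Matrix.sub_mul, Matrix.mul_sub, Matrix.smul_mul, Matrix.mul_smul,
    single_diag, single_diag, diag_single, diag_single, cl_congr hr hab c,
    cl_congr hr (hth _ _ hab) c]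

theorem rv_cl {r : Fin g ⊕ Fin g → Fin g ⊕ Fin g → Prop} (hr : Equivalence r)
    (hth : ∀ a b, r a b → r (th a) (th b)) {a b : Fin g ⊕ Fin g} (hab : r a b)
    (c : Fin g ⊕ Fin g) :
    (rv ℝ a b)ᵀ * (Matrix.diagonal (cl ℝ r c) * Matrix.J (Fin g) ℝ) +
      (Matrix.diagonal (cl ℝ r c) * Matrix.J (Fin g) ℝ) * rv ℝ a b = 0 := by
  rw [← Matrix.mul_assoc, comm_cl hr hth hab c, Matrix.mul_assoc, Matrix.mul_assoc,
    ← Matrix.mul_add, rv_sp, Matrix.mul_zero]

theorem inv_sl {n : ℕ} {r : Fin g ⊕ Fin g → Fin g ⊕ Fin g → Prop} (p : Fin (n + 1)) (f : F)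
    {φ : Tens ℝ (Idx (A ⊕ F) g) (n + 1)} (h : InvP r φ) :
    InvP r (sl p (Sum.inl (Sum.inr f)) φ) := by
  obtain ⟨c1, c2, -, -, -, -⟩ := stmt_CTR ℝ (Idx (A ⊕ F) g) n
  refine ⟨fun a b => ?_, fun a b hab => ?_, fun hA => ?_⟩
  · have h1 := c1 (Matrix.single (Sum.inl (Sum.inl a)) (Sum.inl (Sum.inl b)) (1 : ℝ) -
      Matrix.single (Sum.inl (Sum.inl b)) (Sum.inl (Sum.inl a)) (1 : ℝ)) p
      (Sum.inl (Sum.inr f)) φ
    rw [h.1 a b] at h1
    have h2 : ∑ l, (Matrix.single (Sum.inl (Sum.inl a)) (Sum.inl (Sum.inl b)) (1 : ℝ) -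
        Matrix.single (Sum.inl (Sum.inl b)) (Sum.inl (Sum.inl a)) (1 : ℝ) :
        Matrix (Idx (A ⊕ F) g) (Idx (A ⊕ F) g) ℝ)
        (Sum.inl (Sum.inr f)) l • sl p l φ = 0 := by
      refine Finset.sum_eq_zero fun l _ => ?_
      rw [Matrix.sub_apply, Matrix.single_apply_of_ne _ _ _ _ _ (by simp),
        Matrix.single_apply_of_ne _ _ _ _ _ (by simp), sub_zero, zero_smul]
    rw [h2, add_zero] at h1
    rw [← h1]
    rfl
  · have h1 := c1 (emb (A ⊕ F) (rv ℝ a b)) p (Sum.inl (Sum.inr f)) φ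
    rw [h.2.1 a b hab] at h1
    have h2 : ∑ l, (emb (A ⊕ F) (rv ℝ a b) : Matrix (Idx (A ⊕ F) g) (Idx (A ⊕ F) g) ℝ)
        (Sum.inl (Sum.inr f)) l • sl p l φ = 0 := by
      refine Finset.sum_eq_zero fun l _ => ?_
      rcases l with l | l
      · rw [emb, fromBlocks_apply₁₁, Matrix.zero_apply, zero_smul]
      · rw [emb, fromBlocks_apply₁₂, Matrix.zero_apply, zero_smul]
    rw [h2, add_zero] at h1
    rw [← h1]
    rfl
  · obtain ⟨a, ha⟩ := h.2.2 hA
    refine ⟨a, ?_⟩
    have h1 := c2 (fun k : Idx (A ⊕ F) g => if k = Sum.inl (Sum.inl a) then (-1 : ℝ) else 1) p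
      (Sum.inl (Sum.inr f)) φ
    rw [ha] at h1
    have h2 : (if (Sum.inl (Sum.inr f) : Idx (A ⊕ F) g) = Sum.inl (Sum.inl a)
      then (-1 : ℝ) else 1) = 1 := by
      rw [if_neg]
      simp
    rw [h2, one_smul] at h1
    exact h1.symm

theorem inv_ctr {n : ℕ} {r : Fin g ⊕ Fin g → Fin g ⊕ Fin g → Prop}
    (b : Matrix (Idx (A ⊕ F) g) (Idx (A ⊕ F) g) ℝ)
    (p : Fin (n + 2)) (q : Fin (n + 1))
    (hb1 : ∀ a c : A, (Matrix.single (Sum.inl (Sum.inl a)) (Sum.inl (Sum.inl c)) (1 : ℝ) -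
        Matrix.single (Sum.inl (Sum.inl c)) (Sum.inl (Sum.inl a)) (1 : ℝ) :
        Matrix (Idx (A ⊕ F) g) (Idx (A ⊕ F) g) ℝ)ᵀ * b + b *
        (Matrix.single (Sum.inl (Sum.inl a)) (Sum.inl (Sum.inl c)) (1 : ℝ) -
        Matrix.single (Sum.inl (Sum.inl c)) (Sum.inl (Sum.inl a)) (1 : ℝ)) = 0)
    (hb2 : ∀ x y : Fin g ⊕ Fin g, r x y →
      (emb (A ⊕ F) (rv ℝ x y))ᵀ * b + b * emb (A ⊕ F) (rv ℝ x y) = 0)
    (hb3 : ∀ (a : A) (k l : Idx (A ⊕ F) g),
      (if k = Sum.inl (Sum.inl a) then (-1 : ℝ) else 1) * b k l *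
        (if l = Sum.inl (Sum.inl a) then (-1 : ℝ) else 1) = b k l)
    {φ : Tens ℝ (Idx (A ⊕ F) g) (n + 2)} (h : InvP r φ) : InvP r (ctr b p q φ) := by
  obtain ⟨-, -, c3, c4, -, -⟩ := stmt_CTR ℝ (Idx (A ⊕ F) g) n
  have h0 : ctr b p q (0 : Tens ℝ (Idx (A ⊕ F) g) (n + 2)) = 0 := by
    funext j
    simp [ctr]
  refine ⟨fun a c => ?_, fun x y hxy => ?_, fun hA => ?_⟩
  · rw [← c3 _ b p q φ (hb1 a c), h.1 a c, h0]
  · rw [← c3 _ b p q φ (hb2 x y hxy), h.2.1 x y hxy, h0]
  · obtain ⟨a, ha⟩ := h.2.2 hA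
    refine ⟨a, ?_⟩
    rw [← c4 _ b p q φ (hb3 a), ha]

omit [Fintype A] [Fintype F] in
theorem singleA (a c : A) :
    (Matrix.single (Sum.inl (Sum.inl a)) (Sum.inl (Sum.inl c)) (1 : ℝ) -
        Matrix.single (Sum.inl (Sum.inl c)) (Sum.inl (Sum.inl a)) (1 : ℝ) :
        Matrix (Idx (A ⊕ F) g) (Idx (A ⊕ F) g) ℝ) =
        fromBlocks (fromBlocks (Matrix.single a c 1 - Matrix.single c a 1) 0 0 0) 0 0 0 := by
  ext i j
  rcases i with (i | i) | i <;> rcases j with (j | j) | j <;>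
    simp [Matrix.single_apply]

theorem inv_ctrA {n : ℕ} {r : Fin g ⊕ Fin g → Fin g ⊕ Fin g → Prop} (p : Fin (n + 2))
    (q : Fin (n + 1))
    {φ : Tens ℝ (Idx (A ⊕ F) g) (n + 2)} (h : InvP r φ) :
    InvP r (ctr (T3.FF2.bA A F g) p q φ) := by
  refine inv_ctr (T3.FF2.bA A F g) p q ?_ ?_ ?_ h
  · intro a c
    rw [singleA, fromBlocks_transpose, fromBlocks_multiply, fromBlocks_multiply,
      fromBlocks_transpose, fromBlocks_multiply, fromBlocks_multiply]
    simp only [Matrix.transpose_zero, Matrix.transpose_sub, Matrix.transpose_single,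
      Matrix.mul_one, Matrix.one_mul, Matrix.mul_zero, Matrix.zero_mul, add_zero,
      fromBlocks_add]
    rw [show Matrix.single c a (1 : ℝ) - Matrix.single a c 1 +
      (Matrix.single a c 1 - Matrix.single c a 1) = 0 by abel]
    simp only [fromBlocks_zero]
  · intro x y _
    rw [emb, fromBlocks_transpose, fromBlocks_multiply, fromBlocks_multiply]
    simp only [Matrix.transpose_zero, Matrix.mul_zero, Matrix.zero_mul, add_zero,
      fromBlocks_add, fromBlocks_zero]
  · intro a k l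
    rcases k with (k | k) | k <;> rcases l with (l | l) | l <;>
      simp [Matrix.one_apply]
    by_cases hkl : k = l
    · subst hkl
      by_cases hka : k = a
      · simp [hka]
      · simp [hka]
    · simp [hkl]

theorem inv_ctrJ {n : ℕ} {r : Fin g ⊕ Fin g → Fin g ⊕ Fin g → Prop} (hr : Equivalence r)
    (hth : ∀ a b, r a b → r (th a) (th b)) (c : Fin g ⊕ Fin g) (p : Fin (n + 2))
    (q : Fin (n + 1)) {φ : Tens ℝ (Idx (A ⊕ F) g) (n + 2)} (h : InvP r φ) :
    InvP r (ctr (emb (A ⊕ F) (Matrix.diagonal (cl ℝ r c) * Matrix.J (Fin g) ℝ)) p q φ) := by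
  refine inv_ctr _ p q ?_ ?_ ?_ h
  · intro a c'
    rw [singleA, emb, fromBlocks_transpose, fromBlocks_multiply, fromBlocks_multiply]
    simp only [Matrix.transpose_zero, Matrix.mul_zero, Matrix.zero_mul, add_zero,
      fromBlocks_add, fromBlocks_zero]
  · intro x y hxy
    rw [emb, emb, fromBlocks_transpose, fromBlocks_multiply, fromBlocks_multiply]
    simp only [Matrix.transpose_zero, Matrix.mul_zero, Matrix.zero_mul, add_zero, zero_add,
      fromBlocks_add]
    rw [rv_cl hr hth hxy c, fromBlocks_zero]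
  · intro a k l
    rcases k with (k | k) | k <;> rcases l with (l | l) | l <;> simp [emb]

end

end FF2P

theorem stmt_FF2P (hF : Stmt_FF1P) : Stmt_FF2P := by
  intro A F _ _ _ _ g n r hr hth
  induction n using Nat.strong_induction_on with
  | _ n ih =>
    intro φ hI hO
    rcases Nat.eq_zero_or_pos n with h0 | hpos
    · subst h0
      have h1 := hO _ Dec.one
      rw [Fintype.sum_unique] at h1
      funext i
      rw [Subsingleton.elim i default]
      simpa using h1
    · have hm : ∀ p q : Fin n, p ≠ q → ∃ m, n = m + 2 := by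
        intro p q hpq
        refine ⟨n - 2, ?_⟩
        have := p.2
        have := q.2
        have : (p : ℕ) ≠ q := fun h => hpq (Fin.ext h)
        omega
      refine hF A F g n r hr hth φ hI hpos ?_ ?_ ?_
      · rintro i ⟨p, f, hp⟩
        obtain ⟨m, rfl⟩ : ∃ m, n = m + 1 := ⟨n - 1, by omega⟩
        obtain ⟨-, -, -, -, c5, -⟩ := stmt_CTR ℝ (Idx (A ⊕ F) g) m
        have h1 : sl p (Sum.inl (Sum.inr f)) φ = 0 := by
          refine ih m (by omega) _ (FF2P.inv_sl p f hI) fun ψ hψ => ?_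
          rw [c5]
          have hmem : (Pi.single (Sum.inl (Sum.inr f)) 1 : Idx (A ⊕ F) g → ℝ) ∈ NF A F ℝ g :=
            ⟨f, rfl⟩
          exact hO _ (Dec.vec hmem p hψ)
        have h2 := congrFun h1 (p.removeNth i)
        simp only [sl, Pi.zero_apply] at h2
        rw [← hp, Fin.insertNth_self_removeNth] at h2
        exact h2
      · intro p q hpq i
        obtain ⟨m, rfl⟩ := hm p q hpq
        obtain ⟨-, -, -, -, -, c6⟩ := stmt_CTR ℝ (Idx (A ⊕ F) g) m
        obtain ⟨q', rfl⟩ := Fin.exists_succAbove_eq hpq.symm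
        have h1 : ctr (T3.FF2.bA A F g) p q' φ = 0 := by
          refine ih m (by omega) _ (FF2P.inv_ctrA p q' hI) fun ψ hψ => ?_
          rw [c6]
          have hmem : T3.FF2.bA A F g ∈ NPP A F ℝ g r := Or.inl rfl
          exact hO _ (Dec.pair hmem p q' hψ)
        have h2 := congrFun h1 (q'.removeNth (p.removeNth i))
        simp only [ctr, Pi.zero_apply, T3.FF2.ins_upd] at h2
        simp only [Fintype.sum_sum_type, fromBlocks_apply₁₁, fromBlocks_apply₁₂,
          fromBlocks_apply₂₁, fromBlocks_apply₂₂, Matrix.zero_apply, zero_mul,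
          Finset.sum_const_zero, add_zero, Matrix.one_apply, ite_mul, one_mul] at h2
        simp only [Finset.sum_ite_eq, Finset.mem_univ, if_true] at h2
        exact h2
      · intro c p q hpq i
        obtain ⟨m, rfl⟩ := hm p q hpq
        obtain ⟨-, -, -, -, -, c6⟩ := stmt_CTR ℝ (Idx (A ⊕ F) g) m
        obtain ⟨q', rfl⟩ := Fin.exists_succAbove_eq hpq.symm
        have h1 : ctr (emb (A ⊕ F) (Matrix.diagonal (cl ℝ r c) * Matrix.J (Fin g) ℝ))
            p q' φ = 0 := by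
          refine ih m (by omega) _ (FF2P.inv_ctrJ hr hth c p q' hI) fun ψ hψ => ?_
          rw [c6]
          have hmem : emb (A ⊕ F) (Matrix.diagonal (cl ℝ r c) * Matrix.J (Fin g) ℝ) ∈
            NPP A F ℝ g r := Or.inr ⟨c, rfl⟩
          exact hO _ (Dec.pair hmem p q' hψ)
        have h2 := congrFun h1 (q'.removeNth (p.removeNth i))
        simp only [ctr, Pi.zero_apply, T3.FF2.ins_upd] at h2
        rw [Fintype.sum_sum_type] at h2
        have h3 : ∑ x : A ⊕ F, ∑ l : Idx (A ⊕ F) g,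
            emb (A ⊕ F) (Matrix.diagonal (cl ℝ r c) * Matrix.J (Fin g) ℝ) (Sum.inl x) l *
            φ (Function.update (Function.update i p (Sum.inl x)) (p.succAbove q') l) = 0 := by
          refine Finset.sum_eq_zero fun x _ => Finset.sum_eq_zero fun l _ => ?_
          rcases l with l | l
          · rw [emb, fromBlocks_apply₁₁, Matrix.zero_apply, zero_mul]
          · rw [emb, fromBlocks_apply₁₂, Matrix.zero_apply, zero_mul]
        rw [h3, zero_add] at h2
        rw [← h2]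
        refine Finset.sum_congr rfl fun a _ => ?_
        rw [Fintype.sum_sum_type]
        have h4 : ∑ x : A ⊕ F,
            emb (A ⊕ F) (Matrix.diagonal (cl ℝ r c) * Matrix.J (Fin g) ℝ) (Sum.inr a)
              (Sum.inl x) *
            φ (Function.update (Function.update i p (Sum.inr a)) (p.succAbove q')
              (Sum.inl x)) = 0 := by
          refine Finset.sum_eq_zero fun x _ => ?_
          rw [emb, fromBlocks_apply₂₁, Matrix.zero_apply, zero_mul]
        rw [h4, zero_add, Finset.sum_eq_single (th a)]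
        · rw [emb, fromBlocks_apply₂₂, Matrix.diagonal_mul, FF2P.J_eq, if_pos rfl]
          ring
        · intro b _ hb
          rw [emb, fromBlocks_apply₂₂, Matrix.diagonal_mul, FF2P.J_eq, if_neg hb]
          ring
        · intro hn
          exact absurd (Finset.mem_univ _) hn

end Pool.Agent.Work.T8
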