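import Pool.Agent.Work.MP_298761_T8.Interface
import Pool.Agent.Work.MP_298761_T3.FFT

/-! T8, block FFTP: the first fundamental theorem over `ℝ` from FF2P and INV (helper58). -/

namespace Pool.Agent.Work.T8

open Matrix Pool.Agent.Work.T3

namespace FFTP

variable {A F : Type} [Fintype A] [Fintype F] [DecidableEq A] [DecidableEq F] {g n : ℕ}

theorem J_apply_th (c j : Fin g ⊕ Fin g) :
    Matrix.J (Fin g) ℝ c j = if j = th c then sg ℝ c else 0 := by
  rcases c with c | c <;> rcases j with j | j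
  · simp [Matrix.J, th, sg]
  · by_cases h : c = j
    · subst h; simp [Matrix.J, th, sg]
    · simp [Matrix.J, th, sg, Matrix.one_apply, h, Ne.symm h]
  · by_cases h : c = j
    · subst h; simp [Matrix.J, th, sg]
    · simp [Matrix.J, th, sg, Matrix.one_apply, h, Ne.symm h]
  · simp [Matrix.J, th, sg]

theorem th_th (a : Fin g ⊕ Fin g) : th (th a) = a := by
  rcases a with a | a <;> rfl

theorem sg_th (a : Fin g ⊕ Fin g) : sg ℝ (th a) = -sg ℝ a := by
  rcases a with a | a <;> simp [th, sg]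

theorem sg_sq (a : Fin g ⊕ Fin g) : sg ℝ a * sg ℝ a = 1 := by
  rcases a with a | a <;> simp [sg]

theorem single_mul_J (a b : Fin g ⊕ Fin g) :
    Matrix.single a b (1 : ℝ) * Matrix.J (Fin g) ℝ = sg ℝ b • Matrix.single a (th b) 1 := by
  ext i j
  rw [Matrix.smul_apply, smul_eq_mul, Matrix.mul_apply]
  by_cases hi : a = i
  · subst hi
    rw [Finset.sum_eq_single b]
    · rw [Matrix.single_apply_same, one_mul, J_apply_th]
      by_cases hj : j = th b
      · subst hj; simp
      · rw [if_neg hj, Matrix.single_apply_of_col_ne _ _ (Ne.symm hj), mul_zero]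
    · intro k _ hk
      rw [Matrix.single_apply_of_col_ne _ _ (Ne.symm hk), zero_mul]
    · intro h; exact absurd (Finset.mem_univ _) h
  · rw [Matrix.single_apply_of_row_ne hi, mul_zero]
    apply Finset.sum_eq_zero
    intro k _
    rw [Matrix.single_apply_of_row_ne hi, zero_mul]

theorem rv_mul_J (a b : Fin g ⊕ Fin g) :
    rv ℝ a b * Matrix.J (Fin g) ℝ + Matrix.J (Fin g) ℝ * (rv ℝ a b)ᵀ = 0 := by
  have h1 : rv ℝ a b * Matrix.J (Fin g) ℝ =
      sg ℝ b • (Matrix.single a (th b) 1 + Matrix.single (th b) a 1) := by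
    unfold rv
    rw [Matrix.sub_mul, Matrix.smul_mul, single_mul_J, single_mul_J, th_th, sg_th, smul_smul,
      smul_add]
    have h2 : sg ℝ a * sg ℝ b * -sg ℝ a = -sg ℝ b := by
      have := sg_sq a
      linear_combination (-sg ℝ b) * this
    rw [h2, neg_smul, sub_neg_eq_add]
  have h3 : Matrix.J (Fin g) ℝ * (rv ℝ a b)ᵀ = -(rv ℝ a b * Matrix.J (Fin g) ℝ)ᵀ := by
    rw [Matrix.transpose_mul, Matrix.J_transpose, Matrix.neg_mul, neg_neg]
  rw [h3, h1, Matrix.transpose_smul, Matrix.transpose_add, Matrix.transpose_single,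
    Matrix.transpose_single, add_comm (Matrix.single (th b) a (1:ℝ)), ← sub_eq_add_neg, sub_self]

theorem cl_eq {r : Fin g ⊕ Fin g → Fin g ⊕ Fin g → Prop} (hr : Equivalence r) (c : Fin g ⊕ Fin g)
    {a b : Fin g ⊕ Fin g} (h : r a b) : cl ℝ r c a = cl ℝ r c b := by
  unfold cl
  by_cases h1 : r a c
  · have h2 : r b c := hr.trans (hr.symm h) h1
    simp [h1, h2]
  · have h2 : ¬ r b c := fun h2 => h1 (hr.trans h h2)
    simp [h1, h2]

theorem rv_comm {r : Fin g ⊕ Fin g → Fin g ⊕ Fin g → Prop} (hr : Equivalence r)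
    (hth : ∀ a b, r a b → r (th a) (th b)) (c a b : Fin g ⊕ Fin g) (h : r a b) :
    rv ℝ a b * Matrix.diagonal (cl ℝ r c) = Matrix.diagonal (cl ℝ r c) * rv ℝ a b := by
  have hs : ∀ a b : Fin g ⊕ Fin g, r a b → Matrix.single a b (1:ℝ) * Matrix.diagonal (cl ℝ r c) =
      Matrix.diagonal (cl ℝ r c) * Matrix.single a b (1:ℝ) := by
    intro a b hab
    ext i j
    rw [Matrix.mul_diagonal, Matrix.diagonal_mul]
    by_cases hi : a = i
    · by_cases hj : b = j
      · subst hi; subst hj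
        rw [cl_eq hr c hab]
        ring
      · rw [Matrix.single_apply_of_col_ne _ _ hj]
        ring
    · rw [Matrix.single_apply_of_row_ne hi]
      ring
  unfold rv
  rw [Matrix.sub_mul, Matrix.mul_sub, hs a b h, Matrix.smul_mul, Matrix.mul_smul,
    hs (th b) (th a) (hr.symm (hth a b h))]

theorem inv_of_decP (hINV : Stmt_INV) (r : Fin g ⊕ Fin g → Fin g ⊕ Fin g → Prop)
    (hr : Equivalence r) (hth : ∀ a b, r a b → r (th a) (th b))
    (β : Tens ℝ (Idx (A ⊕ F) g) n)
    (hβ : Dec (NF A F ℝ g) (NPP A F ℝ g r) n β) :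
    (∀ a b : A, der (Matrix.single (Sum.inl (Sum.inl a)) (Sum.inl (Sum.inl b)) (1 : ℝ) -
      Matrix.single (Sum.inl (Sum.inl b)) (Sum.inl (Sum.inl a)) (1 : ℝ)) β = 0) ∧
    (∀ a b : Fin g ⊕ Fin g, r a b → der (emb (A ⊕ F) (rv ℝ a b)) β = 0) ∧
    (∀ a : A, act (Matrix.diagonal
      (fun k : Idx (A ⊕ F) g => if k = Sum.inl (Sum.inl a) then (-1 : ℝ) else 1)) β = β) := by
  obtain ⟨h1, h2⟩ := hINV ℝ ℝ (Idx (A ⊕ F) g) (RingHom.id ℝ) _ _ n β hβ
  have hβ' : (fun i => (RingHom.id ℝ) (β i)) = β := rfl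
  simp only [hβ'] at h1 h2
  refine ⟨fun a b => h2 _ ?_ ?_, fun a b hab => h2 _ ?_ ?_, fun a => h1 _ ?_ ?_⟩
  · rintro v ⟨f, rfl⟩
    funext k
    simp only [RingHom.id_apply, sub_mulVec, Pi.sub_apply, Pi.zero_apply]
    rw [show (fun i => (Pi.single (Sum.inl (Sum.inr f)) (1:ℝ) : Idx (A ⊕ F) g → ℝ) i)
      = Pi.single (Sum.inl (Sum.inr f)) (1:ℝ) from rfl]
    rw [mulVec_single_one, mulVec_single_one]
    simp [Matrix.col_apply, Matrix.single_apply]
  · intro b' hb'
    rw [FFT.map_id_mat]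
    have hs : ∀ a b : A, (Matrix.single (Sum.inl (Sum.inl a)) (Sum.inl (Sum.inl b)) (1 : ℝ) :
        Matrix (Idx (A ⊕ F) g) (Idx (A ⊕ F) g) ℝ) =
        fromBlocks (fromBlocks (Matrix.single a b 1) 0 0 0) 0 0 0 := by
      intro a b
      ext i j
      rcases i with (i | i) | i <;> rcases j with (j | j) | j <;>
        simp [Matrix.single_apply]
    rcases hb' with rfl | ⟨c, rfl⟩
    · rw [hs, hs]
      simp [sub_eq_add_neg, fromBlocks_neg, fromBlocks_transpose, fromBlocks_multiply,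
        fromBlocks_add, Matrix.add_mul, Matrix.mul_add]
    · rw [hs, hs]
      simp [emb, sub_eq_add_neg, fromBlocks_neg, fromBlocks_transpose, fromBlocks_multiply,
        fromBlocks_add, Matrix.add_mul, Matrix.mul_add]
  · rintro v ⟨f, rfl⟩
    rw [show (fun i => (RingHom.id ℝ) ((Pi.single (Sum.inl (Sum.inr f)) (1:ℝ) :
      Idx (A ⊕ F) g → ℝ) i)) = Pi.single (Sum.inl (Sum.inr f)) (1:ℝ) from rfl]
    rw [mulVec_single_one]
    funext k
    rcases k with k | k <;> simp [Matrix.col_apply, emb]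
  · intro b' hb'
    rw [FFT.map_id_mat]
    rcases hb' with rfl | ⟨c, rfl⟩
    · simp [emb, fromBlocks_transpose, fromBlocks_multiply, fromBlocks_add]
    · have h3 : rv ℝ a b * (Matrix.diagonal (cl ℝ r c) * Matrix.J (Fin g) ℝ) +
          Matrix.diagonal (cl ℝ r c) * Matrix.J (Fin g) ℝ * (rv ℝ a b)ᵀ = 0 := by
        rw [← Matrix.mul_assoc, rv_comm hr hth c a b hab, Matrix.mul_assoc, Matrix.mul_assoc,
          ← Matrix.mul_add, rv_mul_J, Matrix.mul_zero]
      simp only [emb, fromBlocks_transpose, fromBlocks_multiply, fromBlocks_add, transpose_zero,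
        Matrix.zero_mul, Matrix.mul_zero, add_zero, zero_add, h3, fromBlocks_zero]
  · rintro v ⟨f, rfl⟩
    rw [show (fun i => (RingHom.id ℝ) ((Pi.single (Sum.inl (Sum.inr f)) (1:ℝ) :
      Idx (A ⊕ F) g → ℝ) i)) = Pi.single (Sum.inl (Sum.inr f)) (1:ℝ) from rfl]
    rw [mulVec_single_one]
    funext k
    rw [Matrix.col_apply, Matrix.diagonal_apply]
    by_cases hk : k = Sum.inl (Sum.inr f)
    · subst hk; simp
    · rw [if_neg hk, Pi.single_eq_of_ne hk]
  · intro b' hb'
    rw [FFT.map_id_mat]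
    rcases hb' with rfl | ⟨c, rfl⟩
    · ext i j
      rw [Matrix.diagonal_transpose, Matrix.mul_diagonal, Matrix.diagonal_mul]
      rcases i with (i | i) | i <;> rcases j with (j | j) | j <;> simp
      by_cases hij : i = j
      · subst hij
        by_cases hi : i = a <;> simp [hi]
      · simp [Matrix.one_apply_ne hij]
    · ext i j
      rw [Matrix.diagonal_transpose, Matrix.mul_diagonal, Matrix.diagonal_mul]
      rcases i with i | i <;> rcases j with j | j <;> simp [emb]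

end FFTP

open FFTP in
theorem stmt_FFTP (hFF2P : Stmt_FF2P) (hINV : Stmt_INV) : Stmt_FFTP := by
  intro A F _ _ _ _ g n r hr hth φ hφ
  obtain ⟨β, hβ, hort⟩ := FFT.exists_decomp (decSub (NF A F ℝ g) (NPP A F ℝ g r) n) φ
  have hβ' : Dec (NF A F ℝ g) (NPP A F ℝ g r) n β := hβ
  obtain ⟨i1, i2, i3⟩ := inv_of_decP hINV r hr hth β hβ'
  have h0 : φ - β = 0 := by
    refine hFF2P A F g n r hr hth (φ - β) ⟨fun a b => ?_, fun a b hab => ?_, fun hA => ?_⟩ ?_
    · rw [der_sub_right, hφ.1 a b, i1 a b, sub_zero]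
    · rw [der_sub_right, hφ.2.1 a b hab, i2 a b hab, sub_zero]
    · obtain ⟨a, ha⟩ := hφ.2.2 hA
      refine ⟨a, ?_⟩
      have h1 : act (Matrix.diagonal
        (fun k : Idx (A ⊕ F) g => if k = Sum.inl (Sum.inl a) then (-1 : ℝ) else 1)) (-β) = -β := by
        have h2 := act_smul (-1 : ℝ) (Matrix.diagonal
          (fun k : Idx (A ⊕ F) g => if k = Sum.inl (Sum.inl a) then (-1 : ℝ) else 1)) β
        rw [i3 a] at h2
        simpa using h2
      rw [sub_eq_add_neg, act_add, ha, h1]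
    · intro ψ hψ
      exact hort ψ hψ
  have h1 : φ = β := sub_eq_zero.mp h0
  rw [h1]; exact hβ'

end Pool.Agent.Work.T8
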