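import Pool.Agent.Work.MP_298761_T8.Interface
import Pool.Agent.Work.MP_298761_T3.POS

/-! T8: block POS2 (helper62): the identity of sums of squares for a block `D` with `θ D` disjoint
from `D`. Adapted from `MP_298761_T3/POS.lean` (helper92). -/

namespace Pool.Agent.Work.T8

open Matrix Pool.Agent.Work.T3

namespace POS2

section
variable {κ : Type} [Fintype κ] [DecidableEq κ] {n : ℕ}

theorem diag (φ : Tens ℝ κ n) (D : Finset κ) (θ : κ → κ) (s : κ → ℝ)
    (hD : ∀ a ∈ D, θ a ∉ D) (p : Fin n) :
    ∑ i : Fin n → κ, ∑ a ∈ D, ∑ b ∈ D, (s a * s b) *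
      ((if i p = a then φ (Function.update i p b) else 0) *
        (if i p = θ b then φ (Function.update i p (θ a)) else 0)) = 0 := by
  apply Finset.sum_eq_zero
  intro i _
  apply Finset.sum_eq_zero
  intro a ha
  apply Finset.sum_eq_zero
  intro b hb
  by_cases h1 : i p = a
  · rw [if_neg (c := i p = θ b)]
    · ring
    · intro h2
      exact hD b hb (by rw [← h2, h1]; exact ha)
  · rw [if_neg h1]
    ring

end

end POS2

theorem stmt_POS2 : Stmt_POS2 := by
  intro κ _ _ n φ D θ s hD hθ hs h1 hz
  have e1 : ∑ a ∈ D, ∑ b ∈ D, ∑ i : Fin n → κ, (der (Matrix.single a b (1 : ℝ)) φ i) ^ 2 =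
      ∑ a ∈ D, ∑ b ∈ D, ∑ i : Fin n → κ, ∑ p : Fin n, ∑ q : Fin n, (s a * s b) *
      ((if i p = a then φ (Function.update i p b) else 0) *
        (if i q = θ b then φ (Function.update i q (θ a)) else 0)) := by
    apply Finset.sum_congr rfl
    intro a ha
    apply Finset.sum_congr rfl
    intro b hb
    apply Finset.sum_congr rfl
    intro i _
    have h2 : (der (Matrix.single a b (1 : ℝ)) φ i) ^ 2 = (s a * s b) *
        ((der (Matrix.single a b (1 : ℝ)) φ i) *
          (der (Matrix.single (θ b) (θ a) (1 : ℝ)) φ i)) := by
      have := congrFun (h1 a ha b hb) i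
      rw [Pi.smul_apply, smul_eq_mul] at this
      rw [sq]
      nth_rewrite 2 [this]
      ring
    rw [h2, der_single, der_single, Finset.sum_mul_sum, Finset.mul_sum]
    apply Finset.sum_congr rfl
    intro p _
    rw [Finset.mul_sum]
  rw [e1]
  have e2 : ∑ a ∈ D, ∑ b ∈ D, ∑ i : Fin n → κ, ∑ p : Fin n, ∑ q : Fin n, (s a * s b) *
      ((if i p = a then φ (Function.update i p b) else 0) *
        (if i q = θ b then φ (Function.update i q (θ a)) else 0)) =
      ∑ p : Fin n, ∑ q : Fin n, ∑ i : Fin n → κ, ∑ a ∈ D, ∑ b ∈ D, (s a * s b) *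
      ((if i p = a then φ (Function.update i p b) else 0) *
        (if i q = θ b then φ (Function.update i q (θ a)) else 0)) := by
    calc _ = ∑ a ∈ D, ∑ b ∈ D, ∑ p : Fin n, ∑ q : Fin n, ∑ i : Fin n → κ, (s a * s b) *
      ((if i p = a then φ (Function.update i p b) else 0) *
        (if i q = θ b then φ (Function.update i q (θ a)) else 0)) := by
          apply Finset.sum_congr rfl
          intro a _
          apply Finset.sum_congr rfl
          intro b _
          rw [Finset.sum_comm]
          apply Finset.sum_congr rfl
          intro p _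
          rw [Finset.sum_comm]
      _ = ∑ a ∈ D, ∑ p : Fin n, ∑ b ∈ D, ∑ q : Fin n, ∑ i : Fin n → κ, (s a * s b) *
      ((if i p = a then φ (Function.update i p b) else 0) *
        (if i q = θ b then φ (Function.update i q (θ a)) else 0)) := by
          apply Finset.sum_congr rfl
          intro a _
          rw [Finset.sum_comm]
      _ = ∑ p : Fin n, ∑ a ∈ D, ∑ q : Fin n, ∑ b ∈ D, ∑ i : Fin n → κ, (s a * s b) *
      ((if i p = a then φ (Function.update i p b) else 0) *
        (if i q = θ b then φ (Function.update i q (θ a)) else 0)) := by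
          rw [Finset.sum_comm]
          apply Finset.sum_congr rfl
          intro p _
          apply Finset.sum_congr rfl
          intro a _
          rw [Finset.sum_comm]
      _ = ∑ p : Fin n, ∑ q : Fin n, ∑ a ∈ D, ∑ i : Fin n → κ, ∑ b ∈ D, (s a * s b) *
      ((if i p = a then φ (Function.update i p b) else 0) *
        (if i q = θ b then φ (Function.update i q (θ a)) else 0)) := by
          apply Finset.sum_congr rfl
          intro p _
          rw [Finset.sum_comm]
          apply Finset.sum_congr rfl
          intro q _
          apply Finset.sum_congr rfl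
          intro a _
          rw [Finset.sum_comm]
      _ = _ := by
          apply Finset.sum_congr rfl
          intro p _
          apply Finset.sum_congr rfl
          intro q _
          rw [Finset.sum_comm]
  rw [e2]
  apply Finset.sum_eq_zero
  intro p _
  apply Finset.sum_eq_zero
  intro q _
  by_cases hpq : p = q
  · subst hpq
    exact POS2.diag φ D θ s hD p
  · exact POS.offdiag φ D θ s hz p q hpq

end Pool.Agent.Work.T8
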