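import Pool.Agent.Work.MP_298761_T8.Interface

set_option autoImplicit false

/-! RATE: the rational structure of the commutant (helper58). -/

namespace Pool.Agent.Work.T8

open Matrix Pool.Agent.Work.T3

namespace RATE

/-- the rational matrix `l (e i j)` -/
noncomputable def lm {g : ℕ} (l : ℂ →ₗ[ℚ] ℚ) (e : Mat1 g ℂ) : Mat1 g ℚ := fun i j => l (e i j)

theorem lm_mem {g : ℕ} (E : Submodule ℚ (Mat1 g ℚ)) {e : Mat1 g ℂ}
    (he : e ∈ Submodule.span ℂ (mC '' (E : Set (Mat1 g ℚ)))) :
    ∀ l : ℂ →ₗ[ℚ] ℚ, lm l e ∈ E := by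
  induction he using Submodule.span_induction with
  | mem x hx =>
    obtain ⟨f, hf, rfl⟩ := hx
    intro l
    have h1 : lm l (mC f) = l 1 • f := by
      ext i j
      simp only [lm, mC, Matrix.map_apply, Matrix.smul_apply, smul_eq_mul]
      have h2 : ((f i j : ℚ) : ℂ) = (f i j) • (1 : ℂ) := by
        rw [Algebra.smul_def, mul_one]; rfl
      rw [h2, map_smul, smul_eq_mul, mul_comm]
    rw [h1]
    exact E.smul_mem _ hf
  | zero =>
    intro l
    have h1 : lm l (0 : Mat1 g ℂ) = 0 := by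
      ext i j; simp [lm]
    rw [h1]
    exact E.zero_mem
  | add x y _ _ hx hy =>
    intro l
    have h1 : lm l (x + y) = lm l x + lm l y := by
      ext i j; simp [lm]
    rw [h1]
    exact E.add_mem (hx l) (hy l)
  | smul c x _ hx =>
    intro l
    exact hx (l.comp (LinearMap.mulLeft ℚ c))

theorem lm_comm {g : ℕ} (l : ℂ →ₗ[ℚ] ℚ) (e : Mat1 g ℂ) (Y : Mat1 g ℚ)
    (h : e * mC Y = mC Y * e) : lm l e * Y = Y * lm l e := by
  ext i j
  have h1 := congrArg l (congrFun (congrFun h i) j)
  simp only [Matrix.mul_apply, mC, Matrix.map_apply, map_sum] at h1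
  simp only [Matrix.mul_apply, lm]
  have h2 : ∀ (a : ℂ) (q : ℚ), l (a * (q : ℂ)) = l a * q := by
    intro a q
    have h3 : a * (q : ℂ) = q • a := by
      rw [Algebra.smul_def, mul_comm]; rfl
    rw [h3, map_smul, smul_eq_mul, mul_comm]
  have h4 : ∀ (a : ℂ) (q : ℚ), l ((q : ℂ) * a) = q * l a := by
    intro a q
    rw [mul_comm, h2, mul_comm]
  simp only [h2, h4] at h1
  exact h1

end RATE

open RATE in
theorem stmt_RATE : Stmt_RATE := by
  classical
  intro g E H e he hcomm
  let B := Module.Basis.ofVectorSpace ℚ ℂ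
  let S := Finset.univ.biUnion (fun i : Fin g ⊕ Fin g =>
    Finset.univ.biUnion (fun j : Fin g ⊕ Fin g => (B.repr (e i j)).support))
  have h1 : e = ∑ k ∈ S, (B k) • mC (lm (B.coord k) e) := by
    ext i j
    rw [Matrix.sum_apply]
    have h2 := B.linearCombination_repr (e i j)
    rw [Finsupp.linearCombination_apply, Finsupp.sum] at h2
    conv_lhs => rw [← h2]
    have h3 : (B.repr (e i j)).support ⊆ S := by
      intro k hk
      exact Finset.mem_biUnion.2 ⟨i, Finset.mem_univ _, Finset.mem_biUnion.2 ⟨j, Finset.mem_univ _, hk⟩⟩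
    rw [Finset.sum_subset h3]
    · refine Finset.sum_congr rfl fun k _ => ?_
      simp only [Matrix.smul_apply, mC, Matrix.map_apply, lm, smul_eq_mul]
      rw [Algebra.smul_def, mul_comm]
      rfl
    · intro k _ hk
      rw [Finsupp.notMem_support_iff.1 hk, zero_smul]
  rw [h1]
  refine Submodule.sum_mem _ fun k _ => Submodule.smul_mem _ _ (Submodule.subset_span ?_)
  exact ⟨lm (B.coord k) e, ⟨lm_mem E he _, fun Y hY => lm_comm _ e Y (hcomm Y hY)⟩, rfl⟩

end Pool.Agent.Work.T8
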