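import Pool.Agent.Work.MP_298761_T8.Interface

/-! T8, block RV: the Lie algebra generated by the `rv`. -/

namespace Pool.Agent.Work.T8.RV

open Matrix Pool.Agent.Work.T3

section
variable {R : Type} [CommRing R] {g : ℕ}

theorem th_th (a : Fin g ⊕ Fin g) : th (th a) = a := by
  rcases a with a | a <;> rfl

theorem th_inj {a b : Fin g ⊕ Fin g} : th a = th b ↔ a = b := by
  constructor
  · intro h
    rw [← th_th a, h, th_th]
  · rintro rfl; rfl

theorem th_eq {a b : Fin g ⊕ Fin g} : th a = b ↔ a = th b := by
  rw [← th_inj, th_th]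

theorem th_ne (a : Fin g ⊕ Fin g) : th a ≠ a := by
  rcases a with a | a <;> simp [th]

theorem sg_th (a : Fin g ⊕ Fin g) : sg R (th a) = -sg R a := by
  rcases a with a | a <;> simp [th, sg]

theorem sg_sq (a : Fin g ⊕ Fin g) : sg R a * sg R a = 1 := by
  rcases a with a | a <;> simp [sg]

theorem J_apply (a b : Fin g ⊕ Fin g) :
    Matrix.J (Fin g) R a b = if b = th a then sg R a else 0 := by
  rcases a with a | a <;> rcases b with b | b
  · simp [Matrix.J, th]
  · by_cases h : a = b
    · subst h
      simp [Matrix.J, th, sg]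
    · have h' : b ≠ a := fun h2 => h h2.symm
      simp [Matrix.J, th, h, h']
  · by_cases h : a = b
    · subst h
      simp [Matrix.J, th, sg]
    · have h' : b ≠ a := fun h2 => h h2.symm
      simp [Matrix.J, th, h, h']
  · simp [Matrix.J, th]

theorem J_mul (M : Mat1 g R) (x y : Fin g ⊕ Fin g) :
    (Matrix.J (Fin g) R * M) x y = sg R x * M (th x) y := by
  rw [Matrix.mul_apply, Finset.sum_eq_single (th x)]
  · rw [J_apply, if_pos rfl]
  · intro b _ hb
    rw [J_apply, if_neg hb, zero_mul]
  · intro h; exact absurd (Finset.mem_univ _) h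

theorem mul_J (M : Mat1 g R) (x y : Fin g ⊕ Fin g) :
    (M * Matrix.J (Fin g) R) x y = -(M x (th y) * sg R y) := by
  rw [Matrix.mul_apply, Finset.sum_eq_single (th y)]
  · rw [J_apply, if_pos (th_th y).symm, sg_th, mul_neg]
  · intro b _ hb
    rw [J_apply, if_neg, mul_zero]
    intro h
    exact hb (by rw [h, th_th])
  · intro h; exact absurd (Finset.mem_univ _) h

/-- the equation of the symplectic Lie algebra, entrywise -/
theorem sp_apply (Y : Mat1 g R) (x y : Fin g ⊕ Fin g) :
    (Yᵀ * Matrix.J (Fin g) R + Matrix.J (Fin g) R * Y) x y =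
      sg R x * Y (th x) y - Y (th y) x * sg R y := by
  rw [Matrix.add_apply, mul_J, J_mul, Matrix.transpose_apply]
  ring

theorem sp_iff (Y : Mat1 g R) :
    Yᵀ * Matrix.J (Fin g) R + Matrix.J (Fin g) R * Y = 0 ↔
      ∀ a b, Y (th b) (th a) = -(sg R a * sg R b) * Y a b := by
  constructor
  · intro h a b
    have h1 := congrFun (congrFun h b) (th a)
    rw [sp_apply, th_th, sg_th, Matrix.zero_apply] at h1
    have h2 := sg_sq (R := R) b
    linear_combination sg R b * h1 - (Y (th b) (th a)) * h2
  · intro h
    ext x y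
    rw [sp_apply, Matrix.zero_apply]
    have h1 := h (th y) x
    rw [th_th, sg_th] at h1
    have h2 := sg_sq (R := R) x
    rw [h1]
    linear_combination (sg R y * Y (th y) x) * h2

theorem rv_apply (a b x y : Fin g ⊕ Fin g) :
    rv R a b x y = (if a = x ∧ b = y then 1 else 0) -
      (sg R a * sg R b) * (if th b = x ∧ th a = y then 1 else 0) := by
  simp only [rv, Matrix.sub_apply, Matrix.smul_apply, Matrix.single_apply, smul_eq_mul]

theorem rv_swap (a b : Fin g ⊕ Fin g) :
    rv R (th b) (th a) = -(sg R a * sg R b) • rv R a b := by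
  ext x y
  rw [rv_apply, Matrix.smul_apply, rv_apply, th_th, th_th, sg_th, sg_th, smul_eq_mul]
  have h1 := sg_sq (R := R) a
  have h2 := sg_sq (R := R) b
  generalize (if a = x ∧ b = y then (1 : R) else 0) = u
  generalize (if th b = x ∧ th a = y then (1 : R) else 0) = v
  linear_combination -(v * (sg R b * sg R b)) * h1 - v * h2

theorem rv_sp (a b : Fin g ⊕ Fin g) :
    (rv R a b)ᵀ * Matrix.J (Fin g) R + Matrix.J (Fin g) R * rv R a b = 0 := by
  rw [sp_iff]
  intro x y
  rw [rv_apply, rv_apply]
  have e1 : (a = th y ∧ b = th x) ↔ (th b = x ∧ th a = y) := by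
    rw [th_eq, th_eq]; tauto
  have e2 : (th b = th y ∧ th a = th x) ↔ (a = x ∧ b = y) := by
    rw [th_inj, th_inj]; tauto
  simp only [e1, e2]
  have h1 := sg_sq (R := R) a
  have h2 := sg_sq (R := R) b
  by_cases hA : a = x ∧ b = y
  · obtain ⟨rfl, rfl⟩ := hA
    by_cases hB : th b = a ∧ th a = b
    · simp only [hB, and_self, if_true]
      linear_combination -h1 * (sg R b * sg R b) - h2
    · simp only [hB, and_self, if_true, if_false]
      ring
  · by_cases hB : th b = x ∧ th a = y
    · obtain ⟨rfl, rfl⟩ := hB
      simp only [hA, and_self, if_true, if_false, sg_th]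
      linear_combination -h1 * (sg R b * sg R b) - h2
    · simp only [hA, hB, if_false]
      ring

theorem single_mul (a b c d : Fin g ⊕ Fin g) :
    Matrix.single a b (1 : R) * Matrix.single c d (1 : R) =
      if b = c then Matrix.single a d (1 : R) else 0 := by
  by_cases h : b = c
  · subst h
    rw [if_pos rfl, Matrix.single_mul_single_same, mul_one]
  · rw [if_neg h, Matrix.single_mul_single_of_ne _ _ _ _ h]

theorem rv_comm {a b c : Fin g ⊕ Fin g} (hac : a ≠ c) :
    rv R a b * rv R b c - rv R b c * rv R a b =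
      (if b = th c ∨ b = th a then (2 : R) else 1) • rv R a c := by
  have hca : c ≠ a := fun h => hac h.symm
  have h1 : rv R a b * rv R b c = Matrix.single a c 1
      - (sg R b * sg R c) • (if b = th c then Matrix.single a (th b) 1 else 0)
      - (sg R a * sg R b) • (if th a = b then Matrix.single (th b) c 1 else 0) := by
    simp only [rv, sub_mul, mul_sub, Matrix.smul_mul, Matrix.mul_smul, single_mul, th_inj,
      if_neg hac, if_true, smul_zero, sub_zero]
    abel
  have h2 : rv R b c * rv R a b =
      (sg R a * sg R c) • Matrix.single (th c) (th a) 1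
      - (sg R a * sg R b) • (if c = th b then Matrix.single b (th a) 1 else 0)
      - (sg R b * sg R c) • (if th b = a then Matrix.single (th c) b 1 else 0) := by
    simp only [rv, sub_mul, mul_sub, Matrix.smul_mul, Matrix.mul_smul, single_mul,
      if_neg hca, if_true, zero_sub, smul_smul]
    have : sg R a * sg R b * (sg R b * sg R c) = sg R a * sg R c := by
      linear_combination (sg R a * sg R c) * sg_sq (R := R) b
    rw [this]
    abel
  rw [h1, h2, rv]
  by_cases hbc : b = th c
  · subst hbc
    have hne : th c ≠ th a := fun h => hca (th_inj.mp h)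
    have hne' : th a ≠ th c := fun h => hca (th_inj.mp h).symm
    simp only [th_th, if_true, true_or, hne, hne', hca, if_false, smul_zero, sub_zero, sg_th]
    have h3 : sg R a * -sg R c = -(sg R a * sg R c) := by ring
    have h4 : -sg R c * sg R c = -1 := by linear_combination -(sg_sq (R := R) c)
    rw [h3, h4]
    module
  · by_cases hba : b = th a
    · subst hba
      have hne : c ≠ a := hca
      simp only [th_th, if_true, or_true, hbc, if_false, smul_zero, sub_zero, sg_th, hca]
      have h3 : sg R a * -sg R a = -1 := by linear_combination -(sg_sq (R := R) a)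
      have h4 : -sg R a * sg R c = -(sg R a * sg R c) := by ring
      rw [h3, h4]
      module
    · have h5 : ¬ (c = th b) := fun h => hbc (by rw [h, th_th])
      have h6 : ¬ (th a = b) := fun h => hba h.symm
      have h7 : ¬ (th b = a) := fun h => hba (by rw [← h, th_th])
      simp only [hbc, hba, h5, h6, h7, if_false, or_self, smul_zero, sub_zero, one_smul]

theorem sum_rv (Y : Mat1 g R)
    (hY : ∀ a b, Y (th b) (th a) = -(sg R a * sg R b) * Y a b) :
    ∑ a, ∑ b, Y a b • rv R a b = (2 : R) • Y := by
  ext x y
  simp only [Matrix.sum_apply, Matrix.smul_apply, rv_apply, smul_eq_mul]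
  have h1 : ∀ a b : Fin g ⊕ Fin g, Y a b * ((if a = x ∧ b = y then (1 : R) else 0) -
      sg R a * sg R b * (if th b = x ∧ th a = y then (1 : R) else 0)) =
      (if a = x ∧ b = y then Y x y else 0) + (if a = th y ∧ b = th x then Y x y else 0) := by
    intro a b
    have e1 : (th b = x ∧ th a = y) ↔ (a = th y ∧ b = th x) := by
      rw [th_eq, th_eq]; tauto
    simp only [e1]
    by_cases hA : a = x ∧ b = y
    · obtain ⟨rfl, rfl⟩ := hA
      by_cases hB : a = th b ∧ b = th a
      · rw [if_pos (⟨rfl, rfl⟩ : a = a ∧ b = b), if_pos hB, if_pos (⟨rfl, rfl⟩ : a = a ∧ b = b),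
          if_pos hB]
        have := hY a b
        rw [← hB.1, ← hB.2] at this
        linear_combination -this
      · rw [if_pos (⟨rfl, rfl⟩ : a = a ∧ b = b), if_neg hB, if_pos (⟨rfl, rfl⟩ : a = a ∧ b = b),
          if_neg hB]
        ring
    · by_cases hB : a = th y ∧ b = th x
      · obtain ⟨rfl, rfl⟩ := hB
        simp only [hA, and_self, if_true, if_false]
        have := hY (th y) (th x)
        rw [th_th, th_th] at this
        rw [this]; ring
      · simp only [hA, hB, if_false]
        ring
  simp only [h1, Finset.sum_add_distrib]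
  have h2 : ∀ u v : Fin g ⊕ Fin g, (∑ a, ∑ b, if a = u ∧ b = v then Y x y else 0) = Y x y := by
    intro u v
    rw [Finset.sum_eq_single u, Finset.sum_eq_single v]
    · simp
    · intro b _ hb; rw [if_neg (fun h => hb h.2)]
    · intro h; exact absurd (Finset.mem_univ _) h
    · intro a _ ha
      exact Finset.sum_eq_zero fun b _ => by rw [if_neg (fun h => ha h.1)]
    · intro h; exact absurd (Finset.mem_univ _) h
  rw [h2, h2]
  ring

end

end Pool.Agent.Work.T8.RV

namespace Pool.Agent.Work.T8

open Matrix Pool.Agent.Work.T3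

theorem stmt_RV : Stmt_RV := by
  intro g
  refine ⟨fun a b => RV.rv_sp a b, fun a b => RV.rv_swap a b, fun a b c hac => ?_, fun Y hY => ?_⟩
  · refine ⟨if b = th c ∨ b = th a then (2 : ℂ) else 1, ?_, RV.rv_comm hac⟩
    split_ifs <;> norm_num
  · have h := (RV.sp_iff Y).mp hY
    refine ⟨h, ?_⟩
    rw [RV.sum_rv Y h, smul_smul]
    norm_num

end Pool.Agent.Work.T8
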