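import Pool.Agent.Work.MP_298761_T8.Interface

/-! T8 (MP_298761_ag): block SEP (helper51). A unital algebra of functions on a finite set is
determined by the points it separates. -/

namespace Pool.Agent.Work.T8

namespace SEP

variable {κ : Type}

/-- not separated by `A` -/
def rel (A : Submodule ℂ (κ → ℂ)) (a b : κ) : Prop := ∀ h ∈ A, h a = h b

theorem separate (A : Submodule ℂ (κ → ℂ)) (h1 : (fun _ => (1 : ℂ)) ∈ A) (a b : κ)
    (hab : ¬ rel A a b) : ∃ h ∈ A, h a = 1 ∧ h b = 0 := by
  unfold rel at hab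
  push Not at hab
  obtain ⟨h0, hA, hne⟩ := hab
  have hsub : h0 a - h0 b ≠ 0 := sub_ne_zero.mpr hne
  refine ⟨(h0 a - h0 b)⁻¹ • (h0 - h0 b • (fun _ => (1 : ℂ))),
    A.smul_mem _ (A.sub_mem hA (A.smul_mem _ h1)), ?_, ?_⟩
  · simp only [Pi.smul_apply, Pi.sub_apply, smul_eq_mul, mul_one]
    exact inv_mul_cancel₀ hsub
  · simp only [Pi.smul_apply, Pi.sub_apply, smul_eq_mul, mul_one, sub_self, mul_zero]

theorem indicator_mem [Fintype κ] (A : Submodule ℂ (κ → ℂ)) (h1 : (fun _ => (1 : ℂ)) ∈ A)
    (hmul : ∀ f ∈ A, ∀ h ∈ A, f * h ∈ A) (a : κ) :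
    ∃ e ∈ A, ∀ c, (rel A a c → e c = 1) ∧ (¬ rel A a c → e c = 0) := by
  classical
  have hH : ∀ b : κ, ∃ h ∈ A, h a = 1 ∧ (¬ rel A a b → h b = 0) := by
    intro b
    by_cases hab : rel A a b
    · exact ⟨_, h1, rfl, fun h => absurd hab h⟩
    · obtain ⟨h, hA, ha, hb⟩ := separate A h1 a b hab
      exact ⟨h, hA, ha, fun _ => hb⟩
  choose H hHA hHa hHb using hH
  have heA : (∏ b, H b) ∈ A :=
    Finset.prod_induction H (fun f => f ∈ A) (fun f h hf hh => hmul f hf h hh) h1
      (fun b _ => hHA b)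
  have hea : (∏ b, H b) a = 1 := by
    rw [Finset.prod_apply]
    exact Finset.prod_eq_one fun b _ => hHa b
  refine ⟨∏ b, H b, heA, fun c => ⟨fun hc => ?_, fun hc => ?_⟩⟩
  · rw [← hc _ heA, hea]
  · rw [Finset.prod_apply]
    exact Finset.prod_eq_zero (Finset.mem_univ c) (hHb c hc)

end SEP

open SEP in
theorem stmt_SEP : Stmt_SEP := by
  classical
  intro κ _ A h1 hmul f hf
  have := Fintype.ofFinite κ
  have hsymm : ∀ a b, rel A a b → rel A b a := fun a b h g hg => (h g hg).symm
  have htrans : ∀ a b c, rel A a b → rel A b c → rel A a c :=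
    fun a b c h h' g hg => (h g hg).trans (h' g hg)
  have hrefl : ∀ a, rel A a a := fun a g _ => rfl
  choose e heA he using indicator_mem A h1 hmul
  have hN : ∀ c, ((Finset.univ.filter (fun a => rel A a c)).card : ℂ) ≠ 0 := by
    intro c
    have h2 : 0 < (Finset.univ.filter (fun a => rel A a c)).card :=
      Finset.card_pos.mpr ⟨c, by simp [hrefl c]⟩
    exact_mod_cast h2.ne'
  have key : f = ∑ a, (f a / ((Finset.univ.filter (fun b => rel A b a)).card : ℂ)) • e a := by
    funext c
    rw [Finset.sum_apply]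
    have h2 : ∀ a, ((f a / ((Finset.univ.filter (fun b => rel A b a)).card : ℂ)) • e a) c =
        if rel A a c then f c / ((Finset.univ.filter (fun b => rel A b c)).card : ℂ) else 0 := by
      intro a
      rw [Pi.smul_apply, smul_eq_mul]
      by_cases hac : rel A a c
      · rw [if_pos hac, (he a c).1 hac, mul_one, hf a c hac]
        have h3 : Finset.univ.filter (fun b => rel A b a) =
            Finset.univ.filter (fun b => rel A b c) := by
          ext b
          simp only [Finset.mem_filter, Finset.mem_univ, true_and]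
          exact ⟨fun h => htrans b a c h hac, fun h => htrans b c a h (hsymm a c hac)⟩
        rw [h3]
      · rw [if_neg hac, (he a c).2 hac, mul_zero]
    rw [Finset.sum_congr rfl fun a _ => h2 a, ← Finset.sum_filter, Finset.sum_const,
      nsmul_eq_mul]
    exact (mul_div_cancel₀ (f c) (hN c)).symm
  rw [key]
  exact A.sum_mem fun a _ => A.smul_mem _ (heA a)

end Pool.Agent.Work.T8
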