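import Pool.Agent.Work.MP_298761_T8.Interface
import Pool.Agent.Work.MP_298761_T3.TRA

/-! T8, block TRAP (fallback, helper78): adapted from T3/TRA (helper79). -/

namespace Pool.Agent.Work.T8

open Matrix Pool.Agent.Work.T3

namespace TRAPh

open Pool.Agent.Work.T3.TRA

section
variable {ι : Type} [Fintype ι] [DecidableEq ι] {m r g n : ℕ}
variable {B : Matrix ι ι ℚ} {N : Submodule ℚ (ι → ℚ)} {P : Matrix ι (Fin m ⊕ Fin r) ℂ}
  {Q : Matrix (Fin m ⊕ Fin r) ι ℂ} {G : Matrix (Fin r) (Fin r) ℂ} {v : Fin r → ι → ℚ}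
  {rl : Fin g ⊕ Fin g → Fin g ⊕ Fin g → Prop}

theorem rv_map (a b : Fin g ⊕ Fin g) :
    (rv ℝ a b).map (fun x : ℝ => (x : ℂ)) = rv ℂ a b := by
  have hs : ∀ c : Fin g ⊕ Fin g, ((sg ℝ c : ℝ) : ℂ) = sg ℂ c := by
    intro c
    rcases c with c | c <;> simp [sg]
  ext i j
  simp only [rv, Matrix.map_apply, Matrix.sub_apply, Matrix.smul_apply, smul_eq_mul,
    Complex.ofReal_sub, Complex.ofReal_mul, hs, Matrix.single_apply]
  congr 1
  · split_ifs <;> simp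
  · congr 1
    split_ifs <;> simp

/-- invariance of the real and imaginary parts -/
theorem inv_lin (hMUL : Stmt_MUL) (hINT : Stmt_INT) (D : Dat B N P Q G v)
    (φ : Tens ℂ (Idx ι g) n)
    (h1 : ∀ x y : ι → ℂ, (∀ w ∈ N, vC w ⬝ᵥ mC B *ᵥ x = 0) → (∀ w ∈ N, vC w ⬝ᵥ mC B *ᵥ y = 0) →
      der (ext0 g (wedge (mC B) x y)) φ = 0)
    (h2 : ∀ x : ι → ℂ, (∀ w ∈ N, vC w ⬝ᵥ mC B *ᵥ x = 0) → x ⬝ᵥ mC B *ᵥ x ≠ 0 →
      act (ext1 g (refl (mC B) x)) φ = φ)
    (h3 : ∀ a b : Fin g ⊕ Fin g, rl a b → der (emb ι (rv ℂ a b)) φ = 0) (L : ℂ →ₗ[ℝ] ℝ) :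
    InvP (A := Fin m) (F := Fin r) rl (fun i => L (act (hat' g Q) φ i)) := by
  refine ⟨fun a b => ?_, fun a b hab => ?_, fun hne => ?_⟩
  · apply lin_der
    rw [map_single_sub]
    have h4 := hINT ℂ (Idx (Fin m ⊕ Fin r) g) (Idx ι g) n (hat' g Q)
      (fromBlocks (Matrix.single (Sum.inl a) (Sum.inl b) (1 : ℂ) -
        Matrix.single (Sum.inl b) (Sum.inl a) (1 : ℂ)) 0 0 0)
      (ext0 g (wedge (mC B) (fun i => P i (Sum.inl b)) (fun i => P i (Sum.inl a)))) (by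
        unfold hat' ext0
        rw [fromBlocks_multiply, fromBlocks_multiply, conj D.pq D.qp (wedge_mul D a b)]
        simp only [Matrix.zero_mul, Matrix.mul_zero, add_zero, zero_add]) φ
    rw [← h4, h1 _ _ (D.eN b) (D.eN a), act_zero]
  · apply lin_der
    have h5 : (emb (Fin m ⊕ Fin r) (rv ℝ a b) :
        Matrix (Idx (Fin m ⊕ Fin r) g) (Idx (Fin m ⊕ Fin r) g) ℝ).map (fun x : ℝ => (x : ℂ)) =
        fromBlocks 0 0 0 (rv ℂ a b) := by
      rw [emb, fromBlocks_map, rv_map]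
      refine fromBlocks_inj.2 ⟨?_, ?_, ?_, rfl⟩ <;> ext i j <;> simp
    rw [h5]
    have h4 := hINT ℂ (Idx (Fin m ⊕ Fin r) g) (Idx ι g) n (hat' g Q)
      (fromBlocks 0 0 0 (rv ℂ a b))
      (fromBlocks 0 0 0 (rv ℂ a b)) (by
        unfold hat'
        rw [fromBlocks_multiply, fromBlocks_multiply]
        simp only [Matrix.zero_mul, Matrix.mul_zero, add_zero, zero_add, Matrix.one_mul,
          Matrix.mul_one]) φ
    have h6 : der (fromBlocks 0 0 0 (rv ℂ a b) : Matrix (Idx ι g) (Idx ι g) ℂ) φ = 0 := h3 a b hab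
    rw [← h4, h6, act_zero]
  · obtain ⟨a⟩ := hne
    refine ⟨a, ?_⟩
    apply lin_diag
    have h5 : (fun k : Idx (Fin m ⊕ Fin r) g =>
        (((if k = Sum.inl (Sum.inl a) then (-1 : ℝ) else 1) : ℝ) : ℂ)) =
        (fun k => if k = Sum.inl (Sum.inl a) then (-1 : ℂ) else 1) := by
      funext k
      split_ifs
      · rw [Complex.ofReal_neg, Complex.ofReal_one]
      · rw [Complex.ofReal_one]
    rw [h5, diag_eq, ← (hMUL ℂ _ _ _ n).2]
    have h6 : (fromBlocks (Matrix.diagonal (fun k : Fin m ⊕ Fin r =>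
        if k = Sum.inl a then (-1 : ℂ) else 1)) 0 0 1 :
          Matrix (Idx (Fin m ⊕ Fin r) g) (Idx (Fin m ⊕ Fin r) g) ℂ) * hat' g Q =
        hat' g Q * ext1 g (refl (mC B) (fun i => P i (Sum.inl a))) := by
      unfold hat' ext1
      rw [fromBlocks_multiply, fromBlocks_multiply, conj D.pq D.qp (refl_mul D a)]
      simp only [Matrix.zero_mul, Matrix.mul_zero, add_zero, zero_add, Matrix.one_mul]
    rw [h6, (hMUL ℂ _ _ _ n).2, h2 _ (D.eN a)]
    rw [D.ee a a, if_pos rfl]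
    exact one_ne_zero

/-- the 2-tensors -/
def PT' (g : ℕ) (B : Matrix ι ι ℚ) (rl : Fin g ⊕ Fin g → Fin g ⊕ Fin g → Prop) :
    Set (Matrix (Idx ι g) (Idx ι g) ℂ) :=
  {mC (fromBlocks (B⁻¹) 0 0 0)} ∪
        Set.range (fun c => emb ι (Matrix.diagonal (cl ℂ rl c) * Matrix.J (Fin g) ℂ))

theorem pairJ' (Y : Mat1 g ℂ) :
    hat g P * (fromBlocks 0 0 0 Y :
      Matrix (Idx (Fin m ⊕ Fin r) g) (Idx (Fin m ⊕ Fin r) g) ℂ) * (hat g P)ᵀ =
    emb ι Y := by
  unfold hat emb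
  rw [fromBlocks_transpose, fromBlocks_multiply, fromBlocks_multiply]
  simp only [Matrix.zero_mul, Matrix.mul_zero, add_zero, zero_add, Matrix.transpose_zero,
    Matrix.transpose_one, Matrix.mul_one, Matrix.one_mul]

theorem cl_map (c a : Fin g ⊕ Fin g) : ((cl ℝ rl c a : ℝ) : ℂ) = cl ℂ rl c a := by
  unfold cl
  by_cases h : rl a c
  · rw [if_pos h, if_pos h, Complex.ofReal_one]
  · rw [if_neg h, if_neg h, Complex.ofReal_zero]

theorem map_NPP (b : Matrix (Idx (Fin m ⊕ Fin r) g) (Idx (Fin m ⊕ Fin r) g) ℝ)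
    (hb : b ∈ NPP (Fin m) (Fin r) ℝ g rl) :
    b.map (fun x : ℝ => (x : ℂ)) = fromBlocks (fromBlocks 1 0 0 0) 0 0 0 ∨
    ∃ c, b.map (fun x : ℝ => (x : ℂ)) =
      fromBlocks 0 0 0 (Matrix.diagonal (cl ℂ rl c) * Matrix.J (Fin g) ℂ) := by
  unfold NPP at hb
  rcases hb with h | ⟨c, h⟩
  · left
    rw [Set.mem_singleton_iff.1 h]
    rw [fromBlocks_map, fromBlocks_map]
    refine fromBlocks_inj.2 ⟨fromBlocks_inj.2 ⟨?_, ?_, ?_, ?_⟩, ?_, ?_, ?_⟩
    · exact Matrix.map_one _ Complex.ofReal_zero Complex.ofReal_one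
    all_goals
      ext i j
      simp
  · right
    refine ⟨c, ?_⟩
    rw [← h]
    simp only [emb]
    rw [fromBlocks_map]
    refine fromBlocks_inj.2 ⟨?_, ?_, ?_, ?_⟩
    · ext i j; simp
    · ext i j; simp
    · ext i j; simp
    · have h1 : (Matrix.J (Fin g) ℝ).map Complex.ofRealHom = Matrix.J (Fin g) ℂ :=
        Matrix.map_J (Fin g) Complex.ofRealHom
      ext i j
      rw [Matrix.map_apply, Matrix.diagonal_mul, Matrix.diagonal_mul, Complex.ofReal_mul, cl_map,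
        ← h1]
      rfl

theorem dec_image (hINS : Stmt_INS) (D : Dat B N P Q G v) :
    ∀ {n : ℕ} {ψ : Tens ℝ (Idx (Fin m ⊕ Fin r) g) n},
      Dec (NF (Fin m) (Fin r) ℝ g) (NPP (Fin m) (Fin r) ℝ g rl) n ψ →
      Dec (NT g N) (PT' g B rl) n (act (hat g P) (fun i => (ψ i : ℂ))) := by
  intro n ψ h
  induction h with
  | one =>
    have h1 : act (hat g P) (fun _ : Fin 0 → Idx (Fin m ⊕ Fin r) g => ((1 : ℝ) : ℂ)) =
        (fun _ => 1) := by
      funext i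
      simp [act]
    rw [h1]
    exact Dec.one
  | @vec n w hw p ψ _ ih =>
    obtain ⟨f, rfl⟩ := hw
    have h1 : (fun i => ((insVec (Pi.single (Sum.inl (Sum.inr f)) 1 :
          Idx (Fin m ⊕ Fin r) g → ℝ) p ψ i : ℝ) : ℂ)) =
        insVec (Pi.single (Sum.inl (Sum.inr f)) 1 : Idx (Fin m ⊕ Fin r) g → ℂ) p
          (fun i => (ψ i : ℂ)) := by
      funext i
      simp only [insVec]
      rw [Complex.ofReal_mul]
      refine congrArg (fun x : ℂ => x * _) ?_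
      by_cases h : i p = Sum.inl (Sum.inr f)
      · rw [h, Pi.single_eq_same, Pi.single_eq_same, Complex.ofReal_one]
      · rw [Pi.single_eq_of_ne h, Pi.single_eq_of_ne h, Complex.ofReal_zero]
    show Dec (NT g N) (PT' g B rl) (n + 1) (act (hat g P) (fun i =>
      ((insVec (Pi.single (Sum.inl (Sum.inr f)) 1 :
          Idx (Fin m ⊕ Fin r) g → ℝ) p ψ i : ℝ) : ℂ)))
    rw [h1, (hINS ℂ _ _ n).1]
    refine Dec.vec ?_ p ih
    rw [Matrix.mulVec_single_one]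
    exact col_mem D f
  | @pair n b hb p q ψ _ ih =>
    have h1 : (fun i => ((insPair b p q ψ i : ℝ) : ℂ)) =
        insPair (b.map (fun x : ℝ => (x : ℂ))) p q (fun i => (ψ i : ℂ)) := by
      funext i
      simp only [insPair]
      rw [Complex.ofReal_mul, Matrix.map_apply]
    rw [h1, (hINS ℂ _ _ n).2.1]
    rcases map_NPP b hb with h2 | ⟨c, h2⟩
    · rw [h2, pairA D, insPair_add_left]
      refine Dec.add (Dec.pair (Or.inl rfl) p q ih) ?_
      rw [insPair_sum]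
      refine dec_sum _ _ fun f _ => ?_
      rw [insPair_sum]
      refine dec_sum _ _ fun f' _ => ?_
      rw [insPair_smul_left, insPair_vecMulVec]
      exact Dec.smul _ (Dec.vec (col_mem D f) p (Dec.vec (col_mem D f') q ih))
    · rw [h2, pairJ']
      exact Dec.pair (Or.inr ⟨c, rfl⟩) p q ih
  | zero n =>
    have h1 : (fun i => (((0 : Tens ℝ (Idx (Fin m ⊕ Fin r) g) n) i : ℝ) : ℂ)) = 0 := by
      funext i
      simp
    rw [h1, act_zero]
    exact Dec.zero n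
  | @add n φ ψ _ _ ih1 ih2 =>
    have h1 : (fun i => (((φ + ψ) i : ℝ) : ℂ)) =
        (fun i => (φ i : ℂ)) + (fun i => (ψ i : ℂ)) := by
      funext i
      simp
    rw [h1, act_add]
    exact Dec.add ih1 ih2
  | @smul n c ψ _ ih =>
    have h1 : (fun i => (((c • ψ) i : ℝ) : ℂ)) = (c : ℂ) • (fun i => (ψ i : ℂ)) := by
      funext i
      simp
    rw [h1, act_smul]
    exact Dec.smul _ ih

end

end TRAPh

open TRAPh Pool.Agent.Work.T3.TRA in
theorem TRAPh_thm (hFFTP : Stmt_FFTP) (hBAS : Stmt_BAS) (hMUL : Stmt_MUL) (hINT : Stmt_INT)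
    (hINS : Stmt_INS) : Stmt_TRAP := by
  intro ι _ _ g n B hB hdet N hN rl hrl hrth φ h1 h2 h3
  obtain ⟨m, r, P, Q, G, v, hPQ, hQP, hvN, hPv, hT, hon, hG⟩ := hBAS ι B hB hdet N hN
  have D : Dat B N P Q G v := ⟨hPQ, hQP, hvN, hPv, hT, hon, hG⟩
  have hdec : ∀ L : ℂ →ₗ[ℝ] ℝ, Dec (NT g N) (PT' g B rl) n
      (act (TRA.hat g P) (fun i => ((L (act (hat' g Q) φ i) : ℝ) : ℂ))) := fun L =>
    TRAPh.dec_image hINS D (hFFTP (Fin m) (Fin r) g n rl hrl hrth _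
      (TRAPh.inv_lin hMUL hINT D φ h1 h2 h3 L))
  have h4 : φ = act (TRA.hat g P) (act (hat' g Q) φ) := by
    rw [← (hMUL ℂ _ _ _ n).2, TRA.hat_mul D]
    exact ((hMUL ℂ (Idx ι g) (Idx ι g) (Idx ι g) n).1 φ).symm
  have h5 := decomp (act (hat' g Q) φ)
  have h6 : φ = act (TRA.hat g P) (fun i => ((Complex.reLm (act (hat' g Q) φ i) : ℝ) : ℂ)) +
      Complex.I • act (TRA.hat g P) (fun i => ((Complex.imLm (act (hat' g Q) φ i) : ℝ) : ℂ)) := by
    rw [← act_smul, ← act_add, ← h5]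
    exact h4
  rw [h6]
  exact Dec.add (hdec Complex.reLm) (Dec.smul _ (hdec Complex.imLm))

end Pool.Agent.Work.T8
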