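import Pool.Agent.Work.MP_298761_T8.RV

/-! T8, block WT: weights. -/

namespace Pool.Agent.Work.T8.WT

open Matrix Pool.Agent.Work.T3 Pool.Agent.Work.T8.RV

section
variable {ι : Type} [DecidableEq ι] {g n : ℕ}

/-- the weight of an index -/
noncomputable def ep (k : Idx ι g) (x : Fin g ⊕ Fin g) : ℂ :=
  (if k = Sum.inr x then 1 else 0) - (if k = Sum.inr (th x) then 1 else 0)

/-- the weight of a tuple of indices -/
noncomputable def wt (i : Fin n → Idx ι g) (x : Fin g ⊕ Fin g) : ℂ := ∑ p, ep (i p) x

theorem ep_inl (k : ι) (x : Fin g ⊕ Fin g) : ep (Sum.inl k : Idx ι g) x = 0 := by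
  simp [ep]

theorem ep_inr (a : Fin g ⊕ Fin g) (x : Fin g ⊕ Fin g) :
    ep (Sum.inr a : Idx ι g) x = (if a = x then 1 else 0) - (if a = th x then 1 else 0) := by
  simp [ep]

theorem ep_th (a : Fin g ⊕ Fin g) (x : Fin g ⊕ Fin g) :
    ep (Sum.inr (th a) : Idx ι g) x = -ep (Sum.inr a : Idx ι g) x := by
  rw [ep_inr, ep_inr]
  have e1 : (th a = x) ↔ (a = th x) := th_eq
  have e2 : (th a = th x) ↔ (a = x) := th_inj
  simp only [e1, e2]
  ring

theorem wt_update (i : Fin n → Idx ι g) (p : Fin n) (k : Idx ι g) (x : Fin g ⊕ Fin g) :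
    wt (Function.update i p k) x = wt i x - ep (i p) x + ep k x := by
  unfold wt
  rw [← Finset.add_sum_erase _ _ (Finset.mem_univ p),
    ← Finset.add_sum_erase (a := p) Finset.univ (fun q => ep (i q) x) (Finset.mem_univ p)]
  rw [Function.update_self]
  have : ∑ q ∈ Finset.univ.erase p, ep (Function.update i p k q) x =
      ∑ q ∈ Finset.univ.erase p, ep (i q) x := by
    refine Finset.sum_congr rfl fun q hq => ?_
    rw [Function.update_of_ne (Finset.ne_of_mem_erase hq)]
  rw [this]
  ring

theorem emb_single (a b : Fin g ⊕ Fin g) :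
    emb ι (Matrix.single a b (1 : ℂ)) = Matrix.single (Sum.inr a) (Sum.inr b) 1 := by
  ext x y
  rcases x with x | x <;> rcases y with y | y <;>
    simp [emb, Matrix.single_apply, Matrix.fromBlocks]

theorem emb_rv (a b : Fin g ⊕ Fin g) :
    emb ι (rv ℂ a b) = Matrix.single (Sum.inr a) (Sum.inr b) 1 -
      (sg ℂ a * sg ℂ b) • Matrix.single (Sum.inr (th b)) (Sum.inr (th a)) 1 := by
  rw [← emb_single, ← emb_single]
  ext x y
  rcases x with x | x <;> rcases y with y | y
  · simp [emb, Matrix.fromBlocks]
  · simp [emb, Matrix.fromBlocks]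
  · simp [emb, Matrix.fromBlocks]
  · simp only [emb, rv, Matrix.sub_apply, Matrix.smul_apply, Matrix.fromBlocks_apply₂₂]

theorem der_diag [Fintype ι] (c : Fin g ⊕ Fin g) (ψ : Tens ℂ (Idx ι g) n) (i : Fin n → Idx ι g) :
    der (emb ι (rv ℂ c c)) ψ i = wt i c * ψ i := by
  rw [emb_rv, sg_sq, one_smul, der_sub_left, Pi.sub_apply, der_single, der_single,
    ← Finset.sum_sub_distrib, wt, Finset.sum_mul]
  refine Finset.sum_congr rfl fun p _ => ?_
  rw [ep, sub_mul]
  congr 1
  · by_cases h : i p = Sum.inr c
    · rw [if_pos h, if_pos h, ← h, Function.update_eq_self, one_mul]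
    · rw [if_neg h, if_neg h, zero_mul]
  · by_cases h : i p = Sum.inr (th c)
    · rw [if_pos h, if_pos h, ← h, Function.update_eq_self, one_mul]
    · rw [if_neg h, if_neg h, zero_mul]

theorem ep_inj {u v : Fin g ⊕ Fin g}
    (h : ∀ x, ep (Sum.inr u : Idx ι g) x = ep (Sum.inr v : Idx ι g) x) : u = v := by
  have h1 := h v
  rw [ep_inr, ep_inr, if_pos rfl, if_neg (th_ne v).symm] at h1
  by_contra hne
  rw [if_neg hne] at h1
  split_ifs at h1 <;> norm_num at h1

theorem pair_eq {a b c d : Fin g ⊕ Fin g} (hab : a ≠ b)
    (h : ∀ x, ep (Sum.inr c : Idx ι g) x - ep (Sum.inr d : Idx ι g) x =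
      ep (Sum.inr a : Idx ι g) x - ep (Sum.inr b : Idx ι g) x) :
    (c = a ∧ d = b) ∨ (c = th b ∧ d = th a) := by
  have h1 := h a
  have hba : ¬ (b = a) := fun h2 => hab h2.symm
  have ha' : ¬ (a = th a) := (th_ne a).symm
  simp only [ep_inr, if_neg hba, if_neg ha', if_true] at h1
  by_cases hc : c = a
  · left
    refine ⟨hc, ep_inj (ι := ι) fun x => ?_⟩
    have h2 := h x
    rw [hc] at h2
    linear_combination -h2
  · by_cases hd : d = th a
    · right
      refine ⟨ep_inj (ι := ι) fun x => ?_, hd⟩
      have h2 := h x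
      rw [hd, ep_th] at h2
      rw [ep_th]
      linear_combination h2
    · exfalso
      simp only [if_neg hc, if_neg hd] at h1
      split_ifs at h1 <;> norm_num at h1

end

end Pool.Agent.Work.T8.WT

namespace Pool.Agent.Work.T8

open Matrix Pool.Agent.Work.T3 Pool.Agent.Work.T8.RV Pool.Agent.Work.T8.WT

theorem stmt_WT : Stmt_WT := by
  intro ι _ _ g n ψ hψ Y₀ Y₁ hY₁ hY a b hab
  have hsp := (RV.sp_iff Y₁).mp hY₁
  -- the weights of the support of `ψ` are zero
  have hw : ∀ (i : Fin n → Idx ι g), ψ i ≠ 0 → ∀ x, wt i x = 0 := by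
    intro i hi x
    have h1 := congrFun (hψ x) i
    rw [der_diag, Pi.zero_apply] at h1
    exact (mul_eq_zero.mp h1).resolve_right hi
  funext i
  rw [Pi.smul_apply, Pi.zero_apply, smul_eq_mul]
  by_cases hi : ∀ x, wt i x = ep (Sum.inr a : Idx ι g) x - ep (Sum.inr b : Idx ι g) x
  · -- the weight is the right one
    set κ : ℂ := if b = th a then 2 else 1 with hκ
    have key : ∀ (p : Fin n) (k : Idx ι g),
        κ * ((fromBlocks Y₀ 0 0 Y₁ : Matrix (Idx ι g) (Idx ι g) ℂ) (i p) k *
          ψ (Function.update i p k)) =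
        Y₁ a b * (emb ι (rv ℂ a b) (i p) k * ψ (Function.update i p k)) := by
      intro p k
      by_cases h0 : ψ (Function.update i p k) = 0
      · rw [h0]; ring
      · have h1 := hw _ h0
        have h2 : ∀ x, ep (i p) x - ep k x =
            ep (Sum.inr a : Idx ι g) x - ep (Sum.inr b : Idx ι g) x := by
          intro x
          have h3 := h1 x
          rw [wt_update, hi x] at h3
          linear_combination -h3
        rcases hip : i p with j | c
        · rcases k with k | d
          · exfalso
            refine hab (ep_inj (ι := ι) fun x => ?_)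
            have h3 := h2 x
            rw [hip, ep_inl, ep_inl] at h3
            linear_combination -h3
          · simp [emb, Matrix.fromBlocks]
        · rcases k with k | d
          · simp [emb, Matrix.fromBlocks]
          · have h3 : ∀ x, ep (Sum.inr c : Idx ι g) x - ep (Sum.inr d : Idx ι g) x =
                ep (Sum.inr a : Idx ι g) x - ep (Sum.inr b : Idx ι g) x := by
              intro x
              rw [← hip]; exact h2 x
            have e1 : (fromBlocks Y₀ 0 0 Y₁ : Matrix (Idx ι g) (Idx ι g) ℂ) (Sum.inr c)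
                (Sum.inr d) = Y₁ c d := rfl
            have e2 : emb ι (rv ℂ a b) (Sum.inr c) (Sum.inr d) = rv ℂ a b c d := rfl
            rw [e1, e2]
            have h4 : κ * Y₁ c d = Y₁ a b * rv ℂ a b c d := by
              rcases pair_eq hab h3 with ⟨rfl, rfl⟩ | ⟨rfl, rfl⟩
              · rw [rv_apply, if_pos ⟨rfl, rfl⟩, hκ]
                by_cases hb : d = th c
                · have hb' : th d = c ∧ th c = d := ⟨by rw [hb, th_th], hb.symm⟩
                  rw [if_pos hb, if_pos hb', hb, sg_th]
                  have := sg_sq (R := ℂ) c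
                  linear_combination (-(Y₁ c (th c))) * this
                · have hb' : ¬ (th d = c ∧ th c = d) := fun h => hb h.2.symm
                  rw [if_neg hb, if_neg hb']
                  ring
              · rw [rv_apply, if_pos (⟨rfl, rfl⟩ : th b = th b ∧ th a = th a), hsp, hκ]
                by_cases hb : b = th a
                · have hb' : a = th b ∧ b = th a := ⟨by rw [hb, th_th], hb⟩
                  rw [if_pos hb, if_pos hb', hb, sg_th]
                  have := sg_sq (R := ℂ) a
                  linear_combination (Y₁ a (th a)) * this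
                · have hb' : ¬ (a = th b ∧ b = th a) := fun h => hb h.2
                  rw [if_neg hb, if_neg hb']
                  ring
            linear_combination (ψ (Function.update i p (Sum.inr d))) * h4
    have hsum : κ * der (fromBlocks Y₀ 0 0 Y₁ : Matrix (Idx ι g) (Idx ι g) ℂ) ψ i =
        Y₁ a b * der (emb ι (rv ℂ a b)) ψ i := by
      simp only [der, Finset.mul_sum]
      exact Finset.sum_congr rfl fun p _ => Finset.sum_congr rfl fun k _ => key p k
    rw [← hsum, hY, Pi.zero_apply, mul_zero]
  · -- wrong weight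
    have h5 : der (emb ι (rv ℂ a b)) ψ i = 0 := by
      rw [emb_rv, der_sub_left, der_smul_left, Pi.sub_apply, Pi.smul_apply, der_single, der_single]
      have z1 : ∑ p, (if i p = Sum.inr a then ψ (Function.update i p (Sum.inr b)) else 0) = 0 := by
        refine Finset.sum_eq_zero fun p _ => ?_
        by_cases hp : i p = Sum.inr a
        · rw [if_pos hp]
          by_contra h0
          refine hi fun x => ?_
          have h1 := hw _ h0 x
          rw [wt_update, hp] at h1
          linear_combination h1
        · rw [if_neg hp]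
      have z2 : ∑ p, (if i p = Sum.inr (th b) then ψ (Function.update i p (Sum.inr (th a)))
          else 0) = 0 := by
        refine Finset.sum_eq_zero fun p _ => ?_
        by_cases hp : i p = Sum.inr (th b)
        · rw [if_pos hp]
          by_contra h0
          refine hi fun x => ?_
          have h1 := hw _ h0 x
          rw [wt_update, hp, ep_th, ep_th] at h1
          linear_combination h1
        · rw [if_neg hp]
      rw [z1, z2, smul_zero, sub_zero]
    rw [h5, mul_zero]

end Pool.Agent.Work.T8
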