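import Pool.Agent.Work.MP_298761_T8.FinE
import Pool.Agent.Work.MP_298761_T8.RV
import Pool.Agent.Work.MP_298761_T8.WT
import Pool.Agent.Work.MP_298761_T8.DIA
import Pool.Agent.Work.MP_298761_T8.SEP
import Pool.Agent.Work.MP_298761_T8.POS2
import Pool.Agent.Work.MP_298761_T8.FF1P
import Pool.Agent.Work.MP_298761_T8.FF2P
import Pool.Agent.Work.MP_298761_T8.FFTP
import Pool.Agent.Work.MP_298761_T8.TRAPh
import Pool.Agent.Work.MP_298761_T8.RATE
import Pool.Agent.Work.MP_298761_T3.All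

/-! T8: everything together. -/

namespace Pool.Agent.Work.T8

open Pool.Agent.Work.T3

theorem main : Stmt_Main :=
  have hTRAP : Stmt_TRAP :=
    TRAPh_thm (stmt_FFTP (stmt_FF2P (stmt_FF1P stmt_POS2)) (stmt_INV stmt_INS)) stmt_BAS stmt_MUL
      stmt_INT stmt_INS
  FIN.stmt_FIN stmt_MUL stmt_INT stmt_BRK stmt_INS (stmt_INV stmt_INS) stmt_LIE stmt_RAT stmt_RIG
    stmt_REF stmt_BAS stmt_DSC stmt_RV stmt_WT stmt_DIA stmt_SEP hTRAP stmt_RATE

end Pool.Agent.Work.T8
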