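import Pool.Agent.Work.MP_298761_T3.Base

/-! T8 (MP_298761_ag): rigidity of generated Hodge classes. Definitions. -/

namespace Pool.Agent.Work.T8

open Matrix Pool.Agent.Work.T3

/-- square matrices acting on `V₁`, `dim V₁ = 2g` -/
abbrev Mat1 (g : ℕ) (R : Type) := Matrix (Fin g ⊕ Fin g) (Fin g ⊕ Fin g) R

/-- the adjoint of `e` for the standard symplectic form `ω(x, y) = x ⬝ᵥ J *ᵥ y` on `V₁` -/
def adjJ {g : ℕ} {R : Type} [CommRing R] (e : Mat1 g R) : Mat1 g R :=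
  -(Matrix.J (Fin g) R * eᵀ * Matrix.J (Fin g) R)

/-- the real matrix of a rational matrix -/
def mR {g : ℕ} (e : Mat1 g ℚ) : Mat1 g ℝ := e.map (fun x : ℚ => (x : ℝ))

/-- A commutative algebra `E` of endomorphisms of `V₁`, stable under adjoints, which commutes with
some complex structure `C` on `V₁ ⊗ ℝ` polarised by `ω` (`ω(Cx, Cy) = ω(x, y)`,
`ω(x, Cx) > 0` for `x ≠ 0`). -/
structure Admissible {g : ℕ} (E : Subalgebra ℚ (Mat1 g ℚ)) : Prop where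
  comm : ∀ a ∈ E, ∀ b ∈ E, a * b = b * a
  adj : ∀ a ∈ E, adjJ a ∈ E
  pos : ∃ C : Mat1 g ℝ, C * C = -1 ∧ Cᵀ * Matrix.J (Fin g) ℝ * C = Matrix.J (Fin g) ℝ ∧
    (∀ x : Fin g ⊕ Fin g → ℝ, x ≠ 0 → 0 < x ⬝ᵥ Matrix.J (Fin g) ℝ *ᵥ (C *ᵥ x)) ∧
    ∀ a ∈ E, mR a * C = C * mR a

/-- `φ` is a combination of products, in any positions, of vectors of `N`, of `b₀⁻¹` and of the
2-tensors `e ω⁻¹`, `e ∈ E` -/
def Generated {S ι : Type} [TopologicalSpace S] [Fintype ι] [DecidableEq ι] {g : ℕ}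
    (X : HodgeFamily S ι g) (N : Submodule ℚ (ι → ℚ)) (E : Set (Mat1 g ℚ)) {n : ℕ}
    (φ : Tens ℚ (Idx ι g) n) : Prop :=
  Dec ((fun v : ι → ℚ => (Sum.elim v 0 : Idx ι g → ℚ)) '' (N : Set (ι → ℚ)))
    ({fromBlocks (X.B⁻¹) 0 0 0} ∪
      (fun e : Mat1 g ℚ => (fromBlocks 0 0 0 (e * Matrix.J (Fin g) ℚ) :
        Matrix (Idx ι g) (Idx ι g) ℚ)) '' E) n φ

/-- the elements of `E` which are endomorphisms of the Hodge structures of all fibres -/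
def flat {S ι : Type} [TopologicalSpace S] [Fintype ι] [DecidableEq ι] {g : ℕ}
    (X : HodgeFamily S ι g) (E : Set (Mat1 g ℚ)) : Set (Mat1 g ℚ) :=
  {e | e ∈ E ∧ ∀ s, mR e * X.J₁ s = X.J₁ s * mR e}

/-- MAIN THEOREM -/
def Stmt_Main : Prop :=
  ∀ (S ι : Type) [TopologicalSpace S] [ConnectedSpace S] [Fintype ι] [DecidableEq ι] (g : ℕ)
    (X : HodgeFamily S ι g) (n : ℕ) (φ : Tens ℚ (Idx ι g) n),
    (∀ s, X.IsHodge s φ) → ∀ o : S, X.NonDeg (X.N o) →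
    ∀ E : Subalgebra ℚ (Mat1 g ℚ), Admissible E → Generated X (X.N o) (E : Set (Mat1 g ℚ)) φ →
    ∀ N : Submodule ℚ (ι → ℚ), (⨅ s, X.N s) ≤ N → X.NonDeg N →
      Generated X N (flat X (E : Set (Mat1 g ℚ))) φ

end Pool.Agent.Work.T8
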