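import Pool.Agent.Work.MP_298761_T8.Interface
import Pool.Agent.Work.MP_298761_T3.FinC

/-! T8: assembly, part A (symplectic algebra, change of coordinates). -/

namespace Pool.Agent.Work.T8.FIN

open Matrix Pool.Agent.Work.T3 Pool.Agent.Work.T3.FIN

variable {g : ℕ}

/-- the symplectic Lie algebra -/
def Sp {K : Type} [CommRing K] (Y : Mat1 g K) : Prop :=
  Yᵀ * Matrix.J (Fin g) K + Matrix.J (Fin g) K * Y = 0

theorem JJ (K : Type) [CommRing K] : Matrix.J (Fin g) K * Matrix.J (Fin g) K = -1 :=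
  Matrix.J_squared _ _

theorem J_transpose (K : Type) [CommRing K] : (Matrix.J (Fin g) K)ᵀ = -Matrix.J (Fin g) K :=
  Matrix.J_transpose _ _

theorem Sp.dual {K : Type} [CommRing K] {Y : Mat1 g K} (h : Sp Y) :
    Y * Matrix.J (Fin g) K + Matrix.J (Fin g) K * Yᵀ = 0 := by
  have h3 := congrArg (fun Z => Matrix.J (Fin g) K * Z * Matrix.J (Fin g) K) h
  simp only [Matrix.mul_add, Matrix.add_mul, Matrix.mul_zero, Matrix.zero_mul] at h3
  have e1 : Matrix.J (Fin g) K * (Yᵀ * Matrix.J (Fin g) K) * Matrix.J (Fin g) K =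
      -(Matrix.J (Fin g) K * Yᵀ) := by
    rw [Matrix.mul_assoc, Matrix.mul_assoc, JJ, Matrix.mul_neg, Matrix.mul_one, Matrix.mul_neg]
  have e2 : Matrix.J (Fin g) K * (Matrix.J (Fin g) K * Y) * Matrix.J (Fin g) K =
      -(Y * Matrix.J (Fin g) K) := by
    rw [← Matrix.mul_assoc, JJ, Matrix.neg_mul, Matrix.one_mul, Matrix.neg_mul]
  rw [e1, e2, ← neg_add, neg_eq_zero] at h3
  rw [add_comm]
  exact h3

/-- a symplectic change of basis -/
structure Symp {K : Type} [CommRing K] (P Q : Mat1 g K) : Prop where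
  pq : P * Q = 1
  qp : Q * P = 1
  symp : Pᵀ * Matrix.J (Fin g) K * P = Matrix.J (Fin g) K

section
variable {K : Type} [CommRing K] {P Q : Mat1 g K}

theorem Symp.tJ (h : Symp P Q) : Pᵀ * Matrix.J (Fin g) K = Matrix.J (Fin g) K * Q := by
  calc Pᵀ * Matrix.J (Fin g) K = Pᵀ * Matrix.J (Fin g) K * (P * Q) := by
        rw [h.pq, Matrix.mul_one]
    _ = (Pᵀ * Matrix.J (Fin g) K * P) * Q := by simp only [Matrix.mul_assoc]
    _ = Matrix.J (Fin g) K * Q := by rw [h.symp]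

theorem Symp.Jt (h : Symp P Q) : Matrix.J (Fin g) K * Pᵀ = Q * Matrix.J (Fin g) K := by
  have h1 : Matrix.J (Fin g) K * (Pᵀ * Matrix.J (Fin g) K) * Matrix.J (Fin g) K =
      Matrix.J (Fin g) K * (Matrix.J (Fin g) K * Q) * Matrix.J (Fin g) K := by rw [h.tJ]
  have e1 : Matrix.J (Fin g) K * (Pᵀ * Matrix.J (Fin g) K) * Matrix.J (Fin g) K =
      -(Matrix.J (Fin g) K * Pᵀ) := by
    rw [Matrix.mul_assoc, Matrix.mul_assoc, JJ, Matrix.mul_neg, Matrix.mul_one, Matrix.mul_neg]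
  have e2 : Matrix.J (Fin g) K * (Matrix.J (Fin g) K * Q) * Matrix.J (Fin g) K =
      -(Q * Matrix.J (Fin g) K) := by
    rw [← Matrix.mul_assoc, JJ, Matrix.neg_mul, Matrix.one_mul, Matrix.neg_mul]
  rw [e1, e2] at h1
  exact neg_injective h1

theorem Symp.PJPt (h : Symp P Q) : P * Matrix.J (Fin g) K * Pᵀ = Matrix.J (Fin g) K := by
  rw [Matrix.mul_assoc, h.Jt, ← Matrix.mul_assoc, h.pq, Matrix.one_mul]

theorem Symp.Qt (h : Symp P Q) : Qᵀ * Matrix.J (Fin g) K = Matrix.J (Fin g) K * P := by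
  have h1 : Pᵀ * (Qᵀ * Matrix.J (Fin g) K) = Pᵀ * (Matrix.J (Fin g) K * P) := by
    rw [← Matrix.mul_assoc, ← Matrix.transpose_mul, h.qp, Matrix.transpose_one, Matrix.one_mul,
      ← Matrix.mul_assoc, h.symp]
  have h2 := congrArg (fun Z => Qᵀ * Z) h1
  simp only [← Matrix.mul_assoc] at h2
  rw [← Matrix.transpose_mul, h.pq, Matrix.transpose_one, Matrix.one_mul, Matrix.one_mul] at h2
  exact h2

theorem Symp.swap (h : Symp P Q) : Symp Q P :=
  ⟨h.qp, h.pq, by rw [h.Qt, Matrix.mul_assoc, h.pq, Matrix.mul_one]⟩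

theorem Sp.conj {Y : Mat1 g K} (hY : Sp Y) (h : Symp P Q) : Sp (P * Y * Q) := by
  unfold Sp at hY ⊢
  have hY' : Yᵀ * Matrix.J (Fin g) K = -(Matrix.J (Fin g) K * Y) :=
    eq_neg_of_add_eq_zero_left hY
  have hJP : Matrix.J (Fin g) K * P = Qᵀ * Matrix.J (Fin g) K := h.Qt.symm
  rw [Matrix.transpose_mul, Matrix.transpose_mul]
  calc Qᵀ * (Yᵀ * Pᵀ) * Matrix.J (Fin g) K + Matrix.J (Fin g) K * (P * Y * Q)
      = Qᵀ * Yᵀ * (Pᵀ * Matrix.J (Fin g) K) + (Matrix.J (Fin g) K * P) * Y * Q := by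
        simp only [Matrix.mul_assoc]
    _ = Qᵀ * (Yᵀ * Matrix.J (Fin g) K) * Q + Qᵀ * (Matrix.J (Fin g) K * Y) * Q := by
        rw [h.tJ, hJP]; simp only [Matrix.mul_assoc]
    _ = 0 := by
        rw [hY', Matrix.mul_neg, Matrix.neg_mul, neg_add_cancel]

end

/-- complex conjugation of a matrix -/
def cj (Y : Mat1 g ℂ) : Mat1 g ℂ := Y.map (starRingEnd ℂ)

theorem cj_mul (Y Z : Mat1 g ℂ) : cj (Y * Z) = cj Y * cj Z := by
  unfold cj
  exact Matrix.map_mul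

theorem cj_one : cj (1 : Mat1 g ℂ) = 1 := by
  unfold cj
  exact Matrix.map_one _ (map_zero _) (map_one _)

theorem cj_J : cj (Matrix.J (Fin g) ℂ) = Matrix.J (Fin g) ℂ := by
  ext a b
  rcases a with a | a <;> rcases b with b | b <;>
    simp [cj, Matrix.J, Matrix.one_apply, apply_ite]

theorem cj_mC (Y : Mat1 g ℚ) : cj (mC Y) = mC Y := by
  ext a b
  simp [cj, mC]

theorem cj_transpose (Y : Mat1 g ℂ) : cj Yᵀ = (cj Y)ᵀ := rfl

theorem cj_add (Y Z : Mat1 g ℂ) : cj (Y + Z) = cj Y + cj Z := by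
  ext a b
  simp [cj]

theorem cj_zero : cj (0 : Mat1 g ℂ) = 0 := by
  ext a b
  simp [cj]

theorem cj_diagonal (d : Fin g ⊕ Fin g → ℂ) :
    cj (Matrix.diagonal d) = Matrix.diagonal (fun a => (starRingEnd ℂ) (d a)) := by
  ext a b
  by_cases h : a = b
  · subst h; simp [cj]
  · simp [cj, h]

theorem cj_rv (a b : Fin g ⊕ Fin g) : cj (rv ℂ a b) = rv ℂ a b := by
  have hs : ∀ c : Fin g ⊕ Fin g, (starRingEnd ℂ) (sg ℂ c) = sg ℂ c := by
    intro c
    rcases c with c | c <;> simp [sg]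
  ext i j
  simp only [cj, rv, Matrix.map_apply, Matrix.sub_apply, Matrix.smul_apply, smul_eq_mul, map_sub,
    map_mul, hs, Matrix.single_apply]
  congr 1
  · split_ifs <;> simp
  · congr 1
    split_ifs <;> simp

theorem Sp.cj {Y : Mat1 g ℂ} (h : Sp Y) : Sp (cj Y) := by
  have h1 := congrArg FIN.cj h
  rw [cj_add, cj_mul, cj_mul, cj_transpose, cj_J, cj_zero] at h1
  exact h1

theorem Symp.cj {P Q : Mat1 g ℂ} (h : Symp P Q) : Symp (cj P) (cj Q) :=
  ⟨by rw [← cj_mul, h.pq, cj_one], by rw [← cj_mul, h.qp, cj_one], by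
    have h1 := congrArg FIN.cj h.symp
    rw [cj_mul, cj_mul, cj_transpose, cj_J] at h1
    exact h1⟩

theorem Symp.mul {K : Type} [CommRing K] {P Q P' Q' : Mat1 g K} (h : Symp P Q)
    (h' : Symp P' Q') : Symp (P * P') (Q' * Q) := by
  refine ⟨?_, ?_, ?_⟩
  · rw [Matrix.mul_assoc, ← Matrix.mul_assoc P', h'.pq, Matrix.one_mul, h.pq]
  · rw [Matrix.mul_assoc, ← Matrix.mul_assoc Q, h.qp, Matrix.one_mul, h'.qp]
  · rw [Matrix.transpose_mul]
    calc P'ᵀ * Pᵀ * Matrix.J (Fin g) K * (P * P')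
        = P'ᵀ * (Pᵀ * Matrix.J (Fin g) K * P) * P' := by simp only [Matrix.mul_assoc]
      _ = Matrix.J (Fin g) K := by rw [h.symp, h'.symp]

/-! ### signs and rv -/

theorem th_th (a : Fin g ⊕ Fin g) : th (th a) = a := by
  rcases a with a | a <;> rfl

theorem sg_sq {K : Type} [CommRing K] (a : Fin g ⊕ Fin g) : sg K a * sg K a = 1 := by
  rcases a with a | a <;> simp [sg]

theorem sg_ne (a : Fin g ⊕ Fin g) : sg ℂ a ≠ 0 := by
  intro h
  have := sg_sq (K := ℂ) a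
  rw [h, mul_zero] at this
  exact zero_ne_one this

theorem rv_ne (hRV : Stmt_RV) (a b : Fin g ⊕ Fin g) : rv ℂ a b ≠ 0 := by
  intro h
  have h1 := congrFun (congrFun h a) b
  simp only [rv, Matrix.sub_apply, Matrix.smul_apply, smul_eq_mul, Matrix.zero_apply,
    Matrix.single_apply, and_self, if_true] at h1
  by_cases hc : th b = a ∧ th a = b
  · rw [if_pos hc] at h1
    rcases a with a | a <;> rcases b with b | b <;> simp [th, sg] at hc h1 <;> norm_num at h1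
  · rw [if_neg hc] at h1
    simp at h1

/-! ### change of coordinates in `V₁` -/

section coord
variable {ι : Type} [Fintype ι] [DecidableEq ι] {n : ℕ}

/-- the change of coordinates -/
def hat (ι : Type) [DecidableEq ι] (Q : Mat1 g ℂ) : Matrix (Idx ι g) (Idx ι g) ℂ :=
  fromBlocks 1 0 0 Q

theorem hat_mul (P Q : Mat1 g ℂ) : hat ι P * hat ι Q = hat ι (P * Q) := by
  simp [hat, fromBlocks_multiply]

theorem hat_one : hat ι (1 : Mat1 g ℂ) = 1 := by
  simp [hat, fromBlocks_one]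

theorem act_hat (hMUL : Stmt_MUL) {P Q : Mat1 g ℂ} (h : P * Q = 1)
    (φ : Tens ℂ (Idx ι g) n) : act (hat ι P) (act (hat ι Q) φ) = φ := by
  rw [← (hMUL ℂ (Idx ι g) (Idx ι g) (Idx ι g) n).2, hat_mul, h, hat_one,
    (hMUL ℂ (Idx ι g) (Idx ι g) (Idx ι g) n).1]

theorem der_hat (hINT : Stmt_INT) {P Q : Mat1 g ℂ} (hqp : Q * P = 1)
    (Y₀ : Matrix ι ι ℂ) (Y₁ : Mat1 g ℂ) (φ : Tens ℂ (Idx ι g) n) :
    der (fromBlocks Y₀ 0 0 Y₁) (act (hat ι Q) φ) =
      act (hat ι Q) (der (fromBlocks Y₀ 0 0 (P * Y₁ * Q)) φ) := by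
  rw [hINT ℂ (Idx ι g) (Idx ι g) n (hat ι Q) (fromBlocks Y₀ 0 0 Y₁)
    (fromBlocks Y₀ 0 0 (P * Y₁ * Q))]
  rw [hat, fromBlocks_multiply, fromBlocks_multiply]
  simp only [Matrix.mul_zero, Matrix.zero_mul, add_zero, zero_add, Matrix.mul_one, Matrix.one_mul]
  rw [Matrix.mul_assoc P, ← Matrix.mul_assoc Q, hqp, Matrix.one_mul]

theorem kill_iff (hMUL : Stmt_MUL) (hINT : Stmt_INT) {P Q : Mat1 g ℂ} (hpq : P * Q = 1)
    (hqp : Q * P = 1) (Y₀ : Matrix ι ι ℂ) (Y₁ : Mat1 g ℂ) (φ : Tens ℂ (Idx ι g) n) :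
    der (fromBlocks Y₀ 0 0 Y₁) (act (hat ι Q) φ) = 0 ↔
      der (fromBlocks Y₀ 0 0 (P * Y₁ * Q)) φ = 0 := by
  rw [der_hat hINT hqp]
  constructor
  · intro h
    have h1 := congrArg (act (hat ι P)) h
    rw [act_hat hMUL hpq, act_zero] at h1
    exact h1
  · intro h
    rw [h, act_zero]

end coord

end Pool.Agent.Work.T8.FIN
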