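import Pool.Agent.Work.MP_298761_T8.FinA

/-! T8: assembly, part B (consequences of the hypothesis at `o`). -/

namespace Pool.Agent.Work.T8.FIN

open Matrix Pool.Agent.Work.T3 Pool.Agent.Work.T3.FIN

variable {S ι : Type} [TopologicalSpace S] [Fintype ι] [DecidableEq ι] {g n : ℕ}

/-- the vectors -/
def NS (g : ℕ) (N : Submodule ℚ (ι → ℚ)) : Set (Idx ι g → ℚ) :=
  (fun v : ι → ℚ => (Sum.elim v 0 : Idx ι g → ℚ)) '' (N : Set (ι → ℚ))

/-- the 2-tensors -/
def PS (B : Matrix ι ι ℚ) (E : Set (Mat1 g ℚ)) : Set (Matrix (Idx ι g) (Idx ι g) ℚ) :=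
  {fromBlocks (B⁻¹) 0 0 0} ∪
      (fun e : Mat1 g ℚ => (fromBlocks 0 0 0 (e * Matrix.J (Fin g) ℚ) :
        Matrix (Idx ι g) (Idx ι g) ℚ)) '' E

theorem mapJ : (Matrix.J (Fin g) ℚ).map (algebraMap ℚ ℂ) = Matrix.J (Fin g) ℂ := by
  ext i j
  rcases i with i | i <;> rcases j with j | j <;>
    simp [Matrix.J, Matrix.one_apply, apply_ite]

theorem mC_J : mC (Matrix.J (Fin g) ℚ) = Matrix.J (Fin g) ℂ := mapJ

theorem map_eJ (e : Mat1 g ℚ) :
    (e * Matrix.J (Fin g) ℚ).map (algebraMap ℚ ℂ) = mC e * Matrix.J (Fin g) ℂ := by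
  have h : (e * Matrix.J (Fin g) ℚ).map (algebraMap ℚ ℂ) = mC (e * Matrix.J (Fin g) ℚ) := rfl
  rw [h, mC_mul, mC_J]

/-- elements of the symplectic Lie algebra commuting with `E` kill `φ` -/
theorem gen_sp (hINV : Stmt_INV) (B : Matrix ι ι ℚ) (N : Submodule ℚ (ι → ℚ))
    (E : Set (Mat1 g ℚ)) (φ : Tens ℚ (Idx ι g) n) (hd : Dec (NS g N) (PS B E) n φ)
    (Y : Mat1 g ℂ) (hY : Sp Y) (hE : ∀ e ∈ E, Y * mC e = mC e * Y) :
    der (emb ι Y) (tC φ) = 0 := by
  refine (hINV ℚ ℂ (Idx ι g) (algebraMap ℚ ℂ) _ _ n φ hd).2 (emb ι Y) ?_ ?_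
  · rintro _ ⟨v, _, rfl⟩
    funext i
    rcases i with i | i
    · simp [emb, Matrix.mulVec, dotProduct]
    · simp [emb, Matrix.mulVec, dotProduct]
  · intro b hb
    rcases hb with hb | ⟨e, he, rfl⟩
    · rw [Set.mem_singleton_iff] at hb
      subst hb
      rw [emb, Matrix.fromBlocks_map, Matrix.fromBlocks_transpose, fromBlocks_multiply,
        fromBlocks_multiply, fromBlocks_add]
      simp
    · simp only
      rw [emb, Matrix.fromBlocks_map, Matrix.fromBlocks_transpose, fromBlocks_multiply,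
        fromBlocks_multiply, fromBlocks_add, map_eJ]
      have h2 : Y * (mC e * Matrix.J (Fin g) ℂ) + mC e * Matrix.J (Fin g) ℂ * Yᵀ = 0 := by
        rw [← Matrix.mul_assoc, hE e he, Matrix.mul_assoc, Matrix.mul_assoc, ← Matrix.mul_add,
          hY.dual, Matrix.mul_zero]
      simp only [Matrix.map_zero, map_zero, Matrix.zero_mul, Matrix.mul_zero, add_zero,
        zero_add, Matrix.transpose_zero]
      rw [h2, fromBlocks_zero]

theorem wedge_inv (hINV : Stmt_INV) (B : Matrix ι ι ℚ) (hB : Bᵀ = B) (hdet : B.det ≠ 0)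
    (N : Submodule ℚ (ι → ℚ)) (E : Set (Mat1 g ℚ)) (φ : Tens ℚ (Idx ι g) n)
    (hd : Dec (NS g N) (PS B E) n φ)
    (x y : ι → ℂ) (hx : x ∈ perp B N) (hy : y ∈ perp B N) :
    der (ext0 g (wedge (mC B) x y)) (tC φ) = 0 := by
  refine (hINV ℚ ℂ (Idx ι g) (algebraMap ℚ ℂ) _ _ n φ hd).2 _ ?_ ?_
  · rintro _ ⟨v, hv, rfl⟩
    have hv0 : wedge (mC B) x y *ᵥ vC v = 0 := by
      rw [wedge_mulVec, dot_symm' (mC_symm hB), dot_symm' (mC_symm hB),
        dot_symm (mC_symm hB) x, dot_symm (mC_symm hB) y, hx v hv, hy v hv, zero_smul, zero_smul,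
        sub_zero]
    funext i
    rcases i with i | i
    · have := congrFun hv0 i
      simp only [Matrix.mulVec, dotProduct, ext0, Fintype.sum_sum_type, fromBlocks_apply₁₁,
        fromBlocks_apply₁₂, Sum.elim_inl, Sum.elim_inr, Pi.zero_apply, map_zero, mul_zero,
        Matrix.zero_apply, Finset.sum_const_zero, add_zero]
      simpa [Matrix.mulVec, dotProduct, vC] using this
    · simp [Matrix.mulVec, dotProduct, ext0]
  · intro b hb
    rcases hb with hb | ⟨e, he, rfl⟩
    · rw [Set.mem_singleton_iff] at hb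
      subst hb
      rw [ext0, Matrix.fromBlocks_map, Matrix.fromBlocks_transpose, fromBlocks_multiply,
        fromBlocks_multiply, fromBlocks_add]
      have h := wedge_skew' (mC_symm hB) (mC_inv hdet) (mC_inv' hdet) x y
      have e : (B⁻¹).map (algebraMap ℚ ℂ) = mC (B⁻¹) := rfl
      simp only [Matrix.map_zero, map_zero, Matrix.zero_mul, Matrix.mul_zero, add_zero,
        zero_add, Matrix.transpose_zero, e]
      rw [h, fromBlocks_zero]
    · simp only
      rw [ext0, Matrix.fromBlocks_map, Matrix.fromBlocks_transpose, fromBlocks_multiply,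
        fromBlocks_multiply, fromBlocks_add]
      simp

theorem refl_inv (hINV : Stmt_INV) (B : Matrix ι ι ℚ) (hB : Bᵀ = B) (hdet : B.det ≠ 0)
    (N : Submodule ℚ (ι → ℚ)) (E : Set (Mat1 g ℚ)) (φ : Tens ℚ (Idx ι g) n)
    (hd : Dec (NS g N) (PS B E) n φ)
    (x : ι → ℂ) (hx : x ∈ perp B N) (hq : x ⬝ᵥ mC B *ᵥ x ≠ 0) :
    act (ext1 g (refl (mC B) x)) (tC φ) = tC φ := by
  refine (hINV ℚ ℂ (Idx ι g) (algebraMap ℚ ℂ) _ _ n φ hd).1 _ ?_ ?_
  · rintro _ ⟨v, hv, rfl⟩
    have hv0 : refl (mC B) x *ᵥ vC v = vC v := by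
      rw [refl_mulVec, dot_symm' (mC_symm hB), dot_symm (mC_symm hB) x (vC v), hx v hv, mul_zero,
        zero_smul, sub_zero]
    funext i
    rcases i with i | i
    · have := congrFun hv0 i
      simp only [Matrix.mulVec, dotProduct, ext1, Fintype.sum_sum_type, fromBlocks_apply₁₁,
        fromBlocks_apply₁₂, Sum.elim_inl, Sum.elim_inr, Pi.zero_apply, map_zero, mul_zero,
        Matrix.zero_apply, Finset.sum_const_zero, add_zero]
      simpa [Matrix.mulVec, dotProduct, vC] using this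
    · simp [Matrix.mulVec, dotProduct, ext1]
  · intro b hb
    rcases hb with hb | ⟨e, he, rfl⟩
    · rw [Set.mem_singleton_iff] at hb
      subst hb
      rw [ext1, Matrix.fromBlocks_map, Matrix.fromBlocks_transpose, fromBlocks_multiply,
        fromBlocks_multiply]
      have h := refl_orth' (mC_symm hB) (mC_inv hdet) (mC_inv' hdet) hq
      have e : (B⁻¹).map (algebraMap ℚ ℂ) = mC (B⁻¹) := rfl
      simp only [Matrix.map_zero, map_zero, Matrix.zero_mul, Matrix.mul_zero, add_zero,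
        zero_add, Matrix.transpose_zero, e]
      rw [h]
    · simp only
      rw [ext1, Matrix.fromBlocks_map, Matrix.fromBlocks_transpose, fromBlocks_multiply,
        fromBlocks_multiply]
      simp

/-- the complexified Hodge operator on `V₁` -/
def kC (X : HodgeFamily S ι g) (s : S) : Mat1 g ℂ := (X.J₁ s).map (fun x : ℝ => (x : ℂ))

theorem kC_sp (X : HodgeFamily S ι g) (s : S) : Sp (kC X s) := by
  have h := X.inv₁ s
  unfold Sp
  ext i j
  have h' := congrFun (congrFun h i) j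
  simp only [Matrix.add_apply, Matrix.mul_apply, Matrix.transpose_apply,
    Matrix.zero_apply] at h'
  have h2 := congrArg (fun x : ℝ => (x : ℂ)) h'
  simp only [Complex.ofReal_add, Complex.ofReal_sum, Complex.ofReal_mul,
    Complex.ofReal_zero] at h2
  have hJ : ∀ a b, ((Matrix.J (Fin g) ℝ a b : ℝ) : ℂ) = Matrix.J (Fin g) ℂ a b := by
    intro a b
    rcases a with a | a <;> rcases b with b | b <;>
      simp [Matrix.J, Matrix.one_apply, apply_ite]
  simp only [hJ] at h2
  simp only [Matrix.add_apply, Matrix.mul_apply, Matrix.transpose_apply,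
    Matrix.zero_apply, kC, Matrix.map_apply]
  exact h2

theorem hodge_C (X : HodgeFamily S ι g) (φ : Tens ℚ (Idx ι g) n) (s : S) (hs : X.IsHodge s φ) :
    der (fromBlocks (jC X s) 0 0 (kC X s)) (tC φ) = 0 := by
  funext i
  have h := congrFun hs i
  simp only [der, Pi.zero_apply] at h ⊢
  have h2 := congrArg (fun x : ℝ => (x : ℂ)) h
  simp only [Complex.ofReal_sum, Complex.ofReal_mul, Complex.ofReal_zero,
    Complex.ofReal_ratCast] at h2
  rw [← h2]
  refine Finset.sum_congr rfl fun p _ => Finset.sum_congr rfl fun k _ => ?_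
  congr 1
  rcases i p with a | a <;> rcases k with b | b <;> simp [jC, kC]

/-- conjugation: `φ` is real -/
theorem der_cj (φ : Tens ℚ (Idx ι g) n) (Y : Mat1 g ℂ) (h : der (emb ι Y) (tC φ) = 0) :
    der (emb ι (cj Y)) (tC φ) = 0 := by
  funext i
  have h1 := congrArg (starRingEnd ℂ) (congrFun h i)
  simp only [der, Pi.zero_apply, map_sum, map_mul, map_zero] at h1 ⊢
  rw [← h1]
  refine Finset.sum_congr rfl fun p _ => Finset.sum_congr rfl fun k _ => ?_
  congr 1
  · rcases i p with a | a <;> rcases k with b | b <;> simp [emb, cj]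
  · simp [tC]

end Pool.Agent.Work.T8.FIN
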