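import Pool.Agent.Work.MP_298761_T8.FinB

/-! T8: assembly, part C (the equivalence relation on the symplectic basis). -/

namespace Pool.Agent.Work.T8.FIN

open Matrix Pool.Agent.Work.T3 Pool.Agent.Work.T3.FIN

variable {ι : Type} [Fintype ι] [DecidableEq ι] {g n : ℕ}

theorem emb_zero : emb ι (0 : Mat1 g ℂ) = 0 := by simp [emb]

theorem emb_mul (X Y : Mat1 g ℂ) : emb ι X * emb ι Y = emb ι (X * Y) := by
  simp [emb, fromBlocks_multiply]

theorem emb_sub (X Y : Mat1 g ℂ) : emb ι X - emb ι Y = emb ι (X - Y) := by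
  simp [emb, sub_eq_add_neg, fromBlocks_add, fromBlocks_neg]

theorem emb_add (X Y : Mat1 g ℂ) : emb ι X + emb ι Y = emb ι (X + Y) := by
  simp [emb, fromBlocks_add]

theorem emb_smul (c : ℂ) (X : Mat1 g ℂ) : emb ι (c • X) = c • emb ι X := by
  simp [emb, fromBlocks_smul]

/-- two indices belong to the same character of `E` -/
def eqv (E : Set (Mat1 g ℚ)) (P Q : Mat1 g ℂ) (a b : Fin g ⊕ Fin g) : Prop :=
  ∀ e ∈ E, (Q * mC e * P) a a = (Q * mC e * P) b b

/-- the data -/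
structure Ctx (E : Set (Mat1 g ℚ)) (P Q : Mat1 g ℂ) (B : Matrix ι ι ℚ)
    (N : Submodule ℚ (ι → ℚ)) (φ : Tens ℚ (Idx ι g) n) : Prop where
  symp : Symp P Q
  diag : ∀ e ∈ E, ∃ d : Fin g ⊕ Fin g → ℂ, Q * mC e * P = Matrix.diagonal d ∧
    ∀ a, d (th a) = (starRingEnd ℂ) (d a)
  dec : Dec (NS g N) (PS B E) n φ

variable {E : Set (Mat1 g ℚ)} {P Q : Mat1 g ℂ} {B : Matrix ι ι ℚ} {N : Submodule ℚ (ι → ℚ)}
  {φ : Tens ℚ (Idx ι g) n}

theorem Ctx.offdiag (K : Ctx E P Q B N φ) {e : Mat1 g ℚ} (he : e ∈ E) {a b : Fin g ⊕ Fin g}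
    (h : a ≠ b) : (Q * mC e * P) a b = 0 := by
  obtain ⟨d, hd, -⟩ := K.diag e he
  rw [hd, Matrix.diagonal_apply_ne _ h]

theorem Ctx.conj_diag (K : Ctx E P Q B N φ) {e : Mat1 g ℚ} (he : e ∈ E) (a : Fin g ⊕ Fin g) :
    (Q * mC e * P) (th a) (th a) = (starRingEnd ℂ) ((Q * mC e * P) a a) := by
  obtain ⟨d, hd, h2⟩ := K.diag e he
  rw [hd, Matrix.diagonal_apply_eq, Matrix.diagonal_apply_eq, h2]

theorem eqv.symm {a b : Fin g ⊕ Fin g} (h : eqv E P Q a b) : eqv E P Q b a :=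
  fun e he => (h e he).symm

theorem eqv.trans {a b c : Fin g ⊕ Fin g} (h : eqv E P Q a b) (h' : eqv E P Q b c) :
    eqv E P Q a c := fun e he => (h e he).trans (h' e he)

theorem Ctx.eqv_th (K : Ctx E P Q B N φ) {a b : Fin g ⊕ Fin g} (h : eqv E P Q a b) :
    eqv E P Q (th a) (th b) := by
  intro e he
  rw [K.conj_diag he, K.conj_diag he, h e he]

theorem Ctx.eqv_th' (K : Ctx E P Q B N φ) {a b : Fin g ⊕ Fin g}
    (h : eqv E P Q (th a) (th b)) : eqv E P Q a b := by
  have := K.eqv_th h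
  rwa [th_th, th_th] at this

/-- `P D = e P` -/
theorem Ctx.eP (K : Ctx E P Q B N φ) (e : Mat1 g ℚ) :
    P * (Q * mC e * P) = mC e * P := by
  rw [← Matrix.mul_assoc, ← Matrix.mul_assoc, K.symp.pq, Matrix.one_mul]

theorem Ctx.Qe (K : Ctx E P Q B N φ) (e : Mat1 g ℚ) :
    (Q * mC e * P) * Q = Q * mC e := by
  rw [Matrix.mul_assoc, K.symp.pq, Matrix.mul_one]

/-- `φ` in the coordinates given by `Q` -/
noncomputable def psi (Q : Mat1 g ℂ) (φ : Tens ℚ (Idx ι g) n) : Tens ℂ (Idx ι g) n :=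
  act (hat ι Q) (tC φ)

/-- the relation -/
def rel (Q : Mat1 g ℂ) (φ : Tens ℚ (Idx ι g) n) (a b : Fin g ⊕ Fin g) : Prop :=
  der (emb ι (rv ℂ a b)) (psi Q φ) = 0

theorem rv_apply_ne {a b i j : Fin g ⊕ Fin g} (h : rv ℂ a b i j ≠ 0) :
    (i = a ∧ j = b) ∨ (i = th b ∧ j = th a) := by
  by_contra hc
  rw [not_or] at hc
  apply h
  rw [rv, Matrix.sub_apply, Matrix.smul_apply, Matrix.single_apply, Matrix.single_apply,
    if_neg (fun h' => hc.1 ⟨h'.1.symm, h'.2.symm⟩),
    if_neg (fun h' => hc.2 ⟨h'.1.symm, h'.2.symm⟩)]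
  simp

theorem kill_psi (hMUL : Stmt_MUL) (hINT : Stmt_INT) (K : Ctx E P Q B N φ) (Y : Mat1 g ℂ) :
    der (emb ι Y) (psi Q φ) = 0 ↔ der (emb ι (P * Y * Q)) (tC φ) = 0 :=
  kill_iff hMUL hINT K.symp.pq K.symp.qp 0 Y (tC φ)

theorem kill_psi' (hMUL : Stmt_MUL) (hINT : Stmt_INT) (K : Ctx E P Q B N φ) (Y : Mat1 g ℂ) :
    der (emb ι (Q * Y * P)) (psi Q φ) = 0 ↔ der (emb ι Y) (tC φ) = 0 := by
  rw [kill_psi hMUL hINT K]
  have : P * (Q * Y * P) * Q = Y := by
    rw [← Matrix.mul_assoc, ← Matrix.mul_assoc, K.symp.pq, Matrix.one_mul, Matrix.mul_assoc,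
      K.symp.pq, Matrix.mul_one]
  rw [this]

theorem rel_of_eqv (hMUL : Stmt_MUL) (hINT : Stmt_INT) (hINV : Stmt_INV) (hRV : Stmt_RV)
    (K : Ctx E P Q B N φ) {a b : Fin g ⊕ Fin g} (h : eqv E P Q a b) : rel Q φ a b := by
  unfold rel
  rw [kill_psi hMUL hINT K]
  refine gen_sp hINV B N E φ K.dec _ (Sp.conj ((hRV g).1 a b) K.symp) ?_
  intro e he
  have hc : rv ℂ a b * (Q * mC e * P) = (Q * mC e * P) * rv ℂ a b := by
    obtain ⟨d, hd, hd2⟩ := K.diag e he
    have hab : d a = d b := by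
      have := h e he
      rwa [hd, Matrix.diagonal_apply_eq, Matrix.diagonal_apply_eq] at this
    rw [hd]
    ext i j
    rw [Matrix.mul_diagonal, Matrix.diagonal_mul]
    by_cases h0 : rv ℂ a b i j = 0
    · rw [h0]; ring
    · rcases rv_apply_ne h0 with ⟨rfl, rfl⟩ | ⟨rfl, rfl⟩
      · rw [hab, mul_comm]
      · rw [hd2, hd2, hab, mul_comm]
  calc P * rv ℂ a b * Q * mC e = P * rv ℂ a b * (Q * mC e) := by simp only [Matrix.mul_assoc]
    _ = P * (rv ℂ a b * (Q * mC e * P)) * Q := by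
        conv_lhs => rw [← K.Qe e]
        simp only [Matrix.mul_assoc]
    _ = (P * (Q * mC e * P)) * rv ℂ a b * Q := by rw [hc]; simp only [Matrix.mul_assoc]
    _ = mC e * (P * rv ℂ a b * Q) := by rw [K.eP e]; simp only [Matrix.mul_assoc]

theorem rel_refl (hMUL : Stmt_MUL) (hINT : Stmt_INT) (hINV : Stmt_INV) (hRV : Stmt_RV)
    (K : Ctx E P Q B N φ) (a : Fin g ⊕ Fin g) : rel Q φ a a :=
  rel_of_eqv hMUL hINT hINV hRV K (fun _ _ => rfl)

theorem rel_trans (hMUL : Stmt_MUL) (hINT : Stmt_INT) (hINV : Stmt_INV) (hBRK : Stmt_BRK)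
    (hRV : Stmt_RV) (K : Ctx E P Q B N φ) {a b c : Fin g ⊕ Fin g} (h : rel Q φ a b)
    (h' : rel Q φ b c) : rel Q φ a c := by
  by_cases hac : a = c
  · subst hac
    exact rel_refl hMUL hINT hINV hRV K a
  · obtain ⟨k, hk, hb⟩ := (hRV g).2.2.1 a b c hac
    unfold rel at h h' ⊢
    have h1 := hBRK ℂ (Idx ι g) n (emb ι (rv ℂ a b)) (emb ι (rv ℂ b c)) (psi Q φ)
    rw [h, h', der_zero_right, der_zero_right, sub_zero, emb_mul, emb_mul, emb_sub, hb, emb_smul,
      der_smul_left] at h1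
    exact (smul_eq_zero.mp h1).resolve_left hk

/-- weights -/
theorem wt (hMUL : Stmt_MUL) (hINT : Stmt_INT) (hINV : Stmt_INV)
    (hRV : Stmt_RV) (hWT : Stmt_WT) (K : Ctx E P Q B N φ) (Y₀ : Matrix ι ι ℂ) (Y : Mat1 g ℂ)
    (hY : Sp Y) (h : der (fromBlocks Y₀ 0 0 Y) (psi Q φ) = 0) (a b : Fin g ⊕ Fin g)
    (hab : Y a b ≠ 0) : rel Q φ a b := by
  by_cases h1 : a = b
  · subst h1
    exact rel_refl hMUL hINT hINV hRV K a
  · have h2 := hWT ι g n (psi Q φ) (fun c => rel_refl hMUL hINT hINV hRV K c) Y₀ Y hY h a b h1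
    exact (smul_eq_zero.mp h2).resolve_left hab

theorem wt_pure (hMUL : Stmt_MUL) (hINT : Stmt_INT) (hINV : Stmt_INV)
    (hRV : Stmt_RV) (hWT : Stmt_WT) (K : Ctx E P Q B N φ) (Y₀ : Matrix ι ι ℂ) (Y : Mat1 g ℂ)
    (hY : Sp Y) (h : der (fromBlocks Y₀ 0 0 Y) (psi Q φ) = 0) :
    der (emb ι Y) (psi Q φ) = 0 := by
  have h1 := ((hRV g).2.2.2 Y hY).2
  have h2 : ∀ (s : Finset (Fin g ⊕ Fin g)) (t : Finset (Fin g ⊕ Fin g)),
      der (emb ι (∑ a ∈ s, ∑ b ∈ t, Y a b • rv ℂ a b)) (psi Q φ) = 0 := by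
    intro s t
    induction s using Finset.induction_on with
    | empty => rw [Finset.sum_empty, emb_zero, der_zero_left]
    | insert a s ha ih =>
      rw [Finset.sum_insert ha, ← emb_add, der_add_left, ih, add_zero]
      clear ih
      induction t using Finset.induction_on with
      | empty => rw [Finset.sum_empty, emb_zero, der_zero_left]
      | insert b t hb ih2 =>
        rw [Finset.sum_insert hb, ← emb_add, der_add_left, ih2, add_zero, emb_smul,
          der_smul_left]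
        by_cases h0 : Y a b = 0
        · rw [h0, zero_smul]
        · have := wt hMUL hINT hINV hRV hWT K Y₀ Y hY h a b h0
          unfold rel at this
          rw [this, smul_zero]
  rw [h1, emb_smul, der_smul_left, h2, smul_zero]

/-- the relation is symmetric -/
theorem rel_symm (hMUL : Stmt_MUL) (hINT : Stmt_INT) (hINV : Stmt_INV) (hBRK : Stmt_BRK)
    (hRV : Stmt_RV) (hWT : Stmt_WT) (K : Ctx E P Q B N φ) {a b : Fin g ⊕ Fin g}
    (h : rel Q φ a b) : rel Q φ b a := by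
  -- the conjugate operator
  set C : Mat1 g ℂ := Q * cj P with hC
  set C' : Mat1 g ℂ := cj Q * P with hC'
  have hCs : Symp C C' := (K.symp.swap).mul K.symp.cj
  set Z : Mat1 g ℂ := C * rv ℂ a b * C' with hZ
  have hZs : Sp Z := Sp.conj ((hRV g).1 a b) hCs
  have hZk : der (emb ι Z) (psi Q φ) = 0 := by
    have h1 := (kill_psi hMUL hINT K _).mp h
    have h2 := der_cj φ _ h1
    have h3 : Z = Q * cj (P * rv ℂ a b * Q) * P := by
      rw [cj_mul, cj_mul, cj_rv, hZ, hC, hC']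
      simp only [Matrix.mul_assoc]
    rw [h3]
    exact (kill_psi' hMUL hINT K _).mpr h2
  have hwt : ∀ c d, Z c d ≠ 0 → rel Q φ c d := by
    intro c d hcd
    refine wt hMUL hINT hINV hRV hWT K 0 Z hZs ?_ c d hcd
    exact hZk
  -- the entries of `C`
  have hD : ∀ e ∈ E, cj Q * mC e * cj P =
      Matrix.diagonal (fun x => (starRingEnd ℂ) ((Q * mC e * P) x x)) := by
    intro e he
    obtain ⟨d, hd, -⟩ := K.diag e he
    have h1 : cj (Q * mC e * P) = cj Q * mC e * cj P := by rw [cj_mul, cj_mul, cj_mC]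
    rw [← h1, hd, cj_diagonal]
    congr 1
    funext x
    rw [Matrix.diagonal_apply_eq]
  have hCe : ∀ c x, C c x ≠ 0 → eqv E P Q c (th x) := by
    intro c x hcx e he
    have h1 : (Q * mC e * P) * C = C * (cj Q * mC e * cj P) := by
      have e1 : (Q * mC e * P) * C = Q * mC e * cj P := by
        rw [hC, ← Matrix.mul_assoc, Matrix.mul_assoc (Q * mC e), K.symp.pq, Matrix.mul_one]
      have e2 : C * (cj Q * mC e * cj P) = Q * mC e * cj P := by
        rw [hC]
        calc Q * cj P * (cj Q * mC e * cj P) = Q * (cj P * cj Q) * mC e * cj P := by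
              simp only [Matrix.mul_assoc]
          _ = Q * mC e * cj P := by rw [K.symp.cj.pq, Matrix.mul_one]
      rw [e1, e2]
    obtain ⟨d, hd, hd2⟩ := K.diag e he
    rw [hD e he] at h1
    have h2 := congrFun (congrFun h1 c) x
    rw [hd, Matrix.diagonal_mul, Matrix.mul_diagonal, Matrix.diagonal_apply_eq, ← hd2] at h2
    have h3 : (d c - d (th x)) * C c x = 0 := by
      rw [sub_mul, h2]; ring
    have h4 := (mul_eq_zero.mp h3).resolve_right hcx
    rw [hd, Matrix.diagonal_apply_eq, Matrix.diagonal_apply_eq]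
    exact sub_eq_zero.mp h4
  have hCe' : ∀ x c, C' x c ≠ 0 → eqv E P Q c (th x) := by
    intro x c hcx e he
    have h1 : C' * (Q * mC e * P) = (cj Q * mC e * cj P) * C' := by
      have e1 : C' * (Q * mC e * P) = cj Q * mC e * P := by
        rw [hC']
        calc cj Q * P * (Q * mC e * P) = cj Q * (P * Q) * mC e * P := by
              simp only [Matrix.mul_assoc]
          _ = cj Q * mC e * P := by rw [K.symp.pq, Matrix.mul_one]
      have e2 : (cj Q * mC e * cj P) * C' = cj Q * mC e * P := by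
        rw [hC', ← Matrix.mul_assoc, Matrix.mul_assoc (cj Q * mC e), K.symp.cj.pq,
          Matrix.mul_one]
      rw [e1, e2]
    obtain ⟨d, hd, hd2⟩ := K.diag e he
    rw [hD e he] at h1
    have h2 := congrFun (congrFun h1 x) c
    rw [hd, Matrix.mul_diagonal, Matrix.diagonal_mul, Matrix.diagonal_apply_eq, ← hd2] at h2
    have h3 : (d c - d (th x)) * C' x c = 0 := by
      rw [sub_mul, mul_comm (d c), h2]; ring
    have h4 := (mul_eq_zero.mp h3).resolve_right hcx
    rw [hd, Matrix.diagonal_apply_eq, Matrix.diagonal_apply_eq]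
    exact sub_eq_zero.mp h4
  -- `Z` has a nonzero entry
  have hZ0 : ∃ c d, Z c d ≠ 0 := by
    by_contra hno
    push Not at hno
    have hZ00 : Z = 0 := by
      ext c d
      exact hno c d
    apply rv_ne hRV a b
    have h1 : C' * Z * C = rv ℂ a b := by
      rw [hZ]
      calc C' * (C * rv ℂ a b * C') * C = (C' * C) * rv ℂ a b * (C' * C) := by
            simp only [Matrix.mul_assoc]
        _ = rv ℂ a b := by rw [hCs.qp, Matrix.one_mul, Matrix.mul_one]
    rw [← h1, hZ00, Matrix.mul_zero, Matrix.zero_mul]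
  obtain ⟨c, d, hcd⟩ := hZ0
  have hrel := hwt c d hcd
  -- the entry in terms of `C`, `C'`
  have hent : Z c d = C c a * C' b d - (sg ℂ a * sg ℂ b) * (C c (th b) * C' (th a) d) := by
    rw [hZ, rv, Matrix.mul_sub, Matrix.sub_mul, Matrix.mul_smul, Matrix.smul_mul,
      Matrix.sub_apply, Matrix.smul_apply, smul_eq_mul]
    have hs : ∀ u v : Fin g ⊕ Fin g, (C * Matrix.single u v (1 : ℂ) * C' : Mat1 g ℂ) c d =
        C c u * C' v d := by
      intro u v
      rw [Matrix.mul_apply, Finset.sum_eq_single v]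
      · rw [Matrix.mul_apply, Finset.sum_eq_single u]
        · simp
        · intro x _ hx
          rw [Matrix.single_apply_of_ne _ _ _ _ _ (by rintro ⟨h1, -⟩; exact hx h1.symm), mul_zero]
        · intro hx; exact absurd (Finset.mem_univ _) hx
      · intro x _ hx
        rw [Matrix.mul_apply, Finset.sum_eq_zero, zero_mul]
        intro y _
        rw [Matrix.single_apply_of_ne _ _ _ _ _ (by rintro ⟨-, h1⟩; exact hx h1.symm), mul_zero]
      · intro hx; exact absurd (Finset.mem_univ _) hx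
    rw [hs, hs]
  have hR : ∀ {x y}, eqv E P Q x y → rel Q φ x y := fun h => rel_of_eqv hMUL hINT hINV hRV K h
  have hT : ∀ {x y z}, rel Q φ x y → rel Q φ y z → rel Q φ x z :=
    fun h h' => rel_trans hMUL hINT hINV hBRK hRV K h h'
  by_cases h1 : C c a * C' b d = 0
  · have h2 : C c (th b) * C' (th a) d ≠ 0 := by
      intro h2
      rw [hent, h1, h2] at hcd
      simp at hcd
    have e1 := hCe c (th b) (left_ne_zero_of_mul h2)
    have e2 := hCe' (th a) d (right_ne_zero_of_mul h2)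
    rw [th_th] at e1 e2
    exact hT (hR e1.symm) (hT hrel (hR e2))
  · have e1 := hCe c a (left_ne_zero_of_mul h1)
    have e2 := hCe' b d (right_ne_zero_of_mul h1)
    have h3 : rel Q φ (th a) (th b) := hT (hR e1.symm) (hT hrel (hR e2))
    have h4 := (hRV g).2.1 b a
    unfold rel at h3 ⊢
    rw [h4, emb_smul, der_smul_left] at h3
    refine (smul_eq_zero.mp h3).resolve_left ?_
    exact neg_ne_zero.mpr (mul_ne_zero (sg_ne b) (sg_ne a))

theorem rel_th (hMUL : Stmt_MUL) (hINT : Stmt_INT) (hINV : Stmt_INV) (hBRK : Stmt_BRK)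
    (hRV : Stmt_RV) (hWT : Stmt_WT) (K : Ctx E P Q B N φ) {a b : Fin g ⊕ Fin g}
    (h : rel Q φ a b) : rel Q φ (th a) (th b) := by
  have h1 := rel_symm hMUL hINT hINV hBRK hRV hWT K h
  have h4 := (hRV g).2.1 b a
  unfold rel at h1 ⊢
  rw [h4, emb_smul, der_smul_left, h1, smul_zero]

end Pool.Agent.Work.T8.FIN
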