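import Pool.Agent.Work.MP_298761_T8.FinC

/-! T8: assembly, part D (the `V₀` side, from T3). -/

namespace Pool.Agent.Work.T8.FIN

open Matrix Pool.Agent.Work.T3 Pool.Agent.Work.T3.FIN

theorem V0part (hINT : Stmt_INT) (hBRK : Stmt_BRK) (hLIE : Stmt_LIE)
    (hRAT : Stmt_RAT) (hRIG : Stmt_RIG) (hREF : Stmt_REF) (hBAS : Stmt_BAS)
    {S ι : Type} [TopologicalSpace S] [ConnectedSpace S] [Fintype ι] [DecidableEq ι] {g n : ℕ}
    (X : HodgeFamily S ι g) (φ : Tens ℚ (Idx ι g) n) (o : S) (ho : X.NonDeg (X.N o))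
    (hw : ∀ x ∈ perp X.B (X.N o), ∀ y ∈ perp X.B (X.N o),
      der (ext0 g (wedge (mC X.B) x y)) (tC φ) = 0)
    (hr : ∀ x ∈ perp X.B (X.N o), x ⬝ᵥ mC X.B *ᵥ x ≠ 0 →
      act (ext1 g (refl (mC X.B) x)) (tC φ) = tC φ)
    (hJ0 : ∀ s, der (ext0 g (jC X s)) (tC φ) = 0)
    (N : Submodule ℚ (ι → ℚ)) (hN : (⨅ s, X.N s) ≤ N) :
    (∀ x ∈ perp X.B N, ∀ y ∈ perp X.B N,
      der (ext0 g (wedge (mC X.B) x y)) (tC φ) = 0) ∧
    (∀ x ∈ perp X.B N, x ⬝ᵥ mC X.B *ᵥ x ≠ 0 →
      act (ext1 g (refl (mC X.B) x)) (tC φ) = tC φ) := by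
  classical
  obtain ⟨m, r, P, Q, G, v, hPQ, hQP, hvN, hPv, hPT, hPo, -⟩ := hBAS ι X.B X.symm X.nonsing (X.N o) ho
  -- every vector in coordinates of the basis at `o`
  have hexp : ∀ w : ι → ℂ, w = (∑ a, (Q *ᵥ w) (Sum.inl a) • (fun i => P i (Sum.inl a))) +
      ∑ f, (Q *ᵥ w) (Sum.inr f) • vC (v f) := by
    intro w
    have h1 : w = P *ᵥ (Q *ᵥ w) := by rw [Matrix.mulVec_mulVec, hPQ, Matrix.one_mulVec]
    conv_lhs => rw [h1]
    funext i
    simp only [Pi.add_apply, Finset.sum_apply, Pi.smul_apply, smul_eq_mul]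
    rw [Matrix.mulVec, dotProduct, Fintype.sum_sum_type]
    congr 1
    · refine Finset.sum_congr rfl fun a _ => by ring
    · refine Finset.sum_congr rfl fun f _ => ?_
      rw [hPv, mul_comm]; rfl
  -- a vector orthogonal to the `e_a` is killed by `J o`
  have hkill : ∀ w : ι → ℂ, (∀ a, (Q *ᵥ w) (Sum.inl a) = 0) → jC X o *ᵥ w = 0 := by
    intro w hw
    rw [hexp w]
    simp only [hw, zero_smul, Finset.sum_const_zero, zero_add]
    rw [Matrix.mulVec_sum]
    refine Finset.sum_eq_zero fun f _ => ?_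
    rw [Matrix.mulVec_smul, (mem_N_iff X o (v f)).mp (hvN f), smul_zero]
  have htypes := X.types
  have hsym := mC_symm X.symm
  have hdetC : (mC X.B).det ≠ 0 := by
    intro h0
    have h1 := congrArg Matrix.det (mC_inv X.nonsing)
    rw [Matrix.det_mul, h0, zero_mul, Matrix.det_one] at h1
    exact zero_ne_one h1
  by_cases hm : m = 0
  · -- everything is Hodge at `o`
    subst hm
    have h1 : ∀ s, ∀ w ∈ (⊤ : Submodule ℂ (ι → ℂ)), jC X s *ᵥ w = 0 := by
      intro s
      refine hRIG S ι X.J₀ X.wt X.cont htypes o ⊤ (fun _ _ _ => Submodule.mem_top) ?_ s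
      intro w _
      exact hkill w (fun a => Fin.elim0 a)
    have h2 : (⊤ : Submodule ℚ (ι → ℚ)) ≤ N := by
      refine le_trans ?_ hN
      refine le_iInf fun s => ?_
      intro w _
      rw [mem_N_iff]
      exact h1 s _ Submodule.mem_top
    have h3 : ∀ x ∈ perp X.B N, x = 0 := by
      intro x hx
      have h4 : mC X.B *ᵥ x = 0 := by
        funext i
        have h5 := hx (Pi.single i 1) (h2 Submodule.mem_top)
        have h6 : vC (Pi.single i (1 : ℚ)) = (Pi.single i (1 : ℂ) : ι → ℂ) := by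
          funext j
          by_cases hj : j = i
          · subst hj; simp [vC]
          · simp [vC, hj]
        rw [h6, single_one_dotProduct] at h5
        exact h5
      have h7 : mC (X.B⁻¹) *ᵥ (mC X.B *ᵥ x) = x := by
        rw [Matrix.mulVec_mulVec, mC_inv' X.nonsing, Matrix.one_mulVec]
      rw [← h7, h4, Matrix.mulVec_zero]
    refine ⟨?_, ?_⟩
    · intro x hx y _
      rw [h3 x hx, wedge_zero_left, ext0_zero, der_zero_left]
    · intro x hx hq
      exfalso
      apply hq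
      rw [h3 x hx, zero_dotProduct]
  · have hm' : 0 < m := Nat.pos_of_ne_zero hm
    set x₀ : ι → ℂ := fun i => P i (Sum.inl ⟨0, hm'⟩) with hx₀
    have hx₀T : x₀ ∈ perp X.B (X.N o) := fun w hw => hPT _ w hw
    have hx₀q : x₀ ⬝ᵥ mC X.B *ᵥ x₀ ≠ 0 := by
      rw [hx₀, hPo, if_pos rfl]; exact one_ne_zero
    set T := perp X.B (X.N o) with hT
    set H := lieH (g := g) (n := n) (mC X.B) (tC φ) with hH
    obtain ⟨c1, c2, c3⟩ := hLIE ι (mC X.B) H T hsym
      (fun A hA C hC => lieH_bracket hBRK _ _ A hA C hC) (fun A hA => hA.1)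
      (fun x hx y hy => ⟨wedge_skew hsym x y, hw x hx y hy⟩)
      (fun x hx hq A hA => lieH_conj hINT _ hsym _ x hq (hr x hx hq) A hA)
      ⟨x₀, hx₀T, hx₀q⟩
    set U := subU (mC X.B) H T with hU
    set W := perpC (mC X.B) U with hW
    have hTU : ∀ x ∈ T, x ∈ U := fun x hx y hy => ⟨wedge_skew hsym y x, hw y hy x hx⟩
    have hJH : ∀ s, jC X s ∈ H := fun s => ⟨jC_skew X s, hJ0 s⟩
    have hJU : ∀ s, ∀ u ∈ U, jC X s *ᵥ u ∈ U := fun s u hu x hx => c3 _ (hJH s) u hu x hx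
    have hJW : ∀ s, ∀ w ∈ W, jC X s *ᵥ w ∈ W := by
      intro s w hw u hu
      have e1 : (jC X s)ᵀ * mC X.B = -(mC X.B * jC X s) :=
        eq_neg_of_add_eq_zero_left (jC_skew X s)
      have e2 : (jC X s *ᵥ w) ⬝ᵥ mC X.B *ᵥ u = w ⬝ᵥ ((jC X s)ᵀ * mC X.B) *ᵥ u := by
        rw [← Matrix.mulVec_mulVec, Matrix.dotProduct_mulVec w, Matrix.vecMul_transpose]
      rw [e2, e1, Matrix.neg_mulVec, dotProduct_neg, ← Matrix.mulVec_mulVec,
        hw _ (hJU s u hu), neg_zero]
    have hoW : ∀ w ∈ W, jC X o *ᵥ w = 0 := by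
      intro w hw
      refine hkill w fun a => ?_
      have h1 := hw _ (hTU (fun i => P i (Sum.inl a)) (fun z hz => hPT a z hz))
      rw [hexp w, add_dotProduct, sum_dotProduct, sum_dotProduct] at h1
      simp only [smul_dotProduct, smul_eq_mul, hPo] at h1
      have h2 : ∀ f, vC (v f) ⬝ᵥ mC X.B *ᵥ (fun i => P i (Sum.inl a)) = 0 :=
        fun f => hPT a (v f) (hvN f)
      simp only [h2, mul_zero, Finset.sum_const_zero, add_zero, mul_ite, mul_one,
        Finset.sum_ite_eq', Finset.mem_univ, if_true] at h1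
      exact h1
    have hsW : ∀ s, ∀ w ∈ W, jC X s *ᵥ w = 0 :=
      hRIG S ι X.J₀ X.wt X.cont htypes o W (fun s w hw => hJW s w hw) hoW
    -- rational vectors of `W` are flat Hodge classes
    have hWN : ∀ w : ι → ℚ, vC w ∈ W → w ∈ N := by
      intro w hw
      refine hN ?_
      rw [Submodule.mem_iInf]
      intro s
      rw [mem_N_iff]
      exact hsW s _ hw
    -- `W` is spanned by its rational vectors
    have hWspan : ∀ w ∈ W, w ∈ Submodule.span ℂ (vC '' {w : ι → ℚ | vC w ∈ W}) := by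
      intro w hw
      have h := hRAT ι {a | ∃ u : ι → ℚ, vC u ∈ U ∧ a = X.B *ᵥ u} w (by
        rintro _ ⟨u, hu, rfl⟩
        rw [← mC_mulVec, dotProduct_comm]
        exact hw _ hu)
      refine Submodule.span_mono (Set.image_mono ?_) h
      intro w' hw' u hu
      have hspan := subU_rat X.B X.symm φ hRAT (X.N o) u hu
      refine Submodule.span_induction
        (p := fun y _ => vC w' ⬝ᵥ mC X.B *ᵥ y = 0) ?_ ?_ ?_ ?_ hspan
      · rintro _ ⟨y, hy, rfl⟩
        rw [mC_mulVec, vC_dot, dotProduct_comm, hw' _ ⟨y, hy, rfl⟩]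
        simp
      · simp
      · intro y z _ _ hy hz
        rw [Matrix.mulVec_add, dotProduct_add, hy, hz, add_zero]
      · intro c y _ hy
        rw [Matrix.mulVec_smul, dotProduct_smul, hy, smul_zero]
    -- the orthogonal of `N` is contained in `U`
    have hTN : ∀ x ∈ perp X.B N, x ∈ U := by
      intro x hx
      refine perp_perp (mC X.B) hsym hdetC U x ?_
      intro w hw
      have hwW : w ∈ W := hw
      refine Submodule.span_induction
        (p := fun y _ => y ⬝ᵥ mC X.B *ᵥ x = 0) ?_ ?_ ?_ ?_ (hWspan w hwW)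
      · rintro _ ⟨y, hy, rfl⟩
        exact hx y (hWN y hy)
      · simp
      · intro y z _ _ hy hz
        rw [add_dotProduct, hy, hz, add_zero]
      · intro c y _ hy
        rw [smul_dotProduct, hy, smul_zero]
    refine ⟨?_, ?_⟩
    · intro x hx y hy
      exact (c2 x y (hTN x hx) (hTN y hy)).2
    · intro x hx hq
      exact hREF ι g n (mC X.B) hsym (tC φ) x₀ x hx₀q hq (hTN x hx x₀ hx₀T).2
        (hr x₀ hx₀T hx₀q)

end Pool.Agent.Work.T8.FIN
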