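import Pool.Agent.Work.MP_298761_T8.FinD

/-! T8: assembly, part E (idempotents, rationality, the theorem from the blocks). -/

namespace Pool.Agent.Work.T8.FIN

open Matrix Pool.Agent.Work.T3 Pool.Agent.Work.T3.FIN

/-! ### linearity of `Dec` -/

theorem insPair_smul_left {κ : Type} {n : ℕ} (c : ℂ) (b : Matrix κ κ ℂ)
    (p : Fin (n + 2)) (q : Fin (n + 1)) (ψ : Tens ℂ κ n) :
    insPair (c • b) p q ψ = c • insPair b p q ψ := by
  funext i; simp [insPair, mul_assoc]

theorem dec_lin {κ : Type} {N : Set (κ → ℂ)} {P P' : Set (Matrix κ κ ℂ)} {n : ℕ}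
    {ψ : Tens ℂ κ n} (hd : Dec N P n ψ) (h : ∀ b ∈ P, b ∈ Submodule.span ℂ P') :
    Dec N P' n ψ := by
  induction hd with
  | one => exact Dec.one
  | vec hv p _ ih => exact Dec.vec hv p ih
  | @pair n b hb p q ψ _ ih =>
    refine Submodule.span_induction (p := fun b _ => Dec N P' (n + 2) (insPair b p q ψ))
      ?_ ?_ ?_ ?_ (h b hb)
    · intro x hx
      exact Dec.pair hx p q ih
    · rw [insPair_zero_left]
      exact Dec.zero _
    · intro x y _ _ hx hy
      rw [insPair_add_left]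
      exact Dec.add hx hy
    · intro c x _ hx
      rw [insPair_smul_left]
      exact Dec.smul c hx
  | zero n => exact Dec.zero n
  | add _ _ ih1 ih2 => exact Dec.add ih1 ih2
  | smul c _ ih => exact Dec.smul c ih

theorem dec_act (hINS : Stmt_INS) {κ : Type} [Fintype κ] (G : Matrix κ κ ℂ)
    {N N' : Set (κ → ℂ)} {P P' : Set (Matrix κ κ ℂ)} (hN : ∀ v ∈ N, G *ᵥ v ∈ N')
    (hP : ∀ b ∈ P, G * b * Gᵀ ∈ P') {n : ℕ} {ψ : Tens ℂ κ n} (hd : Dec N P n ψ) :
    Dec N' P' n (act G ψ) := by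
  induction hd with
  | one =>
    have : act G (fun _ : Fin 0 → κ => (1 : ℂ)) = fun _ => 1 := by
      funext i
      simp [act]
    rw [this]
    exact Dec.one
  | @vec n v hv p ψ _ ih =>
    rw [(hINS ℂ κ κ n).1]
    exact Dec.vec (hN v hv) p ih
  | @pair n b hb p q ψ _ ih =>
    rw [(hINS ℂ κ κ n).2.1]
    exact Dec.pair (hP b hb) p q ih
  | zero n => rw [act_zero]; exact Dec.zero n
  | add _ _ ih1 ih2 => rw [act_add]; exact Dec.add ih1 ih2
  | smul c _ ih => rw [act_smul]; exact Dec.smul c ih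

/-! ### the rational Lie algebra -/

section
variable {S ι : Type} [TopologicalSpace S] [Fintype ι] [DecidableEq ι] {g n : ℕ}

/-- the rational part of the stabilizer in `sp(V₁)` -/
def ratH (φ : Tens ℚ (Idx ι g) n) : Set (Mat1 g ℚ) := {Y | Sp Y ∧ der (emb ι Y) φ = 0}

theorem ratH_C (φ : Tens ℚ (Idx ι g) n) {Y : Mat1 g ℚ} (h : Y ∈ ratH φ) :
    Sp (mC Y) ∧ der (emb ι (mC Y)) (tC φ) = 0 := by
  obtain ⟨h1, h2⟩ := h
  constructor
  · have e1 : mC (Yᵀ * Matrix.J (Fin g) ℚ + Matrix.J (Fin g) ℚ * Y) = mC (0 : Mat1 g ℚ) := by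
      rw [show Yᵀ * Matrix.J (Fin g) ℚ + Matrix.J (Fin g) ℚ * Y = 0 from h1]
    have e2 : mC (Yᵀ * Matrix.J (Fin g) ℚ + Matrix.J (Fin g) ℚ * Y) =
        mC (Yᵀ * Matrix.J (Fin g) ℚ) + mC (Matrix.J (Fin g) ℚ * Y) := by
      ext i j; simp [mC]
    have e3 : mC (0 : Mat1 g ℚ) = 0 := by ext i j; simp [mC]
    rw [e2, e3, mC_mul, mC_mul, mC_J, mC_transpose] at e1
    exact e1
  · funext i
    have h3 := congrArg (fun x : ℚ => (x : ℂ)) (congrFun h2 i)
    simp only [der, Pi.zero_apply, Rat.cast_sum, Rat.cast_mul, Rat.cast_zero] at h3 ⊢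
    rw [← h3]
    refine Finset.sum_congr rfl fun p _ => Finset.sum_congr rfl fun k _ => ?_
    congr 1
    rcases i p with a | a <;> rcases k with b | b <;> simp [emb, mC]

theorem ratH_map (φ : Tens ℚ (Idx ι g) n) {Y : Mat1 g ℂ} (h1 : Sp Y)
    (h2 : der (emb ι Y) (tC φ) = 0) (l : ℂ →ₗ[ℚ] ℚ) : Y.map l ∈ ratH φ := by
  have hl : ∀ (q : ℚ) (z : ℂ), l ((q : ℂ) * z) = q * l z := by
    intro q z
    have : (q : ℂ) * z = q • z := by rw [Algebra.smul_def]; rfl
    rw [this, map_smul, smul_eq_mul]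
  have hl' : ∀ (q : ℚ) (z : ℂ), l (z * (q : ℂ)) = l z * q := by
    intro q z
    rw [mul_comm, hl, mul_comm]
  have hJ : ∀ a b, Matrix.J (Fin g) ℂ a b = ((Matrix.J (Fin g) ℚ a b : ℚ) : ℂ) := by
    intro a b
    rcases a with a | a <;> rcases b with b | b <;>
      simp [Matrix.J, Matrix.one_apply, apply_ite]
  constructor
  · unfold Sp
    ext u w
    have h3 := congrArg l (congrFun (congrFun h1 u) w)
    simp only [Matrix.add_apply, Matrix.mul_apply, Matrix.transpose_apply, Matrix.zero_apply,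
      hJ, map_add, map_sum, hl, hl', map_zero] at h3
    simp only [Matrix.add_apply, Matrix.mul_apply, Matrix.transpose_apply, Matrix.zero_apply,
      Matrix.map_apply]
    exact h3
  · funext i
    have h3 := congrArg l (congrFun h2 i)
    simp only [der, Pi.zero_apply, map_sum, map_zero, tC, hl'] at h3
    simp only [der, Pi.zero_apply]
    rw [← h3]
    refine Finset.sum_congr rfl fun p _ => Finset.sum_congr rfl fun k _ => ?_
    congr 1
    rcases i p with a | a <;> rcases k with b | b <;> simp [emb]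

theorem mem_spanH (φ : Tens ℚ (Idx ι g) n) {Y : Mat1 g ℂ} (h1 : Sp Y)
    (h2 : der (emb ι Y) (tC φ) = 0) : Y ∈ Submodule.span ℂ (mC '' ratH φ) := by
  classical
  let b := Module.Basis.ofVectorSpace ℚ ℂ
  let T := Finset.univ.biUnion (fun x : (Fin g ⊕ Fin g) × (Fin g ⊕ Fin g) =>
    (b.repr (Y x.1 x.2)).support)
  have h3 : Y = ∑ k ∈ T, (b k) • mC (Y.map (b.coord k)) := by
    ext i j
    rw [Matrix.sum_apply]
    have h4 := b.linearCombination_repr (Y i j)
    rw [Finsupp.linearCombination_apply, Finsupp.sum] at h4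
    conv_lhs => rw [← h4]
    have h5 : (b.repr (Y i j)).support ⊆ T := by
      intro k hk
      exact Finset.mem_biUnion.2 ⟨(i, j), Finset.mem_univ _, hk⟩
    rw [Finset.sum_subset h5]
    · refine Finset.sum_congr rfl fun k _ => ?_
      simp only [Matrix.smul_apply, mC, Matrix.map_apply, smul_eq_mul, Module.Basis.coord_apply]
      rw [Algebra.smul_def, mul_comm]
      rfl
    · intro k _ hk
      rw [Finsupp.notMem_support_iff.1 hk, zero_smul]
  rw [h3]
  refine Submodule.sum_mem _ fun k _ => Submodule.smul_mem _ _ (Submodule.subset_span ?_)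
  exact ⟨_, ratH_map φ h1 h2 (b.coord k), rfl⟩

/-! ### idempotents -/

theorem span_mul {E : Subalgebra ℚ (Mat1 g ℚ)} {x y : Mat1 g ℂ}
    (hx : x ∈ Submodule.span ℂ (mC '' (E : Set (Mat1 g ℚ))))
    (hy : y ∈ Submodule.span ℂ (mC '' (E : Set (Mat1 g ℚ)))) :
    x * y ∈ Submodule.span ℂ (mC '' (E : Set (Mat1 g ℚ))) := by
  have h := Submodule.mul_mem_mul hx hy
  rw [Submodule.span_mul_span] at h
  refine Submodule.span_mono ?_ h
  rintro _ ⟨_, ⟨a, ha, rfl⟩, _, ⟨b, hb, rfl⟩, rfl⟩
  exact ⟨a * b, E.mul_mem ha hb, mC_mul a b⟩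

/-- functions whose diagonal operators are in the span of `E` -/
def funA (E : Subalgebra ℚ (Mat1 g ℚ)) (P Q : Mat1 g ℂ) : Submodule ℂ (Fin g ⊕ Fin g → ℂ) where
  carrier := {h | P * Matrix.diagonal h * Q ∈ Submodule.span ℂ (mC '' (E : Set (Mat1 g ℚ)))}
  zero_mem' := by
    show P * Matrix.diagonal (0 : Fin g ⊕ Fin g → ℂ) * Q ∈
      Submodule.span ℂ (mC '' (E : Set (Mat1 g ℚ)))
    have : Matrix.diagonal (0 : Fin g ⊕ Fin g → ℂ) = 0 := Matrix.diagonal_zero
    rw [this, Matrix.mul_zero, Matrix.zero_mul]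
    exact Submodule.zero_mem _
  add_mem' := by
    intro a b ha hb
    show P * Matrix.diagonal (a + b) * Q ∈ Submodule.span ℂ (mC '' (E : Set (Mat1 g ℚ)))
    have : Matrix.diagonal (a + b) = Matrix.diagonal a + Matrix.diagonal b :=
      (Matrix.diagonal_add a b).symm
    rw [this, Matrix.mul_add, Matrix.add_mul]
    exact Submodule.add_mem _ ha hb
  smul_mem' := by
    intro c a ha
    show P * Matrix.diagonal (c • a) * Q ∈ Submodule.span ℂ (mC '' (E : Set (Mat1 g ℚ)))
    rw [Matrix.diagonal_smul, Matrix.mul_smul, Matrix.smul_mul]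
    exact Submodule.smul_mem _ _ ha

theorem mem_funA {E : Subalgebra ℚ (Mat1 g ℚ)} {P Q : Mat1 g ℂ} {h : Fin g ⊕ Fin g → ℂ} :
    h ∈ funA E P Q ↔
      P * Matrix.diagonal h * Q ∈ Submodule.span ℂ (mC '' (E : Set (Mat1 g ℚ))) := Iff.rfl

end

/-- the theorem from the blocks -/
theorem stmt_FIN (hMUL : Stmt_MUL) (hINT : Stmt_INT) (hBRK : Stmt_BRK) (hINS : Stmt_INS)
    (hINV : Stmt_INV) (hLIE : Stmt_LIE) (hRAT : Stmt_RAT) (hRIG : Stmt_RIG) (hREF : Stmt_REF)
    (hBAS : Stmt_BAS) (hDSC : Stmt_DSC) (hRV : Stmt_RV) (hWT : Stmt_WT) (hDIA : Stmt_DIA)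
    (hSEP : Stmt_SEP) (hTRAP : Stmt_TRAP) (hRATE : Stmt_RATE) : Stmt_Main := by
  intro S ι _ _ _ _ g X n φ hφ o ho E hE hd N hN hNd
  classical
  obtain ⟨P, Q, hPQ, hQP, hsP, hdiag⟩ := hDIA g E hE
  have K : Ctx (E : Set (Mat1 g ℚ)) P Q X.B (X.N o) φ := ⟨⟨hPQ, hQP, hsP⟩, hdiag, hd⟩
  set ψ : Tens ℂ (Idx ι g) n := psi Q φ with hψ
  -- the Hodge operators
  have hJ : ∀ s, der (ext0 g (jC X s)) (tC φ) = 0 ∧ der (emb ι (kC X s)) (tC φ) = 0 := by
    intro s
    have h1 := hodge_C X φ s (hφ s)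
    have hsp : Sp (Q * kC X s * P) := Sp.conj (kC_sp X s) K.symp.swap
    have hPP : P * (Q * kC X s * P) * Q = kC X s := by
      rw [← Matrix.mul_assoc, ← Matrix.mul_assoc, hPQ, Matrix.one_mul, Matrix.mul_assoc,
        hPQ, Matrix.mul_one]
    have h2 : der (fromBlocks (jC X s) 0 0 (Q * kC X s * P)) ψ = 0 := by
      rw [hψ, psi, kill_iff hMUL hINT hPQ hQP, hPP]
      exact h1
    have h3 := wt_pure hMUL hINT hINV hRV hWT K _ _ hsp h2
    have h4 := (kill_psi' hMUL hINT K _).mp h3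
    refine ⟨?_, h4⟩
    have h5 : (fromBlocks (jC X s) 0 0 (kC X s) : Matrix (Idx ι g) (Idx ι g) ℂ) =
        ext0 g (jC X s) + emb ι (kC X s) := by
      rw [ext0, emb, fromBlocks_add]
      simp
    rw [h5, der_add_left, h4, add_zero] at h1
    exact h1
  -- the `V₀` side
  obtain ⟨hw, hr⟩ := V0part hINT hBRK hLIE hRAT hRIG hREF hBAS X φ o ho
    (fun x hx y hy => wedge_inv hINV X.B X.symm X.nonsing _ _ φ hd x y hx hy)
    (fun x hx hq => refl_inv hINV X.B X.symm X.nonsing _ _ φ hd x hx hq)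
    (fun s => (hJ s).1) N hN
  -- the relation
  set r := rel Q φ with hrdef
  have hreq : Equivalence r :=
    ⟨rel_refl hMUL hINT hINV hRV K, fun h => rel_symm hMUL hINT hINV hBRK hRV hWT K h,
      fun h h' => rel_trans hMUL hINT hINV hBRK hRV K h h'⟩
  have hrth : ∀ a b, r a b → r (th a) (th b) :=
    fun a b h => rel_th hMUL hINT hINV hBRK hRV hWT K h
  -- the normal form
  have hdec1 := hTRAP ι g n X.B X.symm X.nonsing N hNd r hreq hrth ψ
    (by
      intro x y hx hy
      have h1 := hw x hx y hy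
      have h2 : (ext0 g (wedge (mC X.B) x y) : Matrix (Idx ι g) (Idx ι g) ℂ) =
          fromBlocks (wedge (mC X.B) x y) 0 0 (0 : Mat1 g ℂ) := rfl
      rw [h2, hψ, psi, kill_iff hMUL hINT hPQ hQP, Matrix.mul_zero, Matrix.zero_mul]
      exact h1)
    (by
      intro x hx hq
      have h1 := hr x hx hq
      have h2 : (ext1 g (refl (mC X.B) x) : Matrix (Idx ι g) (Idx ι g) ℂ) * hat ι Q =
          hat ι Q * ext1 g (refl (mC X.B) x) := by
        simp [ext1, hat, fromBlocks_multiply]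
      rw [hψ, psi, ← (hMUL ℂ (Idx ι g) (Idx ι g) (Idx ι g) n).2, h2,
        (hMUL ℂ (Idx ι g) (Idx ι g) (Idx ι g) n).2, h1])
    (fun a b h => h)
  -- the idempotents
  have hcomm : ∀ c, ∀ Z : Mat1 g ℂ, Sp Z → der (emb ι Z) ψ = 0 →
      Matrix.diagonal (cl ℂ r c) * Z = Z * Matrix.diagonal (cl ℂ r c) := by
    intro c Z hZ hZk
    ext a b
    rw [Matrix.diagonal_mul, Matrix.mul_diagonal]
    by_cases h0 : Z a b = 0
    · rw [h0]; ring
    · have h1 : r a b := wt hMUL hINT hINV hRV hWT K 0 Z hZ hZk a b h0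
      have h2 : cl ℂ r c a = cl ℂ r c b := by
        unfold cl
        by_cases hc : r a c
        · rw [if_pos hc, if_pos (hreq.trans (hreq.symm h1) hc)]
        · rw [if_neg hc, if_neg (fun h => hc (hreq.trans h1 h))]
      rw [h2, mul_comm]
  have hclA : ∀ c, cl ℂ r c ∈ funA E P Q := by
    intro c
    refine hSEP (Fin g ⊕ Fin g) (funA E P Q) ?_ ?_ (cl ℂ r c) ?_
    · rw [mem_funA]
      have : Matrix.diagonal (fun _ : Fin g ⊕ Fin g => (1 : ℂ)) = 1 := Matrix.diagonal_one
      rw [this, Matrix.mul_one, hPQ]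
      exact Submodule.subset_span ⟨1, E.one_mem, mC_one⟩
    · intro f hf h hh
      rw [mem_funA] at hf hh ⊢
      have e1 : Matrix.diagonal (f * h) = Matrix.diagonal f * Matrix.diagonal h := by
        rw [Matrix.diagonal_mul_diagonal]; rfl
      have e2 : P * Matrix.diagonal (f * h) * Q =
          (P * Matrix.diagonal f * Q) * (P * Matrix.diagonal h * Q) := by
        rw [e1]
        calc P * (Matrix.diagonal f * Matrix.diagonal h) * Q =
            P * Matrix.diagonal f * 1 * Matrix.diagonal h * Q := by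
              simp only [Matrix.mul_assoc, Matrix.one_mul]
          _ = (P * Matrix.diagonal f * Q) * (P * Matrix.diagonal h * Q) := by
              rw [← hQP]; simp only [Matrix.mul_assoc]
      rw [e2]
      exact span_mul hf hh
    · intro a b hab
      have h1 : eqv (E : Set (Mat1 g ℚ)) P Q a b := by
        intro e he
        have h2 : (fun x => (Q * mC e * P) x x) ∈ funA E P Q := by
          rw [mem_funA]
          have h3 : Matrix.diagonal (fun x => (Q * mC e * P) x x) = Q * mC e * P := by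
            obtain ⟨d, hd', -⟩ := hdiag e he
            rw [hd']
            congr 1
            funext x
            rw [Matrix.diagonal_apply_eq]
          rw [h3]
          have h4 : P * (Q * mC e * P) * Q = mC e := by
            rw [← Matrix.mul_assoc, ← Matrix.mul_assoc, hPQ, Matrix.one_mul, Matrix.mul_assoc,
              hPQ, Matrix.mul_one]
          rw [h4]
          exact Submodule.subset_span ⟨e, he, rfl⟩
        exact hab _ h2
      have h2 : r a b := rel_of_eqv hMUL hINT hINV hRV K h1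
      unfold cl
      by_cases hc : r a c
      · rw [if_pos hc, if_pos (hreq.trans (hreq.symm h2) hc)]
      · rw [if_neg hc, if_neg (fun h => hc (hreq.trans h2 h))]
  -- they are combinations of flat elements
  have hflat : {f : Mat1 g ℚ | f ∈ Subalgebra.toSubmodule E ∧ ∀ Y ∈ ratH φ, f * Y = Y * f} ⊆
      flat X (E : Set (Mat1 g ℚ)) := by
    rintro f ⟨hf, hfY⟩
    refine ⟨hf, fun s => ?_⟩
    have h1 := mem_spanH φ (kC_sp X s) (hJ s).2
    have h2 : mC f * kC X s = kC X s * mC f := by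
      refine Submodule.span_induction (p := fun y _ => mC f * y = y * mC f) ?_ ?_ ?_ ?_ h1
      · rintro _ ⟨Y, hY, rfl⟩
        rw [← mC_mul, ← mC_mul, hfY Y hY]
      · rw [Matrix.mul_zero, Matrix.zero_mul]
      · intro x y _ _ hx hy
        rw [Matrix.mul_add, Matrix.add_mul, hx, hy]
      · intro c x _ hx
        rw [Matrix.mul_smul, Matrix.smul_mul, hx]
    ext i j
    have h3 := congrFun (congrFun h2 i) j
    simp only [Matrix.mul_apply, mC, kC, Matrix.map_apply] at h3
    apply Complex.ofReal_injective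
    simp only [Matrix.mul_apply, mR, Matrix.map_apply, Complex.ofReal_sum, Complex.ofReal_mul,
      Complex.ofReal_ratCast]
    exact h3
  have heps : ∀ c, P * Matrix.diagonal (cl ℂ r c) * Q ∈
      Submodule.span ℂ (mC '' flat X (E : Set (Mat1 g ℚ))) := by
    intro c
    refine Submodule.span_mono (Set.image_mono hflat) ?_
    refine hRATE g (Subalgebra.toSubmodule E) (ratH φ) _ (hclA c) ?_
    intro Y hY
    obtain ⟨hY1, hY2⟩ := ratH_C φ hY
    have h1 : der (emb ι (Q * mC Y * P)) ψ = 0 := (kill_psi' hMUL hINT K _).mpr hY2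
    have h2 := hcomm c _ (Sp.conj hY1 K.symp.swap) h1
    calc P * Matrix.diagonal (cl ℂ r c) * Q * mC Y =
        P * Matrix.diagonal (cl ℂ r c) * Q * mC Y * (P * Q) := by rw [hPQ, Matrix.mul_one]
      _ = P * (Matrix.diagonal (cl ℂ r c) * (Q * mC Y * P)) * Q := by
          simp only [Matrix.mul_assoc]
      _ = P * ((Q * mC Y * P) * Matrix.diagonal (cl ℂ r c)) * Q := by rw [h2]
      _ = (P * Q) * mC Y * (P * Matrix.diagonal (cl ℂ r c) * Q) := by
          simp only [Matrix.mul_assoc]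
      _ = mC Y * (P * Matrix.diagonal (cl ℂ r c) * Q) := by rw [hPQ, Matrix.one_mul]
  -- back to the coordinates of `V`
  have hdec2 : Dec (vC '' NS g N) ({mC (fromBlocks (X.B⁻¹) 0 0 0)} ∪
      Set.range (fun c => emb ι (P * Matrix.diagonal (cl ℂ r c) * Q * Matrix.J (Fin g) ℂ))) n
      (act (hat ι P) ψ) := by
    refine dec_act hINS (hat ι P) ?_ ?_ hdec1
    · rintro _ ⟨_, ⟨v, hv, rfl⟩, rfl⟩
      refine ⟨_, ⟨v, hv, rfl⟩, ?_⟩
      funext i
      rcases i with i | i
      · simp [hat, vC, Matrix.mulVec, dotProduct, Fintype.sum_sum_type, Matrix.one_apply]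
      · simp [hat, vC, Matrix.mulVec, dotProduct, Fintype.sum_sum_type]
    · intro b hb
      rcases hb with hb | ⟨c, rfl⟩
      · rw [Set.mem_singleton_iff] at hb
        subst hb
        left
        rw [Set.mem_singleton_iff]
        have e : (mC (fromBlocks (X.B⁻¹) 0 0 0 : Matrix (Idx ι g) (Idx ι g) ℚ)) =
            fromBlocks (mC (X.B⁻¹)) 0 0 0 := by
          rw [mC, Matrix.fromBlocks_map]
          simp [mC]
        rw [e, hat, Matrix.fromBlocks_transpose, fromBlocks_multiply, fromBlocks_multiply]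
        simp
      · right
        refine ⟨c, ?_⟩
        simp only
        rw [emb, emb, hat, Matrix.fromBlocks_transpose, fromBlocks_multiply, fromBlocks_multiply]
        simp only [Matrix.mul_zero, Matrix.zero_mul, add_zero, zero_add, Matrix.transpose_zero]
        congr 1
        have h1 : P * Matrix.J (Fin g) ℂ * Pᵀ = Matrix.J (Fin g) ℂ := K.symp.PJPt
        calc P * Matrix.diagonal (cl ℂ r c) * Q * Matrix.J (Fin g) ℂ =
            P * Matrix.diagonal (cl ℂ r c) * Q * (P * Matrix.J (Fin g) ℂ * Pᵀ) := by rw [h1]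
          _ = P * Matrix.diagonal (cl ℂ r c) * (Q * P) * Matrix.J (Fin g) ℂ * Pᵀ := by
              simp only [Matrix.mul_assoc]
          _ = P * (Matrix.diagonal (cl ℂ r c) * Matrix.J (Fin g) ℂ) * Pᵀ := by
              rw [hQP, Matrix.mul_one]; simp only [Matrix.mul_assoc]
  have hback : act (hat ι P) ψ = tC φ := by
    rw [hψ, psi]
    exact act_hat hMUL hPQ _
  rw [hback] at hdec2
  refine hDSC (Idx ι g) _ _ n φ ?_
  refine dec_lin hdec2 ?_
  intro b hb
  rcases hb with hb | ⟨c, rfl⟩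
  · rw [Set.mem_singleton_iff] at hb
    subst hb
    exact Submodule.subset_span ⟨_, Or.inl rfl, rfl⟩
  · simp only
    have h1 := heps c
    refine Submodule.span_induction (p := fun y _ => emb ι (y * Matrix.J (Fin g) ℂ) ∈
      Submodule.span ℂ (mC '' (({fromBlocks (X.B⁻¹) 0 0 0} ∪
      (fun e : Mat1 g ℚ => (fromBlocks 0 0 0 (e * Matrix.J (Fin g) ℚ) :
        Matrix (Idx ι g) (Idx ι g) ℚ)) '' flat X (E : Set (Mat1 g ℚ)) :
        Set (Matrix (Idx ι g) (Idx ι g) ℚ))))) ?_ ?_ ?_ ?_ h1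
    · rintro _ ⟨f, hf, rfl⟩
      refine Submodule.subset_span ⟨_, Or.inr ⟨f, hf, rfl⟩, ?_⟩
      simp only
      rw [emb, mC, Matrix.fromBlocks_map]
      congr 1
      · ext i j; simp
      · ext i j; simp
      · ext i j; simp
      · have := mC_mul f (Matrix.J (Fin g) ℚ)
        rw [mC_J] at this
        exact this
    · rw [Matrix.zero_mul, emb_zero]
      exact Submodule.zero_mem _
    · intro x y _ _ hx hy
      rw [Matrix.add_mul, ← emb_add]
      exact Submodule.add_mem _ hx hy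
    · intro z x _ hx
      rw [Matrix.smul_mul, emb_smul]
      exact Submodule.smul_mem _ _ hx

end Pool.Agent.Work.T8.FIN
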