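import Pool.Agent.Work.MP_298761_T8.Defs

/-! T8 (MP_298761_ag): interface (statements of the blocks). -/

namespace Pool.Agent.Work.T8

open Matrix Pool.Agent.Work.T3

section
variable {R ι : Type} [CommRing R] {g : ℕ}

/-- the involution of the index set of `V₁` -/
def th (a : Fin g ⊕ Fin g) : Fin g ⊕ Fin g := Sum.swap a

/-- the signs: `J a (th a) = sg a`, all other entries of `J` are `0` -/
def sg (R : Type) [CommRing R] {g : ℕ} (a : Fin g ⊕ Fin g) : R :=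
  Sum.elim (fun _ => -1) (fun _ => 1) a

/-- the element `E_ab - s_a s_b E_(θb θa)` of the symplectic Lie algebra -/
def rv (R : Type) [CommRing R] {g : ℕ} (a b : Fin g ⊕ Fin g) : Mat1 g R :=
  Matrix.single a b 1 - (sg R a * sg R b) • Matrix.single (th b) (th a) 1

/-- extension of an endomorphism of `V₁` by `0` on `V₀` -/
def emb (ι : Type) {g : ℕ} {R : Type} [CommRing R] (X : Mat1 g R) :
    Matrix (Idx ι g) (Idx ι g) R := fromBlocks 0 0 0 X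

/-- the indicator function of the class of `c` -/
noncomputable def cl (R : Type) [CommRing R] {g : ℕ} (r : Fin g ⊕ Fin g → Fin g ⊕ Fin g → Prop)
    (c : Fin g ⊕ Fin g) : Fin g ⊕ Fin g → R :=
  haveI := Classical.propDecidable
  fun a => if r a c then 1 else 0

end

/-- RV: the Lie algebra generated by the `rv` -/
def Stmt_RV : Prop :=
  ∀ (g : ℕ),
    (∀ a b : Fin g ⊕ Fin g, (rv ℂ a b)ᵀ * Matrix.J (Fin g) ℂ + Matrix.J (Fin g) ℂ * rv ℂ a b = 0) ∧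
    (∀ a b : Fin g ⊕ Fin g, rv ℂ (th b) (th a) = -(sg ℂ a * sg ℂ b) • rv ℂ a b) ∧
    (∀ a b c : Fin g ⊕ Fin g, a ≠ c → ∃ k : ℂ, k ≠ 0 ∧
      rv ℂ a b * rv ℂ b c - rv ℂ b c * rv ℂ a b = k • rv ℂ a c) ∧
    (∀ Y : Mat1 g ℂ, Yᵀ * Matrix.J (Fin g) ℂ + Matrix.J (Fin g) ℂ * Y = 0 →
      (∀ a b, Y (th b) (th a) = -(sg ℂ a * sg ℂ b) * Y a b) ∧
      Y = (1 / 2 : ℂ) • ∑ a, ∑ b, Y a b • rv ℂ a b)

/-- WT: weights. If `ψ` has weight zero, the root components of an operator which kills `ψ` kill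
`ψ`. -/
def Stmt_WT : Prop :=
  ∀ (ι : Type) [Fintype ι] [DecidableEq ι] (g n : ℕ) (ψ : Tens ℂ (Idx ι g) n),
    (∀ c : Fin g ⊕ Fin g, der (emb ι (rv ℂ c c)) ψ = 0) →
    ∀ (Y₀ : Matrix ι ι ℂ) (Y₁ : Mat1 g ℂ),
      Y₁ᵀ * Matrix.J (Fin g) ℂ + Matrix.J (Fin g) ℂ * Y₁ = 0 →
      der (fromBlocks Y₀ 0 0 Y₁ : Matrix (Idx ι g) (Idx ι g) ℂ) ψ = 0 →
      ∀ a b : Fin g ⊕ Fin g, a ≠ b → Y₁ a b • der (emb ι (rv ℂ a b)) ψ = 0

/-- DIA: a symplectic basis of `V₁ ⊗ ℂ` of joint eigenvectors -/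
def Stmt_DIA : Prop :=
  ∀ (g : ℕ) (E : Subalgebra ℚ (Mat1 g ℚ)), Admissible E →
    ∃ P Q : Mat1 g ℂ, P * Q = 1 ∧ Q * P = 1 ∧ Pᵀ * Matrix.J (Fin g) ℂ * P = Matrix.J (Fin g) ℂ ∧
      ∀ e ∈ E, ∃ d : Fin g ⊕ Fin g → ℂ, Q * mC e * P = Matrix.diagonal d ∧
        ∀ a, d (th a) = (starRingEnd ℂ) (d a)

/-- SEP: a unital algebra of functions on a finite set is determined by the points it separates -/
def Stmt_SEP : Prop :=
  ∀ (κ : Type) [Finite κ] (A : Submodule ℂ (κ → ℂ)), (fun _ => (1 : ℂ)) ∈ A →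
    (∀ f ∈ A, ∀ h ∈ A, f * h ∈ A) →
    ∀ f : κ → ℂ, (∀ a b, (∀ h ∈ A, h a = h b) → f a = f b) → f ∈ A

/-- POS2: the identity of sums of squares for a block `D` with `θ D` disjoint from `D` -/
def Stmt_POS2 : Prop :=
  ∀ (κ : Type) [Fintype κ] [DecidableEq κ] (n : ℕ) (φ : Tens ℝ κ n) (D : Finset κ)
    (θ : κ → κ) (s : κ → ℝ), (∀ a ∈ D, θ a ∉ D) → (∀ a, θ (θ a) = a) →
    (∀ a, s a * s a = 1) →
    (∀ a ∈ D, ∀ b ∈ D, der (Matrix.single a b (1 : ℝ)) φ =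
      (s a * s b) • der (Matrix.single (θ b) (θ a) (1 : ℝ)) φ) →
    (∀ p q : Fin n, p ≠ q → ∀ i : Fin n → κ,
      ∑ a ∈ D, s a * φ (Function.update (Function.update i p a) q (θ a)) = 0) →
    ∑ a ∈ D, ∑ b ∈ D, ∑ i : Fin n → κ, (der (Matrix.single a b (1 : ℝ)) φ i) ^ 2 = 0

/-- the 2-tensors of the normal form: `∑_A e_a ⊗ e_a` and, for every class of `r`, the part of `J`
which belongs to it -/
def NPP (A F : Type) [DecidableEq A] [DecidableEq F] (R : Type) [CommRing R] (g : ℕ)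
    (r : Fin g ⊕ Fin g → Fin g ⊕ Fin g → Prop) :
    Set (Matrix (Idx (A ⊕ F) g) (Idx (A ⊕ F) g) R) :=
  {fromBlocks (fromBlocks 1 0 0 0) 0 0 0} ∪
    Set.range (fun c => emb (A ⊕ F) (Matrix.diagonal (cl R r c) * Matrix.J (Fin g) R))

/-- invariance under `O(A)` and under the `rv a b` with `r a b` -/
def InvP {A F : Type} [Fintype A] [Fintype F] [DecidableEq A] [DecidableEq F] {g n : ℕ}
    (r : Fin g ⊕ Fin g → Fin g ⊕ Fin g → Prop) (φ : Tens ℝ (Idx (A ⊕ F) g) n) : Prop :=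
  (∀ a b : A, der (Matrix.single (Sum.inl (Sum.inl a)) (Sum.inl (Sum.inl b)) (1 : ℝ) -
      Matrix.single (Sum.inl (Sum.inl b)) (Sum.inl (Sum.inl a)) (1 : ℝ)) φ = 0) ∧
  (∀ a b : Fin g ⊕ Fin g, r a b → der (emb (A ⊕ F) (rv ℝ a b)) φ = 0) ∧
  (Nonempty A → ∃ a : A, act (Matrix.diagonal
      (fun k : Idx (A ⊕ F) g => if k = Sum.inl (Sum.inl a) then (-1 : ℝ) else 1)) φ = φ)

/-- FF1P: the traceless invariants vanish -/
def Stmt_FF1P : Prop :=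
  ∀ (A F : Type) [Fintype A] [Fintype F] [DecidableEq A] [DecidableEq F] (g n : ℕ)
    (r : Fin g ⊕ Fin g → Fin g ⊕ Fin g → Prop), Equivalence r →
    (∀ a b, r a b → r (th a) (th b)) →
    ∀ φ : Tens ℝ (Idx (A ⊕ F) g) n, InvP r φ → 0 < n →
    (∀ i : Fin n → Idx (A ⊕ F) g, (∃ p f, i p = Sum.inl (Sum.inr f)) → φ i = 0) →
    (∀ p q : Fin n, p ≠ q → ∀ i : Fin n → Idx (A ⊕ F) g,
      ∑ a : A, φ (Function.update (Function.update i p (Sum.inl (Sum.inl a))) q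
        (Sum.inl (Sum.inl a))) = 0) →
    (∀ c : Fin g ⊕ Fin g, ∀ p q : Fin n, p ≠ q → ∀ i : Fin n → Idx (A ⊕ F) g,
      ∑ a : Fin g ⊕ Fin g, cl ℝ r c a * (sg ℝ a *
        φ (Function.update (Function.update i p (Sum.inr a)) q (Sum.inr (th a)))) = 0) →
    φ = 0

/-- FF2P: invariants orthogonal to all decomposable tensors vanish -/
def Stmt_FF2P : Prop :=
  ∀ (A F : Type) [Fintype A] [Fintype F] [DecidableEq A] [DecidableEq F] (g n : ℕ)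
    (r : Fin g ⊕ Fin g → Fin g ⊕ Fin g → Prop), Equivalence r →
    (∀ a b, r a b → r (th a) (th b)) →
    ∀ φ : Tens ℝ (Idx (A ⊕ F) g) n, InvP r φ →
    (∀ ψ : Tens ℝ (Idx (A ⊕ F) g) n, Dec (NF A F ℝ g) (NPP A F ℝ g r) n ψ →
      ∑ i, φ i * ψ i = 0) →
    φ = 0

/-- FFTP: the first fundamental theorem over `ℝ` -/
def Stmt_FFTP : Prop :=
  ∀ (A F : Type) [Fintype A] [Fintype F] [DecidableEq A] [DecidableEq F] (g n : ℕ)
    (r : Fin g ⊕ Fin g → Fin g ⊕ Fin g → Prop), Equivalence r →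
    (∀ a b, r a b → r (th a) (th b)) →
    ∀ φ : Tens ℝ (Idx (A ⊕ F) g) n, InvP r φ → Dec (NF A F ℝ g) (NPP A F ℝ g r) n φ

/-- TRAP: the first fundamental theorem in the coordinates of `V₀` -/
def Stmt_TRAP : Prop :=
  ∀ (ι : Type) [Fintype ι] [DecidableEq ι] (g n : ℕ) (B : Matrix ι ι ℚ), Bᵀ = B → B.det ≠ 0 →
    ∀ N : Submodule ℚ (ι → ℚ), (∀ v ∈ N, (∀ w ∈ N, v ⬝ᵥ B *ᵥ w = 0) → v = 0) →
    ∀ (r : Fin g ⊕ Fin g → Fin g ⊕ Fin g → Prop), Equivalence r →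
    (∀ a b, r a b → r (th a) (th b)) →
    ∀ φ : Tens ℂ (Idx ι g) n,
    (∀ x y : ι → ℂ, (∀ w ∈ N, vC w ⬝ᵥ mC B *ᵥ x = 0) → (∀ w ∈ N, vC w ⬝ᵥ mC B *ᵥ y = 0) →
      der (ext0 g (wedge (mC B) x y)) φ = 0) →
    (∀ x : ι → ℂ, (∀ w ∈ N, vC w ⬝ᵥ mC B *ᵥ x = 0) → x ⬝ᵥ mC B *ᵥ x ≠ 0 →
      act (ext1 g (refl (mC B) x)) φ = φ) →
    (∀ a b : Fin g ⊕ Fin g, r a b → der (emb ι (rv ℂ a b)) φ = 0) →
    Dec (vC '' ((fun v : ι → ℚ => (Sum.elim v 0 : Idx ι g → ℚ)) '' (N : Set (ι → ℚ))))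
      ({mC (fromBlocks (B⁻¹) 0 0 0)} ∪
        Set.range (fun c => emb ι (Matrix.diagonal (cl ℂ r c) * Matrix.J (Fin g) ℂ))) n φ

/-- RATE: the rational structure of the commutant: a complex combination of elements of `E` which
commutes with a set of rational matrices is a combination of elements of `E` which do -/
def Stmt_RATE : Prop :=
  ∀ (g : ℕ) (E : Submodule ℚ (Mat1 g ℚ)) (H : Set (Mat1 g ℚ)) (e : Mat1 g ℂ),
    e ∈ Submodule.span ℂ (mC '' (E : Set (Mat1 g ℚ))) →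
    (∀ Y ∈ H, e * mC Y = mC Y * e) →
    e ∈ Submodule.span ℂ (mC '' {f : Mat1 g ℚ | f ∈ E ∧ ∀ Y ∈ H, f * Y = Y * f})

end Pool.Agent.Work.T8
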